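import Pool.Agent.Lib_helper69.Seg.Stmts

/-!
# Drawing a plane graph on assigned segments: assembly (module SEG_Asm of MP_23bbe6_lc)

From the combinatorial and geometric facts about typed vertices and canonical edges to the
statements `SDraw` and `SGraph` about the instance `toInst I`.
-/

set_option autoImplicit false

namespace Pool.Agent.SegDraw

open Pool.Agent.Poly

namespace Asm

lemma tv_nm (v : TV) : tv (nm v) = v := by
  obtain ⟨k, r, c⟩ := v
  simp [tv, nm]

lemma nm_inj : Function.Injective nm := fun a b h => by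
  rw [← tv_nm a, ← tv_nm b, h]

lemma posOf_nm (R : ℕ) (p : Par) (v : TV) : posOf R p (nm v) = posT R p v := by
  rw [posOf, tv_nm]

lemma ok_of {I : NF} (h : NFok I) : OK (nR I) (nM I) := by
  obtain ⟨h1, h2, -⟩ := h
  unfold OK nR nM
  omega

variable {I : NF}

lemma mem_inst {x : VRec} : x ∈ (toInst I).1 ↔ ∃ v ∈ vlist I, recOf I v = x := by
  simp [toInst]

lemma mem_inst' (hM : SMem) (hI : NFok I) {x : VRec} :
    x ∈ (toInst I).1 ↔ ∃ v, inV (nR I) (nM I) v ∧ recOf I v = x := by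
  rw [mem_inst]
  simp only [(hM I hI).1]

/-- Adjacency in terms of typed vertices. -/
lemma adj_iff (hM : SMem) (hI : NFok I) {a b : ℕ} :
    Adj (toInst I) a b ↔
      ∃ u v, inV (nR I) (nM I) u ∧ v ∈ nbr (nR I) (nM I) u ∧ nm u = a ∧ nm v = b := by
  unfold Adj
  constructor
  · rintro ⟨x, hx, h1, h2⟩
    obtain ⟨u, hu, rfl⟩ := (mem_inst' hM hI).1 hx
    simp only [recOf, List.mem_map] at h1 h2
    obtain ⟨v, hv, hvb⟩ := h2
    exact ⟨u, v, hu, hv, h1, hvb⟩
  · rintro ⟨u, v, hu, hv, h1, h2⟩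
    refine ⟨recOf I u, (mem_inst' hM hI).2 ⟨u, hu, rfl⟩, h1, ?_⟩
    simp only [recOf, List.mem_map]
    exact ⟨v, hv, h2⟩

lemma inV_zero {R M : ℕ} (h : OK R M) : inV R M (0, 0, 0) := by
  unfold OK at h
  left
  simp
  omega

lemma one_mem_nbr {R M : ℕ} : (1, 0, 0) ∈ nbr R M (0, 0, 0) := by
  simp [nbr]

/-- Every vertex has a neighbour. -/
lemma exists_nbr (hC : SCanon) (hConn : SConn) {R M : ℕ} (h : OK R M) {w : TV}
    (hw : inV R M w) : ∃ w', w' ∈ nbr R M w := by
  rcases (Relation.ReflTransGen.cases_tail_iff _ _ _).1 (hConn R M h w hw) with h0 | ⟨a, -, ha, hb⟩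
  · rw [h0]; exact ⟨_, one_mem_nbr⟩
  · exact ⟨a, (hC R M h a w ha hb).2.1⟩

end Asm

open Asm

/-- GRAPH -/
theorem graph (hC : SCanon) (hN : SNbr) (hM : SMem) (hConn : SConn) : SGraph := by
  intro I hI
  have hok := ok_of hI
  have hsymm : ∀ u v, Adj (toInst I) u v → Adj (toInst I) v u := by
    intro a b hab
    obtain ⟨u, v, hu, hv, rfl, rfl⟩ := (adj_iff hM hI).1 hab
    obtain ⟨h1, h2, -⟩ := hC _ _ hok u v hu hv
    exact (adj_iff hM hI).2 ⟨v, u, h1, h2, rfl, rfl⟩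
  have hpath : ∀ u, inV (nR I) (nM I) u →
      Relation.ReflTransGen (Adj (toInst I)) (nm (0, 0, 0)) (nm u) := by
    intro u hu
    refine Relation.ReflTransGen.lift (p := Adj (toInst I)) nm (fun a b hab => ?_) _ _
      (hConn _ _ hok u hu)
    exact (adj_iff hM hI).2 ⟨a, b, hab.1, hab.2, rfl, rfl⟩
  refine ⟨?_, ?_, hsymm, ?_, ?_⟩
  · have : (toInst I).1.map Prod.fst = (vlist I).map nm := by
      simp only [toInst, List.map_map]
      rfl
    rw [this]
    exact ((hM I hI).2).map nm_inj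
  · intro x hx
    obtain ⟨v, hv, rfl⟩ := (mem_inst' hM hI).1 hx
    obtain ⟨h1, h2⟩ := hN _ _ hok v hv
    refine ⟨h1.map nm_inj, ?_⟩
    simp only [recOf, List.mem_map, not_exists, not_and]
    intro u hu hnu
    exact h2 (nm_inj hnu ▸ hu)
  · intro x hx y hy
    obtain ⟨u, hu, rfl⟩ := (mem_inst' hM hI).1 hx
    obtain ⟨v, hv, rfl⟩ := (mem_inst' hM hI).1 hy
    have : Std.Symm (Adj (toInst I)) := ⟨fun a b => hsymm a b⟩
    exact ((Relation.ReflTransGen.stdSymm (r := Adj (toInst I))).symm _ _ (hpath u hu)).trans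
      (hpath v hv)
  · exact (adj_iff hM hI).2 ⟨(0, 0, 0), (1, 0, 0), inV_zero hok, one_mem_nbr, rfl, rfl⟩

namespace Asm

/-- Two different canonical edges do not cross. -/
lemma nc_of_ne (h1 : SNcf) (h2 : SNcft) (h3 : SNct) {R M : ℕ} (h : OK R M) {p : Par}
    (hp : Good R M p) {i r c i' r' c' : ℕ} (he : vE R M i r c) (he' : vE R M i' r' c')
    (hne : ¬ (i = i' ∧ r = r' ∧ c = c')) :
    NC (posT R p (eL i r c)) (posT R p (eR i r c)) (posT R p (eL i' r' c'))
      (posT R p (eR i' r' c')) := by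
  rcases Nat.lt_or_ge 18 i with hi | hi <;> rcases Nat.lt_or_ge 18 i' with hi' | hi'
  · exact h3 R M h p hp i r c i' r' c' he he' hi hi' hne
  · exact (h2 R M h p hp i' r' c' i r c he' he hi' hi).symm
  · exact h2 R M h p hp i r c i' r' c' he he' hi hi'
  · exact h1 R M h p hp i r c i' r' c' he he' hi hi' hne

lemma openSegment_sub (a b : ℝ × ℝ) : openSegment ℝ a b ⊆ segment ℝ a b :=
  openSegment_subset_segment ℝ a b

lemma left_notMem_openSegment {a b : ℝ × ℝ} (h : a ≠ b) : a ∉ openSegment ℝ a b := by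
  rw [left_mem_openSegment_iff]
  exact h

lemma right_notMem_openSegment {a b : ℝ × ℝ} (h : a ≠ b) : b ∉ openSegment ℝ a b := by
  rw [right_mem_openSegment_iff]
  exact h

/-- The canonical edge of an adjacency. -/
lemma exists_edge (hC : SCanon) {R M : ℕ} (h : OK R M) (p : Par) {u v : TV} (hu : inV R M u)
    (hv : v ∈ nbr R M u) : ∃ i r c, vE R M i r c ∧
      s(u, v) = s(eL i r c, eR i r c) ∧
      segment ℝ (posT R p u) (posT R p v) = segment ℝ (posT R p (eL i r c)) (posT R p (eR i r c)) ∧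
      openSegment ℝ (posT R p u) (posT R p v) =
        openSegment ℝ (posT R p (eL i r c)) (posT R p (eR i r c)) := by
  obtain ⟨-, -, i, r, c, he, (⟨rfl, rfl⟩ | ⟨rfl, rfl⟩)⟩ := hC R M h u v hu hv
  · exact ⟨i, r, c, he, rfl, rfl, rfl⟩
  · exact ⟨i, r, c, he, Sym2.eq_swap, segment_symm ℝ _ _, openSegment_symm ℝ _ _⟩

lemma drawn_eq {I : NF} (hC : SCanon) (hC2 : SCanon') (hM : SMem) (hI : NFok I) (p : Par) :
    drawn (toInst I) (posOf (nR I) p) = drawnT (nR I) (nM I) p := by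
  have hok := ok_of hI
  ext z
  constructor
  · rintro ⟨a, b, hab, hz⟩
    obtain ⟨u, v, hu, hv, rfl, rfl⟩ := (adj_iff hM hI).1 hab
    rw [posOf_nm, posOf_nm] at hz
    obtain ⟨i, r, c, he, -, h2, -⟩ := exists_edge hC hok p hu hv
    exact ⟨i, r, c, he, h2 ▸ hz⟩
  · rintro ⟨i, r, c, he, hz⟩
    obtain ⟨h1, h2, h3⟩ := hC2 _ _ hok i r c he
    refine ⟨nm (eL i r c), nm (eR i r c), (adj_iff hM hI).2 ⟨_, _, h1, h3, rfl, rfl⟩, ?_⟩
    rw [posOf_nm, posOf_nm]
    exact hz

end Asm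

/-- DRAW -/
theorem draw (hC : SCanon) (hC2 : SCanon') (hN : SNbr) (hM : SMem) (hConn : SConn)
    (hInj : SInj) (hRot : SRot) (hOut : SOut) (h1 : SNcf) (h2 : SNcft) (h3 : SNct) : SDraw := by
  intro I hI p hp
  have hok := ok_of hI
  refine ⟨?_, ?_, ?_, ?_, ?_⟩
  · intro x hx y hy hxy
    obtain ⟨u, hu, rfl⟩ := (mem_inst' hM hI).1 hx
    obtain ⟨v, hv, rfl⟩ := (mem_inst' hM hI).1 hy
    simp only [recOf, posOf_nm] at hxy ⊢
    rw [hInj _ _ hok p hp u v hu hv hxy]
  · intro x hx a b hab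
    obtain ⟨w, hw, rfl⟩ := (mem_inst' hM hI).1 hx
    obtain ⟨u, v, hu, hv, rfl, rfl⟩ := (adj_iff hM hI).1 hab
    simp only [recOf, posOf_nm]
    have hvV : inV (nR I) (nM I) v := (hC _ _ hok u v hu hv).1
    have huv : u ≠ v := fun h => (hN _ _ hok u hu).2 (h ▸ hv)
    have hne : posT (nR I) p u ≠ posT (nR I) p v := fun h => huv (hInj _ _ hok p hp u v hu hvV h)
    by_cases hwu : w = u
    · rw [hwu]; exact left_notMem_openSegment hne
    by_cases hwv : w = v
    · rw [hwv]; exact right_notMem_openSegment hne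
    obtain ⟨w', hw'⟩ := exists_nbr hC hConn hok hw
    obtain ⟨i, r, c, he, hs, -, ho⟩ := exists_edge hC hok p hu hv
    obtain ⟨i', r', c', he', hs', hc', -⟩ := exists_edge hC hok p hw hw'
    have hdiff : ¬ (i = i' ∧ r = r' ∧ c = c') := by
      rintro ⟨rfl, rfl, rfl⟩
      rw [← hs'] at hs
      have : w ∈ s(u, v) := by rw [hs]; exact Sym2.mem_mk_left _ _
      rcases Sym2.mem_iff.1 this with h | h
      · exact hwu h
      · exact hwv h
    have hnc := nc_of_ne h1 h2 h3 hok hp he he' hdiff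
    rw [ho]
    intro hmem
    refine Set.disjoint_left.1 hnc.1 hmem ?_
    rw [← hc']
    exact left_mem_segment ℝ _ _
  · intro a b a' b' hab hab' hne
    obtain ⟨u, v, hu, hv, rfl, rfl⟩ := (adj_iff hM hI).1 hab
    obtain ⟨u', v', hu', hv', rfl, rfl⟩ := (adj_iff hM hI).1 hab'
    simp only [posOf_nm]
    obtain ⟨i, r, c, he, hs, -, ho⟩ := exists_edge hC hok p hu hv
    obtain ⟨i', r', c', he', hs', -, ho'⟩ := exists_edge hC hok p hu' hv'
    have hdiff : ¬ (i = i' ∧ r = r' ∧ c = c') := by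
      rintro ⟨rfl, rfl, rfl⟩
      rw [← hs'] at hs
      apply hne
      rw [← Sym2.map_mk nm, ← Sym2.map_mk nm, hs]
    have hnc := nc_of_ne h1 h2 h3 hok hp he he' hdiff
    rw [ho, ho']
    exact hnc.1.mono_right (openSegment_sub _ _)
  · intro x hx
    obtain ⟨v, hv, rfl⟩ := (mem_inst' hM hI).1 hx
    have := hRot _ _ hok p hp v hv
    simp only [recOf, List.map_map, Function.comp_def, posOf_nm]
    exact this
  · rw [drawn_eq hC hC2 hM hI]
    simp only [toInst, posOf_nm]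
    exact hOut _ _ hok p hp

end Pool.Agent.SegDraw
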