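import Pool.Agent.Lib_helper69.Seg.Stmts

/-!
# Module CANON: the combinatorics of the typed graph
-/

set_option autoImplicit false
set_option maxHeartbeats 4000000
set_option linter.unusedSimpArgs false

namespace Pool.Agent.SegDraw

namespace CanonPf

lemma vE_le {R M i r c : ℕ} (h : vE R M i r c) : i ≤ 25 := by
  unfold vE at h
  omega

/-- The three kinds of edges. -/
lemma vE_cases {R M i r c : ℕ} (h : vE R M i r c) :
    (i ≤ 16 ∧ r < R ∧ c < M) ∨ ((i = 17 ∨ i = 18) ∧ r < R ∧ r % 2 = 0 ∧ c = 0) ∨
    ((i = 19 ∨ i = 20 ∨ i = 21 ∨ i = 22 ∨ i = 23 ∨ i = 24 ∨ i = 25) ∧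
      r = R ∧ c < M ∧ c % 4 = 0) := by
  unfold vE at h
  omega

lemma edge_in {R M : ℕ} (ho : OK R M) {i r c : ℕ} (h : vE R M i r c) :
    inV R M (eL i r c) ∧ inV R M (eR i r c) := by
  obtain ⟨h1, h2, h3, h4⟩ := ho
  rcases vE_cases h with ⟨hi, hr, hc⟩ | ⟨hi, hr, hr', hc⟩ | ⟨hi, hr, hc, hc'⟩
  · clear h
    interval_cases i <;> simp only [eL, eR, inV, true_and, and_true] <;> constructor <;> omega
  · clear h
    rcases hi with rfl | rfl <;> simp only [eL, eR, inV, true_and, and_true] <;>
      constructor <;> omega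
  · clear h
    rcases hi with rfl | rfl | rfl | rfl | rfl | rfl | rfl <;>
      simp only [eL, eR, inV, true_and, and_true] <;> constructor <;> omega

lemma edge_LR {R M : ℕ} (ho : OK R M) {i r c : ℕ} (h : vE R M i r c) :
    eR i r c ∈ nbr R M (eL i r c) := by
  obtain ⟨h1, h2, h3, h4⟩ := ho
  rcases vE_cases h with ⟨hi, hr, hc⟩ | ⟨hi, hr, hr', hc⟩ | ⟨hi, hr, hc, hc'⟩
  · clear h
    interval_cases i <;> simp only [eL, eR, nbr] <;> (try split_ifs) <;> (first | contradiction | ((simp only [List.mem_cons, Prod.mk.injEq,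
      List.not_mem_nil, or_false, true_and, and_true, true_or, or_true]) <;> omega))
  · clear h
    rcases hi with rfl | rfl <;> simp only [eL, eR, nbr] <;> (try split_ifs) <;> (first | contradiction | ((simp only [List.mem_cons, Prod.mk.injEq,
      List.not_mem_nil, or_false, true_and, and_true, true_or, or_true]) <;> omega))
  · clear h
    rcases hi with rfl | rfl | rfl | rfl | rfl | rfl | rfl <;> simp only [eL, eR, nbr] <;>
    (try split_ifs) <;> (first | contradiction | ((simp only [List.mem_cons, Prod.mk.injEq,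
      List.not_mem_nil, or_false, true_and, and_true, true_or, or_true]) <;> omega))

lemma edge_RL {R M : ℕ} (ho : OK R M) {i r c : ℕ} (h : vE R M i r c) :
    eL i r c ∈ nbr R M (eR i r c) := by
  obtain ⟨h1, h2, h3, h4⟩ := ho
  rcases vE_cases h with ⟨hi, hr, hc⟩ | ⟨hi, hr, hr', hc⟩ | ⟨hi, hr, hc, hc'⟩
  · clear h
    interval_cases i <;> simp only [eL, eR, nbr] <;> (try split_ifs) <;> (first | contradiction | ((simp only [List.mem_cons, Prod.mk.injEq,
      List.not_mem_nil, or_false, true_and, and_true, true_or, or_true]) <;> omega))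
  · clear h
    rcases hi with rfl | rfl <;> simp only [eL, eR, nbr] <;> (try split_ifs) <;> (first | contradiction | ((simp only [List.mem_cons, Prod.mk.injEq,
      List.not_mem_nil, or_false, true_and, and_true, true_or, or_true]) <;> omega))
  · clear h
    rcases hi with rfl | rfl | rfl | rfl | rfl | rfl | rfl <;> simp only [eL, eR, nbr] <;>
    (try split_ifs) <;> (first | contradiction | ((simp only [List.mem_cons, Prod.mk.injEq,
      List.not_mem_nil, or_false, true_and, and_true, true_or, or_true]) <;> omega))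

lemma edge_of {R M : ℕ} (ho : OK R M) {u v : TV} (hu : inV R M u) (hv : v ∈ nbr R M u) :
    ∃ i r c, vE R M i r c ∧ ((u = eL i r c ∧ v = eR i r c) ∨ (u = eR i r c ∧ v = eL i r c)) := by
  obtain ⟨h1, h2, h3, h4⟩ := ho
  obtain ⟨k, r, c⟩ := u
  have hk : k ≤ 20 := by
    unfold inV at hu
    dsimp only at hu
    omega
  have key : (k = 0 ∧ r < R ∧ c ≤ M) ∨ (k = 1 ∧ r ≤ R ∧ c < M) ∨
      (2 ≤ k ∧ k ≤ 14 ∧ r < R ∧ c < M) ∨ (k = 15 ∧ r < R ∧ r % 2 = 0 ∧ c = 0) ∨
      ((k = 16 ∨ k = 17 ∨ k = 18 ∨ k = 19 ∨ k = 20) ∧ r = R ∧ c < M ∧ c % 4 = 0) := by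
    unfold inV at hu
    dsimp only at hu
    omega
  clear hu
  rcases key with ⟨rfl, hr, hc⟩ | ⟨rfl, hr, hc⟩ | ⟨hk1, hk2, hr, hc⟩ | ⟨rfl, hr, hr', rfl⟩ |
    ⟨hk', hr, hc, hc'⟩
  · simp only [nbr] at hv
    split_ifs at hv with h5 h6 h7 <;>
      simp only [List.mem_cons, List.not_mem_nil, or_false] at hv
    · subst h5
      rcases hv with rfl | rfl | rfl | rfl | rfl
      · exact ⟨0, r, 0, by unfold vE; omega, by simp only [eL, eR, Prod.mk.injEq, true_and, and_true, true_or, or_true] <;> omega⟩
      · exact ⟨1, r, 0, by unfold vE; omega, by simp only [eL, eR, Prod.mk.injEq, true_and, and_true, true_or, or_true] <;> omega⟩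
      · exact ⟨11, r, 0, by unfold vE; omega, by simp only [eL, eR, Prod.mk.injEq, true_and, and_true, true_or, or_true] <;> omega⟩
      · exact ⟨17, r, 0, by unfold vE; omega, by simp only [eL, eR, Prod.mk.injEq, true_and, and_true, true_or, or_true] <;> omega⟩
      · exact ⟨18, r, 0, by unfold vE; omega, by simp only [eL, eR, Prod.mk.injEq, true_and, and_true, true_or, or_true] <;> omega⟩
    · subst h5
      rcases hv with rfl | rfl | rfl | rfl
      · exact ⟨17, (r - 1), 0, by unfold vE; omega, by simp only [eL, eR, Prod.mk.injEq, true_and, and_true, true_or, or_true] <;> omega⟩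
      · exact ⟨0, r, 0, by unfold vE; omega, by simp only [eL, eR, Prod.mk.injEq, true_and, and_true, true_or, or_true] <;> omega⟩
      · exact ⟨1, r, 0, by unfold vE; omega, by simp only [eL, eR, Prod.mk.injEq, true_and, and_true, true_or, or_true] <;> omega⟩
      · exact ⟨11, r, 0, by unfold vE; omega, by simp only [eL, eR, Prod.mk.injEq, true_and, and_true, true_or, or_true] <;> omega⟩
    · subst hv
      exact ⟨10, r, (c - 1), by unfold vE; omega, by simp only [eL, eR, Prod.mk.injEq, true_and, and_true, true_or, or_true] <;> omega⟩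
    · rcases hv with rfl | rfl | rfl | rfl
      · exact ⟨10, r, (c - 1), by unfold vE; omega, by simp only [eL, eR, Prod.mk.injEq, true_and, and_true, true_or, or_true] <;> omega⟩
      · exact ⟨0, r, c, by unfold vE; omega, by simp only [eL, eR, Prod.mk.injEq, true_and, and_true, true_or, or_true] <;> omega⟩
      · exact ⟨1, r, c, by unfold vE; omega, by simp only [eL, eR, Prod.mk.injEq, true_and, and_true, true_or, or_true] <;> omega⟩
      · exact ⟨11, r, c, by unfold vE; omega, by simp only [eL, eR, Prod.mk.injEq, true_and, and_true, true_or, or_true] <;> omega⟩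
  · simp only [nbr] at hv
    split_ifs at hv with h5 h6 h7 h8 h9 <;>
      simp only [List.mem_cons, List.not_mem_nil, or_false] at hv
    · rcases hv with rfl | rfl
      · exact ⟨19, r, c, by unfold vE; omega, by simp only [eL, eR, Prod.mk.injEq, true_and, and_true, true_or, or_true] <;> omega⟩
      · exact ⟨9, (r - 1), c, by unfold vE; omega, by simp only [eL, eR, Prod.mk.injEq, true_and, and_true, true_or, or_true] <;> omega⟩
    · rcases hv with rfl | rfl
      · exact ⟨19, r, (c - 1), by unfold vE; omega, by simp only [eL, eR, Prod.mk.injEq, true_and, and_true, true_or, or_true] <;> omega⟩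
      · exact ⟨9, (r - 1), c, by unfold vE; omega, by simp only [eL, eR, Prod.mk.injEq, true_and, and_true, true_or, or_true] <;> omega⟩
    · rcases hv with rfl | rfl | rfl
      · exact ⟨20, r, (c - 2), by unfold vE; omega, by simp only [eL, eR, Prod.mk.injEq, true_and, and_true, true_or, or_true] <;> omega⟩
      · exact ⟨22, r, (c - 2), by unfold vE; omega, by simp only [eL, eR, Prod.mk.injEq, true_and, and_true, true_or, or_true] <;> omega⟩
      · exact ⟨9, (r - 1), c, by unfold vE; omega, by simp only [eL, eR, Prod.mk.injEq, true_and, and_true, true_or, or_true] <;> omega⟩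
    · rcases hv with rfl | rfl
      · exact ⟨20, r, (c - 3), by unfold vE; omega, by simp only [eL, eR, Prod.mk.injEq, true_and, and_true, true_or, or_true] <;> omega⟩
      · exact ⟨9, (r - 1), c, by unfold vE; omega, by simp only [eL, eR, Prod.mk.injEq, true_and, and_true, true_or, or_true] <;> omega⟩
    · rcases hv with rfl | rfl | rfl
      · exact ⟨12, r, c, by unfold vE; omega, by simp only [eL, eR, Prod.mk.injEq, true_and, and_true, true_or, or_true] <;> omega⟩
      · exact ⟨2, r, c, by unfold vE; omega, by simp only [eL, eR, Prod.mk.injEq, true_and, and_true, true_or, or_true] <;> omega⟩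
      · exact ⟨0, r, c, by unfold vE; omega, by simp only [eL, eR, Prod.mk.injEq, true_and, and_true, true_or, or_true] <;> omega⟩
    · rcases hv with rfl | rfl | rfl | rfl
      · exact ⟨12, r, c, by unfold vE; omega, by simp only [eL, eR, Prod.mk.injEq, true_and, and_true, true_or, or_true] <;> omega⟩
      · exact ⟨2, r, c, by unfold vE; omega, by simp only [eL, eR, Prod.mk.injEq, true_and, and_true, true_or, or_true] <;> omega⟩
      · exact ⟨0, r, c, by unfold vE; omega, by simp only [eL, eR, Prod.mk.injEq, true_and, and_true, true_or, or_true] <;> omega⟩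
      · exact ⟨9, (r - 1), c, by unfold vE; omega, by simp only [eL, eR, Prod.mk.injEq, true_and, and_true, true_or, or_true] <;> omega⟩
  · interval_cases k <;> simp only [nbr, List.mem_cons, List.not_mem_nil, or_false] at hv
    · rcases hv with rfl | rfl
      · exact ⟨1, r, c, by unfold vE; omega, by simp only [eL, eR, Prod.mk.injEq, true_and, and_true, true_or, or_true] <;> omega⟩
      · exact ⟨3, r, c, by unfold vE; omega, by simp only [eL, eR, Prod.mk.injEq, true_and, and_true, true_or, or_true] <;> omega⟩
    · rcases hv with rfl | rfl | rfl | rfl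
      · exact ⟨4, r, c, by unfold vE; omega, by simp only [eL, eR, Prod.mk.injEq, true_and, and_true, true_or, or_true] <;> omega⟩
      · exact ⟨6, r, c, by unfold vE; omega, by simp only [eL, eR, Prod.mk.injEq, true_and, and_true, true_or, or_true] <;> omega⟩
      · exact ⟨5, r, c, by unfold vE; omega, by simp only [eL, eR, Prod.mk.injEq, true_and, and_true, true_or, or_true] <;> omega⟩
      · exact ⟨3, r, c, by unfold vE; omega, by simp only [eL, eR, Prod.mk.injEq, true_and, and_true, true_or, or_true] <;> omega⟩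
    · rcases hv with rfl | rfl
      · exact ⟨2, r, c, by unfold vE; omega, by simp only [eL, eR, Prod.mk.injEq, true_and, and_true, true_or, or_true] <;> omega⟩
      · exact ⟨4, r, c, by unfold vE; omega, by simp only [eL, eR, Prod.mk.injEq, true_and, and_true, true_or, or_true] <;> omega⟩
    · rcases hv with rfl | rfl
      · exact ⟨5, r, c, by unfold vE; omega, by simp only [eL, eR, Prod.mk.injEq, true_and, and_true, true_or, or_true] <;> omega⟩
      · exact ⟨7, r, c, by unfold vE; omega, by simp only [eL, eR, Prod.mk.injEq, true_and, and_true, true_or, or_true] <;> omega⟩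
    · rcases hv with rfl | rfl
      · exact ⟨6, r, c, by unfold vE; omega, by simp only [eL, eR, Prod.mk.injEq, true_and, and_true, true_or, or_true] <;> omega⟩
      · exact ⟨8, r, c, by unfold vE; omega, by simp only [eL, eR, Prod.mk.injEq, true_and, and_true, true_or, or_true] <;> omega⟩
    · rcases hv with rfl | rfl | rfl | rfl
      · exact ⟨7, r, c, by unfold vE; omega, by simp only [eL, eR, Prod.mk.injEq, true_and, and_true, true_or, or_true] <;> omega⟩
      · exact ⟨13, r, c, by unfold vE; omega, by simp only [eL, eR, Prod.mk.injEq, true_and, and_true, true_or, or_true] <;> omega⟩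
      · exact ⟨14, r, c, by unfold vE; omega, by simp only [eL, eR, Prod.mk.injEq, true_and, and_true, true_or, or_true] <;> omega⟩
      · exact ⟨9, r, c, by unfold vE; omega, by simp only [eL, eR, Prod.mk.injEq, true_and, and_true, true_or, or_true] <;> omega⟩
    · rcases hv with rfl | rfl | rfl | rfl
      · exact ⟨10, r, c, by unfold vE; omega, by simp only [eL, eR, Prod.mk.injEq, true_and, and_true, true_or, or_true] <;> omega⟩
      · exact ⟨16, r, c, by unfold vE; omega, by simp only [eL, eR, Prod.mk.injEq, true_and, and_true, true_or, or_true] <;> omega⟩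
      · exact ⟨15, r, c, by unfold vE; omega, by simp only [eL, eR, Prod.mk.injEq, true_and, and_true, true_or, or_true] <;> omega⟩
      · exact ⟨8, r, c, by unfold vE; omega, by simp only [eL, eR, Prod.mk.injEq, true_and, and_true, true_or, or_true] <;> omega⟩
    · subst hv; exact ⟨11, r, c, by unfold vE; omega, by simp only [eL, eR, Prod.mk.injEq, true_and, and_true, true_or, or_true] <;> omega⟩
    · subst hv; exact ⟨12, r, c, by unfold vE; omega, by simp only [eL, eR, Prod.mk.injEq, true_and, and_true, true_or, or_true] <;> omega⟩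
    · subst hv; exact ⟨13, r, c, by unfold vE; omega, by simp only [eL, eR, Prod.mk.injEq, true_and, and_true, true_or, or_true] <;> omega⟩
    · subst hv; exact ⟨14, r, c, by unfold vE; omega, by simp only [eL, eR, Prod.mk.injEq, true_and, and_true, true_or, or_true] <;> omega⟩
    · subst hv; exact ⟨15, r, c, by unfold vE; omega, by simp only [eL, eR, Prod.mk.injEq, true_and, and_true, true_or, or_true] <;> omega⟩
    · subst hv; exact ⟨16, r, c, by unfold vE; omega, by simp only [eL, eR, Prod.mk.injEq, true_and, and_true, true_or, or_true] <;> omega⟩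
  · simp only [nbr, List.mem_cons, List.not_mem_nil, or_false] at hv
    subst hv
    exact ⟨18, r, 0, by unfold vE; omega, by simp only [eL, eR, Prod.mk.injEq, true_and, and_true, true_or, or_true] <;> omega⟩
  · rcases hk' with rfl | rfl | rfl | rfl | rfl <;>
      simp only [nbr, List.mem_cons, List.not_mem_nil, or_false] at hv
    · subst hv; exact ⟨23, r, c, by unfold vE; omega, by simp only [eL, eR, Prod.mk.injEq, true_and, and_true, true_or, or_true] <;> omega⟩
    · subst hv; exact ⟨24, r, c, by unfold vE; omega, by simp only [eL, eR, Prod.mk.injEq, true_and, and_true, true_or, or_true] <;> omega⟩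
    · rcases hv with rfl | rfl | rfl
      · exact ⟨23, r, c, by unfold vE; omega, by simp only [eL, eR, Prod.mk.injEq, true_and, and_true, true_or, or_true] <;> omega⟩
      · exact ⟨25, r, c, by unfold vE; omega, by simp only [eL, eR, Prod.mk.injEq, true_and, and_true, true_or, or_true] <;> omega⟩
      · exact ⟨24, r, c, by unfold vE; omega, by simp only [eL, eR, Prod.mk.injEq, true_and, and_true, true_or, or_true] <;> omega⟩
    · rcases hv with rfl | rfl
      · exact ⟨21, r, c, by unfold vE; omega, by simp only [eL, eR, Prod.mk.injEq, true_and, and_true, true_or, or_true] <;> omega⟩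
      · exact ⟨22, r, c, by unfold vE; omega, by simp only [eL, eR, Prod.mk.injEq, true_and, and_true, true_or, or_true] <;> omega⟩
    · rcases hv with rfl | rfl
      · exact ⟨21, r, c, by unfold vE; omega, by simp only [eL, eR, Prod.mk.injEq, true_and, and_true, true_or, or_true] <;> omega⟩
      · exact ⟨25, r, c, by unfold vE; omega, by simp only [eL, eR, Prod.mk.injEq, true_and, and_true, true_or, or_true] <;> omega⟩

lemma types_eL (i r c : ℕ) : (eL i r c).1 = (eL i 0 0).1 := by
  unfold eL
  split <;> rfl

lemma types_eR (i r c : ℕ) : (eR i r c).1 = (eR i 0 0).1 := by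
  unfold eR
  split <;> rfl

lemma types_inj' : ∀ i j : Fin 26,
    ((eL i 0 0).1 = (eL j 0 0).1 ∧ (eR i 0 0).1 = (eR j 0 0).1) ∨
    ((eL i 0 0).1 = (eR j 0 0).1 ∧ (eR i 0 0).1 = (eL j 0 0).1) →
    (i : ℕ) = j ∨ (((i : ℕ) = 19 ∨ (i : ℕ) = 20) ∧ ((j : ℕ) = 19 ∨ (j : ℕ) = 20)) := by
  decide

lemma types_inj (i : ℕ) (hi : i < 26) (j : ℕ) (hj : j < 26)
    (h : ((eL i 0 0).1 = (eL j 0 0).1 ∧ (eR i 0 0).1 = (eR j 0 0).1) ∨
      ((eL i 0 0).1 = (eR j 0 0).1 ∧ (eR i 0 0).1 = (eL j 0 0).1)) :
    i = j ∨ ((i = 19 ∨ i = 20) ∧ (j = 19 ∨ j = 20)) :=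
  types_inj' ⟨i, hi⟩ ⟨j, hj⟩ h

end CanonPf

open CanonPf

/-- CANON: every adjacency is a canonical edge. -/
theorem canon : SCanon := by
  intro R M ho u v hu hv
  obtain ⟨i, r, c, he, h⟩ := edge_of ho hu hv
  have h1 := edge_in ho he
  have h2 := edge_LR ho he
  have h3 := edge_RL ho he
  rcases h with ⟨rfl, rfl⟩ | ⟨rfl, rfl⟩
  · exact ⟨h1.2, h3, i, r, c, he, Or.inl ⟨rfl, rfl⟩⟩
  · exact ⟨h1.1, h2, i, r, c, he, Or.inr ⟨rfl, rfl⟩⟩

/-- CANON: and conversely. -/
theorem canon2 : SCanon' := by
  intro R M ho i r c he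
  exact ⟨(edge_in ho he).1, (edge_in ho he).2, edge_LR ho he⟩

/-- CANON: a canonical edge is determined by its endpoints. -/
theorem canonInj : SCanonInj := by
  intro R M ho i r c i' r' c' he he' h
  have hi := vE_le he
  have hi' := vE_le he'
  have key : i = i' ∨ ((i = 19 ∨ i = 20) ∧ (i' = 19 ∨ i' = 20)) := by
    refine types_inj i (by omega) i' (by omega) ?_
    rw [← types_eL i r c, ← types_eR i r c, ← types_eL i' r' c', ← types_eR i' r' c']
    rcases h with ⟨h1, h2⟩ | ⟨h1, h2⟩
    · exact Or.inl ⟨congrArg Prod.fst h1, congrArg Prod.fst h2⟩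
    · exact Or.inr ⟨congrArg Prod.fst h1, congrArg Prod.fst h2⟩
  rcases key with rfl | ⟨h1, h2⟩
  · refine ⟨rfl, ?_⟩
    unfold vE at he he'
    interval_cases i <;> simp only [eL, eR, Prod.mk.injEq, true_and, and_true] at h <;> omega
  · unfold vE at he he'
    rcases h1 with rfl | rfl <;> rcases h2 with rfl | rfl <;>
      simp only [eL, eR, Prod.mk.injEq, true_and, and_true] at h <;> omega

/-- NBR: neighbour lists have no repetitions and no loops. -/
theorem nbrOk : SNbr := by
  intro R M ho u hu
  obtain ⟨h1, h2, h3, h4⟩ := ho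
  obtain ⟨k, r, c⟩ := u
  have hk : k ≤ 20 := by
    unfold inV at hu
    dsimp only at hu
    omega
  clear hu
  interval_cases k <;> simp only [nbr] <;> (try split_ifs) <;>
    simp only [List.nodup_cons, List.mem_cons, Prod.mk.injEq, List.not_mem_nil, or_false,
      true_and, and_true, not_false_eq_true, List.nodup_nil] <;> omega

end Pool.Agent.SegDraw
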