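import Pool.Agent.Lib_helper69.Seg.Problem

/-!
# Drawing a plane graph on assigned segments: the construction

Vertex types: 0 X, 1 Y, 2 P, 3 S, 4 Q, 5 Z1, 6 Z2, 7 T1, 8 T2, 9 F1, 10 F2, 11 G1, 12 H1, 13 G2,
14 H2, 15 E, 16 W, 17 W', 18 V, 19 GA, 20 GB. A vertex is a triple `(k, r, c)`: type, row, bus.
`R = 2 * N` rows, `M = 4 * m` buses. All heights are shifted by 1, columns by `80 * R + 120`.
-/

set_option autoImplicit false

namespace Pool.Agent.SegDraw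

open Pool.Agent.Poly

/-- A bus: initial value `-1` (`true`) or `0`, and the list of rows which it collects. -/
abbrev Bus : Type := Bool × List ℕ

/-- Normal form instance: number of variables, number of tests, buses. -/
abbrev NF : Type := ℕ × ℕ × List Bus

/-- The bus `c`. -/
def busOf (I : NF) (c : ℕ) : Bus := I.2.2.getD c (false, [])

/-- Does bus `c` collect row `r`? -/
def isAdd (I : NF) (r c : ℕ) : Bool := decide (r ∈ (busOf I c).2)

/-- Number of rows. -/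
def nR (I : NF) : ℕ := 2 * I.1

/-- Number of buses. -/
def nM (I : NF) : ℕ := 4 * I.2.1

/-- Legal normal form instances. -/
def NFok (I : NF) : Prop := 1 ≤ I.1 ∧ 1 ≤ I.2.1 ∧ ∀ c, (busOf I c).2.length ≤ 3

/-- Value of a row. -/
def rowVal (y : ℕ → ℝ) (r : ℕ) : ℝ := if r % 2 = 0 then y (r / 2) else 1 - y (r / 2)

/-- Value of a bus after `r` rows. -/
noncomputable def busVal (I : NF) (y : ℕ → ℝ) (c r : ℕ) : ℝ :=
  (if (busOf I c).1 then -1 else 0) +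
    ∑ r' ∈ Finset.range r, if isAdd I r' c then rowVal y r' else 0

/-- The test of the buses `4 j, ..., 4 j + 3` at parameters `X < X'`, with threshold `ω`. -/
def testAt (A B C D X X' ω : ℝ) : Prop :=
  X < X' ∧ (1 - X) * A + X * B < ω ∧ (1 - X') * C + X' * D < ω

/-- Strong satisfaction. -/
def NFsat (I : NF) : Prop :=
  ∃ y : ℕ → ℝ, (∀ i, 0 < y i ∧ y i < 1) ∧ ∀ j < I.2.1, ∃ X X' : ℝ, 0 < X ∧ X' < 1 ∧
    testAt (busVal I y (4 * j) (nR I)) (busVal I y (4 * j + 1) (nR I))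
      (busVal I y (4 * j + 2) (nR I)) (busVal I y (4 * j + 3) (nR I)) X X' 1

/-- Weak satisfaction. -/
def NFweak (I : NF) : Prop :=
  ∃ y : ℕ → ℝ, ∀ j < I.2.1, ∃ X X' : ℝ, 0 ≤ X ∧ X' ≤ 1 ∧
    testAt (busVal I y (4 * j) (nR I)) (busVal I y (4 * j + 1) (nR I))
      (busVal I y (4 * j + 2) (nR I)) (busVal I y (4 * j + 3) (nR I)) X X' 1

/-! ### Vertices -/

/-- A typed vertex: type, row, bus. -/
abbrev TV : Type := ℕ × ℕ × ℕ

/-- The name of a vertex. -/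
def nm (v : TV) : ℕ := Nat.pair v.1 (Nat.pair v.2.1 v.2.2)

/-- The typed vertex of a name. -/
def tv (n : ℕ) : TV := (n.unpair.1, n.unpair.2.unpair)

/-- The typed vertices of the graph. -/
def inV (R M : ℕ) (v : TV) : Prop :=
  (v.1 = 0 ∧ v.2.1 < R ∧ v.2.2 ≤ M) ∨ (v.1 = 1 ∧ v.2.1 ≤ R ∧ v.2.2 < M) ∨
  (2 ≤ v.1 ∧ v.1 ≤ 14 ∧ v.2.1 < R ∧ v.2.2 < M) ∨
  (v.1 = 15 ∧ v.2.1 < R ∧ v.2.1 % 2 = 0 ∧ v.2.2 = 0) ∨
  (16 ≤ v.1 ∧ v.1 ≤ 20 ∧ v.2.1 = R ∧ v.2.2 < M ∧ v.2.2 % 4 = 0)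

/-- Neighbours in counterclockwise order. -/
def nbr (R M : ℕ) : TV → List TV
  | (0, r, c) =>
    if c = 0 then
      if r % 2 = 0 then [(1, r, 0), (2, r, 0), (9, r, 0), (0, r + 1, 0), (15, r, 0)]
      else [(0, r - 1, 0), (1, r, 0), (2, r, 0), (9, r, 0)]
    else if c = M then [(8, r, c - 1)]
    else [(8, r, c - 1), (1, r, c), (2, r, c), (9, r, c)]
  | (1, r, c) =>
    if r = R then
      if c % 4 = 0 then [(1, r, c + 1), (7, r - 1, c)]
      else if c % 4 = 1 then [(1, r, c - 1), (7, r - 1, c)]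
      else if c % 4 = 2 then [(1, r, c + 1), (19, r, c - 2), (7, r - 1, c)]
      else [(1, r, c - 1), (7, r - 1, c)]
    else if r = 0 then [(10, r, c), (4, r, c), (0, r, c)]
    else [(10, r, c), (4, r, c), (0, r, c), (7, r - 1, c)]
  | (2, r, c) => [(0, r, c), (3, r, c)]
  | (3, r, c) => [(4, r, c), (6, r, c), (5, r, c), (2, r, c)]
  | (4, r, c) => [(1, r, c), (3, r, c)]
  | (5, r, c) => [(3, r, c), (7, r, c)]
  | (6, r, c) => [(3, r, c), (8, r, c)]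
  | (7, r, c) => [(5, r, c), (11, r, c), (12, r, c), (1, r + 1, c)]
  | (8, r, c) => [(0, r, c + 1), (14, r, c), (13, r, c), (6, r, c)]
  | (9, r, c) => [(0, r, c)]
  | (10, r, c) => [(1, r, c)]
  | (11, r, c) => [(7, r, c)]
  | (12, r, c) => [(7, r, c)]
  | (13, r, c) => [(8, r, c)]
  | (14, r, c) => [(8, r, c)]
  | (15, r, _) => [(0, r, 0)]
  | (16, r, c) => [(18, r, c)]
  | (17, r, c) => [(18, r, c)]
  | (18, r, c) => [(16, r, c), (20, r, c), (17, r, c)]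
  | (19, r, c) => [(20, r, c), (1, r, c + 2)]
  | (20, r, c) => [(19, r, c), (18, r, c)]
  | _ => []

/-- Column constants of the types `0, ..., 15`. -/
def cx : ℕ → ℕ
  | 0 => 80 | 1 => 160 | 2 => 60 | 3 => 120 | 4 => 180 | 5 => 105 | 6 => 135 | 7 => 66 | 8 => 174
  | 9 => 72 | 10 => 168 | 11 => 92 | 12 => 72 | 13 => 148 | 14 => 168 | _ => 40

/-- Lower heights of the types `0, ..., 15`. -/
def lo : ℕ → ℕ
  | 0 => 1 | 1 => 0 | 2 => 99 | 3 => 0 | 4 => 96 | 5 => 25 | 6 => 25 | 7 => 119 | 8 => 119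
  | 9 => 41 | 10 => 41 | 11 => 58 | 12 => 140 | 13 => 58 | 14 => 140 | _ => 83

/-- Upper heights of the types `0, ..., 15`. -/
def hi : ℕ → ℕ
  | 0 => 2 | 1 => 4 | 2 => 102 | 3 => 4 | 4 => 103 | 5 => 28 | 6 => 28 | 7 => 123 | 8 => 123
  | 9 => 41 | 10 => 41 | 11 => 58 | 12 => 140 | 13 => 58 | 14 => 140 | _ => 83

/-- A closed segment with natural coordinates. -/
def sg (a b a' b' : ℕ) : Seg := ((((a : ℚ), (b : ℚ)), ((a' : ℚ), (b' : ℚ))), true)

/-- The vertical segment of a vertex of type `0, ..., 15` with heights from `l` to `u`. -/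
def vseg (R : ℕ) (v : TV) (l u : ℕ) : Seg :=
  sg (80 * v.2.2 + 80 * (R - v.2.1) + cx v.1) (163 * (v.2.2 + v.2.1) + l)
    (80 * v.2.2 + 80 * (R - v.2.1) + cx v.1) (163 * (v.2.2 + v.2.1) + u)

/-- The segment of a vertex. -/
def segOf (I : NF) (v : TV) : Seg :=
  if v.1 = 1 ∧ v.2.1 = 0 then
    vseg (nR I) v (if (busOf I v.2.2).1 then 0 else 1) (if (busOf I v.2.2).1 then 0 else 1)
  else if v.1 = 2 then
    vseg (nR I) v (if isAdd I v.2.1 v.2.2 then 101 else 99)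
      (if isAdd I v.2.1 v.2.2 then 101 else 102)
  else if v.1 ≤ 15 then vseg (nR I) v (lo v.1) (hi v.1)
  else if v.1 = 16 then
    sg (80 * v.2.2 + 160) (163 * (v.2.2 + nR I) + 2) (80 * v.2.2 + 240) (163 * (v.2.2 + nR I) + 165)
  else if v.1 = 17 then
    sg (80 * v.2.2 + 320) (163 * (v.2.2 + nR I) + 328) (80 * v.2.2 + 400)
      (163 * (v.2.2 + nR I) + 491)
  else if v.1 = 18 then
    sg (80 * v.2.2 + 240) (163 * (v.2.2 + nR I) + 173) (80 * v.2.2 + 320)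
      (163 * (v.2.2 + nR I) + 336)
  else if v.1 = 19 then
    sg (80 * v.2.2 + 240) (163 * (v.2.2 + nR I) + 169) (80 * v.2.2 + 240)
      (163 * (v.2.2 + nR I) + 169)
  else
    sg (80 * v.2.2 + 320) (163 * (v.2.2 + nR I) + 332) (80 * v.2.2 + 320)
      (163 * (v.2.2 + nR I) + 332)

/-- The record of a vertex. -/
def recOf (I : NF) (v : TV) : VRec := (nm v, segOf I v, (nbr (nR I) (nM I) v).map nm)

/-- The typed vertices in a list. -/
def vlist (I : NF) : List TV :=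
  ((List.range I.1).flatMap fun i => [(0, 2 * i, 0), (0, 2 * i + 1, 0), (15, 2 * i, 0)]) ++
  (((List.range (nR I)).flatMap fun r => (List.range (nM I)).flatMap fun c =>
    [(0, r, c + 1), (1, r, c), (2, r, c), (3, r, c), (4, r, c), (5, r, c), (6, r, c), (7, r, c),
      (8, r, c), (9, r, c), (10, r, c), (11, r, c), (12, r, c), (13, r, c), (14, r, c)]) ++
  ((List.range I.2.1).flatMap fun j =>
    [(1, nR I, 4 * j), (1, nR I, 4 * j + 1), (1, nR I, 4 * j + 2), (1, nR I, 4 * j + 3),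
      (16, nR I, 4 * j), (17, nR I, 4 * j), (18, nR I, 4 * j), (19, nR I, 4 * j),
      (20, nR I, 4 * j)]))

/-- The drawing instance of a normal form instance. -/
def toInst (I : NF) : Inst := ((vlist I).map (recOf I), (nm (0, 0, 0), nm (1, 0, 0)))

/-! ### Good parameters and the drawing they define -/

/-- Real parameters of a drawing: `h v` is the height of the vertex `v` of type at most 15 relative
to `163 * (c + r)`; `w`, `w'`, `u` are the offsets of the columns of `W`, `W'`, `V` from the column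
of the port `A`; `ω` is the height of `W` and `W'` above the line of ports. -/
structure Par where
  h : TV → ℝ
  w : ℕ → ℝ
  w' : ℕ → ℝ
  u : ℕ → ℝ
  ω : ℝ

/-- The position of a typed vertex. -/
noncomputable def posT (R : ℕ) (p : Par) (v : TV) : ℝ × ℝ :=
  if v.1 ≤ 15 then
    (80 * (v.2.2 : ℝ) + 80 * ((R : ℝ) - v.2.1) + cx v.1, 163 * ((v.2.2 : ℝ) + v.2.1) + p.h v)
  else if v.1 = 16 then
    (80 * (v.2.2 : ℝ) + 160 + p.w v.2.2, 163 * ((v.2.2 : ℝ) + R) + 1 + 163 / 80 * p.w v.2.2 + p.ω)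
  else if v.1 = 17 then
    (80 * (v.2.2 : ℝ) + 160 + p.w' v.2.2,
      163 * ((v.2.2 : ℝ) + R) + 1 + 163 / 80 * p.w' v.2.2 + p.ω)
  else if v.1 = 18 then
    (80 * (v.2.2 : ℝ) + 160 + p.u v.2.2, 163 * ((v.2.2 : ℝ) + R) + 1 + 163 / 80 * p.u v.2.2 + 9)
  else if v.1 = 19 then
    (80 * (v.2.2 : ℝ) + 160 + 80, 163 * ((v.2.2 : ℝ) + R) + 1 + 163 + 5)
  else (80 * (v.2.2 : ℝ) + 160 + 160, 163 * ((v.2.2 : ℝ) + R) + 1 + 326 + 5)

/-- The position of a named vertex. -/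
noncomputable def posOf (R : ℕ) (p : Par) (n : ℕ) : ℝ × ℝ := posT R p (tv n)

/-- The inequalities between the parameters which make the drawing crossing-free. -/
structure Good (R M : ℕ) (p : Par) : Prop where
  range : ∀ v : TV, v.1 ≤ 15 → inV R M v → (lo v.1 : ℝ) ≤ p.h v ∧ p.h v ≤ hi v.1
  rS : ∀ r c, r < R → c < M → p.h (0, r, c) + p.h (1, r, c) < 2 * p.h (3, r, c)
  rP : ∀ r c, r < R → c < M → 205 < 2 * p.h (2, r, c) + 3 * p.h (0, r, c)
  rQ : ∀ r c, r < R → c < M → 205 < 2 * p.h (4, r, c) + 3 * p.h (1, r, c)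
  rZ1 : ∀ r c, r < R → c < M → 3 * p.h (3, r, c) + p.h (2, r, c) < 4 * p.h (5, r, c)
  rZ2 : ∀ r c, r < R → c < M → 3 * p.h (3, r, c) + p.h (4, r, c) < 4 * p.h (6, r, c)
  rG1 : ∀ r c, r < R → c < M → p.h (7, r, c) + 2 * p.h (5, r, c) < 174
  rG2 : ∀ r c, r < R → c < M → p.h (8, r, c) + 2 * p.h (6, r, c) < 174
  rH1 : ∀ r c, r < R → c < M → 980 < 3 * (163 + p.h (1, r + 1, c)) + 4 * p.h (7, r, c)
  rH2 : ∀ r c, r < R → c < M → 980 < 3 * (163 + p.h (0, r, c + 1)) + 4 * p.h (8, r, c)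
  rE : ∀ r, r < R → r % 2 = 0 → 3 < p.h (0, r, 0) + p.h (0, r + 1, 0)
  om : 1 ≤ p.ω ∧ p.ω ≤ 4
  rw : ∀ c, c < M → c % 4 = 0 → 0 < p.w c ∧ p.w c < 80
  rw' : ∀ c, c < M → c % 4 = 0 → 160 < p.w' c ∧ p.w' c < 240
  ru : ∀ c, c < M → c % 4 = 0 → 80 < p.u c ∧ p.u c < 160
  wu : ∀ c, c < M → c % 4 = 0 → p.w c + p.u c < 160
  uw : ∀ c, c < M → c % 4 = 0 → 320 < p.u c + p.w' c
  tA : ∀ c, c < M → c % 4 = 0 →
    (80 - p.w c) * (p.h (1, R, c) - 1) + p.w c * (p.h (1, R, c + 1) - 1) < 80 * p.ω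
  tC : ∀ c, c < M → c % 4 = 0 →
    (240 - p.w' c) * (p.h (1, R, c + 2) - 1) + (p.w' c - 160) * (p.h (1, R, c + 3) - 1)
      < 80 * p.ω

end Pool.Agent.SegDraw
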