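import Pool.Agent.Lib_helper69.Seg.Asm
import Pool.Agent.Lib_helper79.Poly.Basic

/-!
# Drawing a plane graph on assigned segments: assembly
-/

set_option autoImplicit false

namespace Pool.Agent.SegDraw

open Pool.Agent.Poly

lemma rowVal_lt {y : ℕ → ℝ} (hy : ∀ i, 0 < y i ∧ y i < 1) (r : ℕ) :
    0 < rowVal y r ∧ rowVal y r < 1 := by
  unfold rowVal
  split_ifs
  · exact hy _
  · have := hy (r / 2)
    constructor <;> linarith [this.1, this.2]

lemma busVal_lt {I : NF} (hI : NFok I) {y : ℕ → ℝ} (hy : ∀ i, 0 < y i ∧ y i < 1) (c : ℕ) :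
    busVal I y c (nR I) ≤ 3 := by
  unfold busVal
  have h1 : (if (busOf I c).1 then (-1 : ℝ) else 0) ≤ 0 := by split_ifs <;> norm_num
  have h2 : ∑ r' ∈ Finset.range (nR I), (if isAdd I r' c then rowVal y r' else 0) ≤ 3 := by
    rw [← Finset.sum_filter]
    have hsub : (Finset.range (nR I)).filter (fun r => isAdd I r c = true) ⊆
        (busOf I c).2.toFinset := by
      intro r hr
      simp only [Finset.mem_filter, isAdd, decide_eq_true_eq] at hr
      simpa using hr.2
    have hcard : ((Finset.range (nR I)).filter (fun r => isAdd I r c = true)).card ≤ 3 :=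
      (Finset.card_le_card hsub).trans ((List.toFinset_card_le _).trans (hI.2.2 c))
    calc _ ≤ ∑ _r ∈ (Finset.range (nR I)).filter (fun r => isAdd I r c = true), (1 : ℝ) :=
          Finset.sum_le_sum fun r _ => (rowVal_lt hy r).2.le
      _ = (((Finset.range (nR I)).filter (fun r => isAdd I r c = true)).card : ℝ) := by simp
      _ ≤ 3 := by exact_mod_cast hcard
  linarith

theorem assemble (hM : SMem) (hPar : SPar) (hDraw : SDraw) (hGraph : SGraph) (hSound : SSound)
    (hPoly : SPoly) (h1 : SStr1) (h2 : SStr2) (h3 : SStr3) : SFinal := by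
  refine ⟨fun a => toInst (toNF a), PolyTime.comp hPoly h3, fun a => ⟨⟨⟨hGraph _ (h1 a).1, ?_⟩, ?_⟩, ?_, ?_⟩⟩
  · obtain ⟨p, hp, -, -⟩ := hPar (toNF a) (h1 a).1 (fun _ => 1 / 2)
      (fun i => by norm_num) 4 (by norm_num) (by
        intro j hj
        have b := fun c => busVal_lt (h1 a).1 (y := fun _ => 1 / 2) (fun i => by norm_num) c
        refine ⟨1 / 3, 2 / 3, by norm_num, by norm_num, by norm_num, ?_, ?_⟩
        · have := b (4 * j)
          have := b (4 * j + 1)
          linarith
        · have := b (4 * j + 2)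
          have := b (4 * j + 3)
          linarith)
    exact ⟨_, hDraw _ (h1 a).1 p hp⟩
  · intro x hx
    simp only [toInst, List.mem_map] at hx
    obtain ⟨v, -, rfl⟩ := hx
    simp only [recOf, segOf, vseg, sg]
    split_ifs <;> rfl
  · intro ha
    obtain ⟨y, hy, ht⟩ := (h1 a).2 ha
    obtain ⟨p, hp, -, hseg⟩ := hPar (toNF a) (h1 a).1 y hy 1 (by norm_num) ht
    refine ⟨posOf (nR (toNF a)) p, hDraw _ (h1 a).1 p hp, ?_⟩
    intro x hx
    obtain ⟨v, hv, rfl⟩ := (Asm.mem_inst' hM (h1 a).1).1 hx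
    have := hseg v hv (fun _ => rfl)
    simpa only [recOf, Asm.posOf_nm] using this
  · intro hd
    exact h2 a (hSound _ (h1 a).1 hd)

end Pool.Agent.SegDraw
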