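import Pool.Agent.Lib_helper69.Seg.Stmts

/-!
# Drawing a plane graph on assigned segments: INJ and OUT (Lean: helper86)
-/

set_option autoImplicit false

namespace Pool.Agent.SegDraw

open Pool.Agent.Poly Filter Topology

namespace InjOutAux

lemma cxd : ∀ k < 16, 40 ≤ cx k ∧ cx k ≤ 180 := by decide
lemma hid : ∀ k < 16, hi k ≤ 140 := by decide
lemma typ : ∀ k < 16, ∀ k' < 16, cx k = cx k' → lo k ≤ hi k' → lo k' ≤ hi k → k = k' := by decide
lemma below : ∀ k < 16, 80 * hi k < 160 + 163 * cx k := by decide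

lemma posT_low (R : ℕ) (p : Par) (k r c : ℕ) (h : k ≤ 15) : posT R p (k, r, c) =
    (80 * (c : ℝ) + 80 * ((R : ℝ) - r) + cx k, 163 * ((c : ℝ) + r) + p.h (k, r, c)) := by
  simp [posT, h]

lemma inV_low {R M k r c : ℕ} (h : k ≤ 15) (hv : inV R M (k, r, c)) : r ≤ R ∧ (r = R → k = 1) := by
  simp only [inV] at hv
  omega

lemma inV_high {R M k r c : ℕ} (h : ¬ k ≤ 15) (hv : inV R M (k, r, c)) :
    16 ≤ k ∧ k ≤ 20 ∧ r = R ∧ c < M ∧ c % 4 = 0 := by
  simp only [inV] at hv
  omega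

/-- A vertex of a test: offset `ξ` from the column of the port, height `η` above the line. -/
lemma posT_high {R M : ℕ} {p : Par} (hp : Good R M p) {k r c : ℕ} (h : ¬ k ≤ 15)
    (hv : inV R M (k, r, c)) : ∃ ξ η : ℝ,
    posT R p (k, r, c) = (80 * (c : ℝ) + 160 + ξ, 163 * ((c : ℝ) + R) + 1 + 163 / 80 * ξ + η) ∧
    1 ≤ η ∧
    ((k = 16 ∧ 0 < ξ ∧ ξ < 80) ∨ (k = 17 ∧ 160 < ξ ∧ ξ < 240) ∨ (k = 18 ∧ 80 < ξ ∧ ξ < 160) ∨
      (k = 19 ∧ ξ = 80 ∧ η = 5) ∨ (k = 20 ∧ ξ = 160 ∧ η = 5)) := by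
  obtain ⟨h1, h2, h3, h4, h5⟩ := inV_high h hv
  have hk : k = 16 ∨ k = 17 ∨ k = 18 ∨ k = 19 ∨ k = 20 := by omega
  rcases hk with rfl | rfl | rfl | rfl | rfl
  · refine ⟨p.w c, p.ω, by simp [posT], hp.om.1, ?_⟩
    have := hp.rw c h4 h5
    left; exact ⟨rfl, this.1, this.2⟩
  · refine ⟨p.w' c, p.ω, by simp [posT], hp.om.1, ?_⟩
    have := hp.rw' c h4 h5
    right; left; exact ⟨rfl, this.1, this.2⟩
  · refine ⟨p.u c, 9, by simp [posT], by norm_num, ?_⟩
    have := hp.ru c h4 h5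
    right; right; left; exact ⟨rfl, this.1, this.2⟩
  · refine ⟨80, 5, ?_, by norm_num, ?_⟩
    · simp [posT]
    · simp
  · refine ⟨160, 5, ?_, by norm_num, ?_⟩
    · simp [posT]; ring
    · simp

/-- mixed case -/
lemma mixed {R M : ℕ} {p : Par} (hp : Good R M p) {k r c k' r' c' : ℕ} (h : k ≤ 15)
    (h' : ¬ k' ≤ 15) (hv : inV R M (k, r, c)) (hv' : inV R M (k', r', c')) :
    posT R p (k, r, c) ≠ posT R p (k', r', c') := by
  intro he
  obtain ⟨ξ, η, hpos, hη, hcase⟩ := posT_high hp h' hv'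
  rw [posT_low R p k r c h, hpos, Prod.mk.injEq] at he
  obtain ⟨hx, hy⟩ := he
  obtain ⟨hlo, hhi⟩ := hp.range (k, r, c) h hv
  simp only at hlo hhi
  obtain ⟨hrR, hR⟩ := inV_low h hv
  rcases Nat.lt_or_ge r R with hlt | hge
  · have hb : (80 : ℝ) * hi k < 160 + 163 * cx k := by exact_mod_cast below k (by omega)
    have hr : (r : ℝ) + 1 ≤ R := by exact_mod_cast hlt
    nlinarith
  · have hrR' : r = R := le_antisymm hrR hge
    have hk1 := hR hrR'
    subst hk1
    subst hrR'
    have hhi' : p.h (1, r, c) ≤ 4 := by simpa [hi] using hhi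
    have hcx : (cx 1 : ℝ) = 160 := by norm_num [cx]
    rw [hcx] at hx
    have hξ : ξ = 80 * ((c : ℝ) - c') := by linarith
    have key : ∀ n : ℤ, ξ = 80 * (n : ℝ) → n = (c : ℤ) - c' := by
      intro n hn
      have : (n : ℝ) = (((c : ℤ) - c' : ℤ) : ℝ) := by push_cast; linarith
      exact_mod_cast this
    rcases hcase with ⟨-, ha, hb⟩ | ⟨-, ha, hb⟩ | ⟨-, ha, hb⟩ | ⟨-, ha, hb⟩ | ⟨-, ha, hb⟩
    · rw [hξ] at ha hb
      have h1 : (0 : ℝ) < ((c : ℤ) - (c' : ℤ) : ℤ) := by push_cast; linarith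
      have h2 : (((c : ℤ) - (c' : ℤ) : ℤ) : ℝ) < 1 := by push_cast; linarith
      have h1' : (0 : ℤ) < (c : ℤ) - c' := by exact_mod_cast h1
      have h2' : (c : ℤ) - c' < 1 := by exact_mod_cast h2
      omega
    · rw [hξ] at ha hb
      have h1 : (2 : ℝ) < ((c : ℤ) - (c' : ℤ) : ℤ) := by push_cast; linarith
      have h2 : (((c : ℤ) - (c' : ℤ) : ℤ) : ℝ) < 3 := by push_cast; linarith
      have h1' : (2 : ℤ) < (c : ℤ) - c' := by exact_mod_cast h1
      have h2' : (c : ℤ) - c' < 3 := by exact_mod_cast h2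
      omega
    · rw [hξ] at ha hb
      have h1 : (1 : ℝ) < ((c : ℤ) - (c' : ℤ) : ℤ) := by push_cast; linarith
      have h2 : (((c : ℤ) - (c' : ℤ) : ℤ) : ℝ) < 2 := by push_cast; linarith
      have h1' : (1 : ℤ) < (c : ℤ) - c' := by exact_mod_cast h1
      have h2' : (c : ℤ) - c' < 2 := by exact_mod_cast h2
      omega
    · subst hb; nlinarith
    · subst hb; nlinarith

end InjOutAux

open InjOutAux

theorem inj : SInj := by
  intro R M hOK p hp u v hu hv he
  obtain ⟨k, r, c⟩ := u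
  obtain ⟨k', r', c'⟩ := v
  by_cases hk : k ≤ 15
  · by_cases hk' : k' ≤ 15
    · rw [posT_low R p k r c hk, posT_low R p k' r' c' hk', Prod.mk.injEq] at he
      obtain ⟨hx, hy⟩ := he
      obtain ⟨hlo, hhi⟩ := hp.range (k, r, c) hk hu
      obtain ⟨hlo', hhi'⟩ := hp.range (k', r', c') hk' hv
      simp only at hlo hhi hlo' hhi'
      have b1 : (hi k : ℝ) ≤ 140 := by exact_mod_cast hid k (by omega)
      have b2 : (hi k' : ℝ) ≤ 140 := by exact_mod_cast hid k' (by omega)
      have b3 : (0 : ℝ) ≤ lo k := by positivity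
      have b4 : (0 : ℝ) ≤ lo k' := by positivity
      obtain ⟨c1, c2⟩ := cxd k (by omega)
      obtain ⟨c3, c4⟩ := cxd k' (by omega)
      -- sums
      have hs : (c : ℤ) + r = (c' : ℤ) + r' := by
        have h1 : (((c : ℤ) + r - ((c' : ℤ) + r') : ℤ) : ℝ) < 1 := by push_cast; linarith
        have h2 : (-1 : ℝ) < (((c : ℤ) + r - ((c' : ℤ) + r') : ℤ) : ℝ) := by push_cast; linarith
        have h1' : (c : ℤ) + r - ((c' : ℤ) + r') < 1 := by exact_mod_cast h1
        have h2' : -1 < (c : ℤ) + r - ((c' : ℤ) + r') := by exact_mod_cast h2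
        omega
      have hx' : 80 * (c : ℤ) - 80 * r + cx k = 80 * (c' : ℤ) - 80 * r' + cx k' := by
        have : ((80 * (c : ℤ) - 80 * r + cx k : ℤ) : ℝ) = ((80 * (c' : ℤ) - 80 * r' + cx k' : ℤ) : ℝ) := by
          push_cast; linarith
        exact_mod_cast this
      have hc : c = c' := by omega
      have hr : r = r' := by omega
      subst hc; subst hr
      have hcx : cx k = cx k' := by omega
      have hh : p.h (k, r, c) = p.h (k', r, c) := by linarith
      have l1 : lo k ≤ hi k' := by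
        have : (lo k : ℝ) ≤ hi k' := by linarith
        exact_mod_cast this
      have l2 : lo k' ≤ hi k := by
        have : (lo k' : ℝ) ≤ hi k := by linarith
        exact_mod_cast this
      rw [typ k (by omega) k' (by omega) hcx l1 l2]
    · exact absurd he (mixed hp hk hk' hu hv)
  · by_cases hk' : k' ≤ 15
    · exact absurd he.symm (mixed hp hk' hk hv hu)
    · obtain ⟨ξ, η, hpos, hη, hcase⟩ := posT_high hp hk hu
      obtain ⟨ξ', η', hpos', hη', hcase'⟩ := posT_high hp hk' hv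
      obtain ⟨-, -, hr, hc, hc4⟩ := inV_high hk hu
      obtain ⟨-, -, hr', hc', hc4'⟩ := inV_high hk' hv
      rw [hpos, hpos', Prod.mk.injEq] at he
      obtain ⟨hx, -⟩ := he
      have x1 : 0 < ξ ∧ ξ < 240 := by
        rcases hcase with ⟨-, h1, h2⟩ | ⟨-, h1, h2⟩ | ⟨-, h1, h2⟩ | ⟨-, h1, h2⟩ | ⟨-, h1, h2⟩ <;>
          constructor <;> linarith
      have x2 : 0 < ξ' ∧ ξ' < 240 := by
        rcases hcase' with ⟨-, h1, h2⟩ | ⟨-, h1, h2⟩ | ⟨-, h1, h2⟩ | ⟨-, h1, h2⟩ | ⟨-, h1, h2⟩ <;>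
          constructor <;> linarith
      have hcc : c = c' := by
        have h1 : (((c : ℤ) - (c' : ℤ) : ℤ) : ℝ) < 3 := by push_cast; linarith
        have h2 : (-3 : ℝ) < (((c : ℤ) - (c' : ℤ) : ℤ) : ℝ) := by push_cast; linarith
        have h1' : (c : ℤ) - c' < 3 := by exact_mod_cast h1
        have h2' : -3 < (c : ℤ) - c' := by exact_mod_cast h2
        omega
      subst hcc
      have hξ : ξ = ξ' := by linarith
      subst hξ
      have hkk : k = k' := by
        rcases hcase with ⟨e1, h1, h2⟩ | ⟨e1, h1, h2⟩ | ⟨e1, h1, h2⟩ | ⟨e1, h1, h2⟩ | ⟨e1, h1, h2⟩ <;>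
        rcases hcase' with ⟨e2, g1, g2⟩ | ⟨e2, g1, g2⟩ | ⟨e2, g1, g2⟩ | ⟨e2, g1, g2⟩ | ⟨e2, g1, g2⟩ <;>
        first
          | (exfalso; linarith)
          | (rw [e1, e2])
      rw [hkk, hr, hr']

namespace InjOutAux

lemma seg_cases {A B z : ℝ × ℝ} (hz : z ∈ segment ℝ A B) : ∃ a b : ℝ, 0 ≤ a ∧ 0 ≤ b ∧ a + b = 1 ∧
    z.1 = a * A.1 + b * B.1 ∧ z.2 = a * A.2 + b * B.2 := by
  obtain ⟨a, b, ha, hb, hab, rfl⟩ := hz
  exact ⟨a, b, ha, hb, hab, by simp, by simp⟩

lemma seg_snd_ge {A B z : ℝ × ℝ} (hz : z ∈ segment ℝ A B) {t : ℝ} (hA : t ≤ A.2) (hB : t ≤ B.2) :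
    t ≤ z.2 := by
  obtain ⟨a, b, ha, hb, hab, -, h2⟩ := seg_cases hz
  rw [h2]
  have e1 := mul_le_mul_of_nonneg_left hA ha
  have e2 := mul_le_mul_of_nonneg_left hB hb
  have ht : a * t + b * t = t := by rw [← add_mul, hab, one_mul]
  linarith

lemma seg_fst_ne {A B z : ℝ × ℝ} (hz : z ∈ segment ℝ A B) {t : ℝ}
    (h : (A.1 < t ∧ B.1 < t) ∨ (t < A.1 ∧ t < B.1)) : z.1 ≠ t := by
  obtain ⟨a, b, ha, hb, hab, h1, -⟩ := seg_cases hz
  rw [h1]
  have ht : a * t + b * t = t := by rw [← add_mul, hab, one_mul]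
  rcases h with ⟨h, h'⟩ | ⟨h, h'⟩
  · apply ne_of_lt
    rcases ha.eq_or_lt with h0 | h0
    · have hb1 : b = 1 := by linarith
      rw [← h0, hb1]; linarith
    · have e1 := mul_lt_mul_of_pos_left h h0
      have e2 := mul_le_mul_of_nonneg_left h'.le hb
      linarith
  · apply ne_of_gt
    rcases ha.eq_or_lt with h0 | h0
    · have hb1 : b = 1 := by linarith
      rw [← h0, hb1]; linarith
    · have e1 := mul_lt_mul_of_pos_left h h0
      have e2 := mul_le_mul_of_nonneg_left h'.le hb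
      linarith

/-- a segment with exactly one endpoint in the column `t` -/
lemma seg_fst_eq_left {A B z : ℝ × ℝ} (hz : z ∈ segment ℝ A B) {t : ℝ} (hA : A.1 = t)
    (hB : B.1 ≠ t) (h : z.1 = t) : z.2 = A.2 := by
  obtain ⟨a, b, ha, hb, hab, h1, h2⟩ := seg_cases hz
  have : b * (B.1 - t) = 0 := by rw [h1, hA] at h; have : a = 1 - b := by linarith
                                 rw [this] at h; linarith
  rcases mul_eq_zero.mp this with h0 | h0
  · have : a = 1 := by linarith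
    rw [h2, h0, this]; ring
  · exact absurd (sub_eq_zero.mp h0) hB

lemma seg_fst_eq_right {A B z : ℝ × ℝ} (hz : z ∈ segment ℝ A B) {t : ℝ} (hA : A.1 ≠ t)
    (hB : B.1 = t) (h : z.1 = t) : z.2 = B.2 :=
  seg_fst_eq_left (by rwa [segment_symm]) hB hA h

/-- all vertices outside the first cell are high -/
lemma high {R M : ℕ} {p : Par} (hp : Good R M p) (hR : 0 < R) {k r c : ℕ}
    (hv : inV R M (k, r, c)) (hrc : 0 < r + c) : 163 ≤ (posT R p (k, r, c)).2 := by
  by_cases hk : k ≤ 15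
  · rw [posT_low R p k r c hk]
    obtain ⟨hlo, -⟩ := hp.range (k, r, c) hk hv
    simp only at hlo
    have b3 : (0 : ℝ) ≤ lo k := by positivity
    have : (1 : ℝ) ≤ (c : ℝ) + r := by
      have : 1 ≤ c + r := by omega
      exact_mod_cast this
    simp only
    linarith
  · obtain ⟨ξ, η, hpos, hη, hcase⟩ := posT_high hp hk hv
    have x1 : 0 < ξ := by
      rcases hcase with ⟨-, h1, h2⟩ | ⟨-, h1, h2⟩ | ⟨-, h1, h2⟩ | ⟨-, h1, h2⟩ | ⟨-, h1, h2⟩ <;>
        linarith
    rw [hpos]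
    have : (1 : ℝ) ≤ R := by exact_mod_cast hR
    have hc0 : (0 : ℝ) ≤ c := by positivity
    simp only
    linarith

lemma ends {R M i r c : ℕ} (h : OK R M) (hE : vE R M i r c) :
    inV R M (eL i r c) ∧ inV R M (eR i r c) := by
  obtain ⟨h1, h2, h3, h4⟩ := h
  have hi : i ≤ 25 := by simp only [vE] at hE; omega
  interval_cases i <;> simp [vE] at hE <;> simp [eL, eR, inV] <;> omega

lemma ends_high {R M : ℕ} {p : Par} (hp : Good R M p) {i r c : ℕ} (h : OK R M)
    (hE : vE R M i r c) (hrc : 0 < r + c) :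
    163 ≤ (posT R p (eL i r c)).2 ∧ 163 ≤ (posT R p (eR i r c)).2 := by
  obtain ⟨e1, e2⟩ := ends h hE
  have hR : 0 < R := h.2.1
  have hi : i ≤ 25 := by simp only [vE] at hE; omega
  interval_cases i <;> simp only [eL, eR] at e1 e2 ⊢ <;>
    exact ⟨high hp hR e1 (by omega), high hp hR e2 (by omega)⟩

end InjOutAux

open InjOutAux in
theorem out : SOut := by
  intro R M hOK p hp
  obtain ⟨hR2, hR, hM4, hM⟩ := hOK
  have hX : inV R M (0, 0, 0) := by simp [inV, hR]
  have hY : inV R M (1, 0, 0) := by simp [inV, hM]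
  have hS : inV R M (3, 0, 0) := by simp [inV, hM, hR]
  obtain ⟨x1, x2⟩ := hp.range (0, 0, 0) (by norm_num) hX
  obtain ⟨y1, y2⟩ := hp.range (1, 0, 0) (by norm_num) hY
  simp only [lo, hi] at x1 x2 y1 y2
  push_cast at x1 x2 y1 y2
  have hrS := hp.rS 0 0 hR hM
  set h0 := p.h (0, 0, 0) with hh0
  set h1 := p.h (1, 0, 0) with hh1
  set m := (h0 + h1) / 2 with hm
  set t0 : ℝ := 80 * (R : ℝ) + 120 with ht0
  have pX : posT R p (0, 0, 0) = (80 * (R : ℝ) + 80, h0) := by
    rw [posT_low R p 0 0 0 (by norm_num)]; simp [cx, hh0]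
  have pY : posT R p (1, 0, 0) = (80 * (R : ℝ) + 160, h1) := by
    rw [posT_low R p 1 0 0 (by norm_num)]; simp [cx, hh1]
  refine ⟨fun t => (t0, m - t), by fun_prop, ?_, ?_, ?_, ?_⟩
  · rw [pX, pY, openSegment_eq_image]
    refine ⟨1 / 2, by norm_num, ?_⟩
    simp only [Prod.smul_mk, Prod.mk_add_mk, smul_eq_mul, Prod.mk.injEq]
    constructor
    · rw [ht0]; ring
    · rw [hm]; ring
  · filter_upwards [self_mem_nhdsWithin] with t ht
    have ht' : (0 : ℝ) < t := ht
    rw [pX, pY]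
    simp only [det, Prod.fst_sub, Prod.snd_sub]
    rw [ht0, hm]
    nlinarith
  · intro t ht
    rintro ⟨i, r, c, hE, hz⟩
    set z : ℝ × ℝ := (t0, m - t) with hzdef
    have hz1 : z.1 = t0 := rfl
    have hz2 : z.2 < m := by simp only [hzdef]; linarith
    rcases Nat.eq_zero_or_pos (r + c) with hrc | hrc
    · have hr0 : r = 0 := by omega
      have hc0 : c = 0 := by omega
      subst hr0; subst hc0
      have hi : i ≤ 18 := by simp only [vE] at hE; omega
      have pS : posT R p (3, 0, 0) = (80 * (R : ℝ) + 120, p.h (3, 0, 0)) := by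
        rw [posT_low R p 3 0 0 (by norm_num)]; simp [cx]
      have e3 : (posT R p (3, 0, 0)).1 = t0 := by rw [pS]
      have e3' : (posT R p (3, 0, 0)).2 = p.h (3, 0, 0) := by rw [pS]
      have f0 : ∀ k ≤ 15, (posT R p (k, 0, 0)).1 = 80 * (R : ℝ) + cx k := by
        intro k hk
        rw [posT_low R p k 0 0 hk]; simp
      interval_cases i
      · -- edge 0
        simp only [eL, eR] at hz
        obtain ⟨a, b, ha, hb, hab, q1, q2⟩ := seg_cases hz
        rw [hz1, pX, pY] at q1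
        rw [pX, pY] at q2
        simp only at q1 q2
        have hbb : b = 1 / 2 := by
          have : a = 1 - b := by linarith
          rw [this, ht0] at q1
          linarith
        have haa : a = 1 / 2 := by linarith
        rw [haa, hbb, hm] at q2
        linarith
      · exact seg_fst_ne hz (Or.inl ⟨by simp only [eL]; rw [f0 _ (by norm_num)]; norm_num [cx, ht0],
          by simp only [eR]; rw [f0 _ (by norm_num)]; norm_num [cx, ht0]⟩) hz1
      · exact seg_fst_ne hz (Or.inr ⟨by simp only [eL]; rw [f0 _ (by norm_num)]; norm_num [cx, ht0],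
          by simp only [eR]; rw [f0 _ (by norm_num)]; norm_num [cx, ht0]⟩) hz1
      · have := seg_fst_eq_right hz (by simp only [eL]; rw [f0 _ (by norm_num)]; norm_num [cx, ht0])
          (by simp only [eR]; exact e3) hz1
        simp only [eR] at this
        rw [e3'] at this
        linarith
      · have := seg_fst_eq_left hz (by simp only [eL]; exact e3)
          (by simp only [eR]; rw [f0 _ (by norm_num)]; norm_num [cx, ht0]) hz1
        simp only [eL] at this
        rw [e3'] at this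
        linarith
      · have := seg_fst_eq_right hz (by simp only [eL]; rw [f0 _ (by norm_num)]; norm_num [cx, ht0])
          (by simp only [eR]; exact e3) hz1
        simp only [eR] at this
        rw [e3'] at this
        linarith
      · have := seg_fst_eq_left hz (by simp only [eL]; exact e3)
          (by simp only [eR]; rw [f0 _ (by norm_num)]; norm_num [cx, ht0]) hz1
        simp only [eL] at this
        rw [e3'] at this
        linarith
      · exact seg_fst_ne hz (Or.inl ⟨by simp only [eL]; rw [f0 _ (by norm_num)]; norm_num [cx, ht0],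
          by simp only [eR]; rw [f0 _ (by norm_num)]; norm_num [cx, ht0]⟩) hz1
      · exact seg_fst_ne hz (Or.inr ⟨by simp only [eL]; rw [f0 _ (by norm_num)]; norm_num [cx, ht0],
          by simp only [eR]; rw [f0 _ (by norm_num)]; norm_num [cx, ht0]⟩) hz1
      · exact seg_fst_ne hz (Or.inl ⟨by simp only [eL]; rw [f0 _ (by norm_num)]; norm_num [cx, ht0],
          by simp only [eR]; rw [posT_low R p _ _ _ (by norm_num)]; simp [cx, ht0]; linarith⟩) hz1
      · exact seg_fst_ne hz (Or.inr ⟨by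
            simp only [eL]; rw [posT_low R p _ _ _ (by norm_num)]; simp [cx, ht0]; linarith,
          by simp only [eR]; rw [f0 _ (by norm_num)]; norm_num [cx, ht0]⟩) hz1
      · exact seg_fst_ne hz (Or.inl ⟨by simp only [eL]; rw [f0 _ (by norm_num)]; norm_num [cx, ht0],
          by simp only [eR]; rw [f0 _ (by norm_num)]; norm_num [cx, ht0]⟩) hz1
      · exact seg_fst_ne hz (Or.inr ⟨by simp only [eL]; rw [f0 _ (by norm_num)]; norm_num [cx, ht0],
          by simp only [eR]; rw [f0 _ (by norm_num)]; norm_num [cx, ht0]⟩) hz1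
      · exact seg_fst_ne hz (Or.inl ⟨by simp only [eL]; rw [f0 _ (by norm_num)]; norm_num [cx, ht0],
          by simp only [eR]; rw [f0 _ (by norm_num)]; norm_num [cx, ht0]⟩) hz1
      · exact seg_fst_ne hz (Or.inl ⟨by simp only [eL]; rw [f0 _ (by norm_num)]; norm_num [cx, ht0],
          by simp only [eR]; rw [f0 _ (by norm_num)]; norm_num [cx, ht0]⟩) hz1
      · exact seg_fst_ne hz (Or.inr ⟨by simp only [eL]; rw [f0 _ (by norm_num)]; norm_num [cx, ht0],
          by simp only [eR]; rw [f0 _ (by norm_num)]; norm_num [cx, ht0]⟩) hz1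
      · exact seg_fst_ne hz (Or.inr ⟨by simp only [eL]; rw [f0 _ (by norm_num)]; norm_num [cx, ht0],
          by simp only [eR]; rw [f0 _ (by norm_num)]; norm_num [cx, ht0]⟩) hz1
      · exact seg_fst_ne hz (Or.inl ⟨by
            simp only [eL]; rw [posT_low R p _ _ _ (by norm_num)]; simp [cx, ht0]; linarith,
          by simp only [eR]; rw [f0 _ (by norm_num)]; norm_num [cx, ht0]⟩) hz1
      · exact seg_fst_ne hz (Or.inl ⟨by simp only [eL]; rw [f0 _ (by norm_num)]; norm_num [cx, ht0],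
          by simp only [eR]; rw [f0 _ (by norm_num)]; norm_num [cx, ht0]⟩) hz1
    · obtain ⟨g1, g2⟩ := ends_high hp ⟨hR2, hR, hM4, hM⟩ hE hrc
      have := seg_snd_ge hz g1 g2
      linarith
  · have h1 : ∀ t : ℝ, t - m ≤ ‖((t0, m - t) : ℝ × ℝ)‖ := by
      intro t
      have : ‖((t0, m - t) : ℝ × ℝ).2‖ ≤ ‖((t0, m - t) : ℝ × ℝ)‖ := norm_snd_le _
      have h2 : t - m ≤ ‖m - t‖ := by
        rw [Real.norm_eq_abs]
        have := neg_abs_le (m - t)
        linarith
      exact h2.trans this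
    exact tendsto_atTop_mono h1 (tendsto_atTop_add_const_right _ _ tendsto_id)

end Pool.Agent.SegDraw
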