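import Pool.Agent.Lib_helper69.Seg.Stmts

/-!
# Drawing a plane graph on assigned segments: the list of vertices, connectedness
-/

set_option autoImplicit false

namespace Pool.Agent.SegDraw

open Pool.Agent.Poly

/-! ### The list of the vertices -/

/-- The vertices listed for the cell `(r, c)`. -/
def cellL (r c : ℕ) : List TV :=
  [(0, r, c + 1), (1, r, c), (2, r, c), (3, r, c), (4, r, c), (5, r, c), (6, r, c), (7, r, c),
    (8, r, c), (9, r, c), (10, r, c), (11, r, c), (12, r, c), (13, r, c), (14, r, c)]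

/-- The vertices listed for the rows `2 i` and `2 i + 1`. -/
def rowL (i : ℕ) : List TV := [(0, 2 * i, 0), (0, 2 * i + 1, 0), (15, 2 * i, 0)]

/-- The vertices listed for the test `j`. -/
def testL (R j : ℕ) : List TV :=
  [(1, R, 4 * j), (1, R, 4 * j + 1), (1, R, 4 * j + 2), (1, R, 4 * j + 3),
      (16, R, 4 * j), (17, R, 4 * j), (18, R, 4 * j), (19, R, 4 * j), (20, R, 4 * j)]

theorem vlist_eq (I : NF) : vlist I = (List.range I.1).flatMap rowL ++
    (((List.range (nR I)).flatMap fun r => (List.range (nM I)).flatMap fun c => cellL r c) ++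
      (List.range I.2.1).flatMap fun j => testL (nR I) j) := rfl

theorem mem_cellL (r c k r' c' : ℕ) : (k, r', c') ∈ cellL r c ↔
    r' = r ∧ ((k = 0 ∧ c' = c + 1) ∨ (1 ≤ k ∧ k ≤ 14 ∧ c' = c)) := by
  constructor
  · intro h
    simp only [cellL, List.mem_cons, Prod.mk.injEq, List.not_mem_nil, or_false] at h
    rcases h with h | h | h | h | h | h | h | h | h | h | h | h | h | h | h <;>
      (obtain ⟨rfl, rfl, rfl⟩ := h; omega)
  · rintro ⟨rfl, ⟨rfl, rfl⟩ | ⟨h1, h2, rfl⟩⟩
    · simp [cellL]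
    · interval_cases k <;> simp [cellL]

theorem mem_rowL (i k r' c' : ℕ) : (k, r', c') ∈ rowL i ↔
    c' = 0 ∧ ((k = 0 ∧ (r' = 2 * i ∨ r' = 2 * i + 1)) ∨ (k = 15 ∧ r' = 2 * i)) := by
  simp only [rowL, List.mem_cons, Prod.mk.injEq, List.not_mem_nil, or_false]
  omega

theorem mem_testL (R j k r' c' : ℕ) : (k, r', c') ∈ testL R j ↔
    r' = R ∧ ((k = 1 ∧ 4 * j ≤ c' ∧ c' < 4 * j + 4) ∨ (16 ≤ k ∧ k ≤ 20 ∧ c' = 4 * j)) := by
  constructor
  · intro h
    simp only [testL, List.mem_cons, Prod.mk.injEq, List.not_mem_nil, or_false] at h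
    rcases h with h | h | h | h | h | h | h | h | h <;>
      (obtain ⟨rfl, rfl, rfl⟩ := h; omega)
  · rintro ⟨rfl, ⟨rfl, h1, h2⟩ | ⟨h1, h2, rfl⟩⟩
    · have : c' = 4 * j ∨ c' = 4 * j + 1 ∨ c' = 4 * j + 2 ∨ c' = 4 * j + 3 := by omega
      rcases this with rfl | rfl | rfl | rfl <;> simp [testL]
    · interval_cases k <;> simp [testL]

theorem mem_vlist (I : NF) (v : TV) : v ∈ vlist I ↔ inV (nR I) (nM I) v := by
  rw [vlist_eq]
  obtain ⟨N, m, B⟩ := I
  obtain ⟨k, r, c⟩ := v
  simp only [inV, nR, nM, List.mem_append, List.mem_flatMap, List.mem_range, mem_rowL, mem_cellL,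
    mem_testL]
  constructor
  · rintro (⟨i, hi, h⟩ | ⟨r', hr', c', hc', h⟩ | ⟨j, hj, h⟩)
    · omega
    · omega
    · omega
  · intro h
    by_cases h0 : k = 0 ∧ c = 0
    · left
      refine ⟨r / 2, by omega, by omega⟩
    by_cases h15 : k = 15
    · left
      refine ⟨r / 2, by omega, by omega⟩
    by_cases hr : r < 2 * N
    · right; left
      by_cases hk : k = 0
      · exact ⟨r, hr, c - 1, by omega, by omega⟩
      · exact ⟨r, hr, c, by omega, by omega⟩
    · right; right
      exact ⟨c / 4, by omega, by omega⟩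

theorem nodup_cellL (r c : ℕ) : (cellL r c).Nodup := by simp [cellL]

theorem nodup_rowL (i : ℕ) : (rowL i).Nodup := by simp [rowL]

theorem nodup_testL (R j : ℕ) : (testL R j).Nodup := by simp [testL]

theorem nodup_vlist (I : NF) : (vlist I).Nodup := by
  rw [vlist_eq]
  obtain ⟨N, m, B⟩ := I
  simp only [nR, nM]
  rw [List.nodup_append, List.nodup_append]
  refine ⟨?_, ⟨?_, ?_, ?_⟩, ?_⟩
  · rw [List.nodup_flatMap]
    refine ⟨fun i _ => nodup_rowL i, ?_⟩
    refine List.pairwise_lt_range.imp ?_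
    intro i j hij
    simp only [Function.onFun, List.disjoint_left]
    rintro ⟨k, r, c⟩
    simp only [mem_rowL]
    omega
  · rw [List.nodup_flatMap]
    constructor
    · intro r _
      rw [List.nodup_flatMap]
      refine ⟨fun c _ => nodup_cellL r c, ?_⟩
      refine List.pairwise_lt_range.imp ?_
      intro i j hij
      simp only [Function.onFun, List.disjoint_left]
      rintro ⟨k, r', c'⟩
      simp only [mem_cellL]
      omega
    · refine List.pairwise_lt_range.imp ?_
      intro i j hij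
      simp only [Function.onFun, List.disjoint_left, List.mem_flatMap, List.mem_range]
      rintro ⟨k, r', c'⟩
      simp only [mem_cellL]
      rintro ⟨a, ha, h1⟩ ⟨b, hb, h2⟩
      omega
  · rw [List.nodup_flatMap]
    refine ⟨fun i _ => nodup_testL _ i, ?_⟩
    refine List.pairwise_lt_range.imp ?_
    intro i j hij
    simp only [Function.onFun, List.disjoint_left]
    rintro ⟨k, r, c⟩
    simp only [mem_testL]
    omega
  · simp only [List.mem_flatMap, List.mem_range]
    rintro ⟨k, r, c⟩ ⟨r1, hr1, c1, hc1, h1⟩ ⟨k', r', c'⟩ ⟨j, hj, h2⟩ h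
    rw [mem_cellL] at h1
    rw [mem_testL] at h2
    simp only [Prod.mk.injEq] at h
    omega
  · simp only [List.mem_append, List.mem_flatMap, List.mem_range]
    rintro ⟨k, r, c⟩ ⟨i, hi, h1⟩ ⟨k', r', c'⟩ (⟨r1, hr1, c1, hc1, h2⟩ | ⟨j, hj, h2⟩) h
    · rw [mem_rowL] at h1
      rw [mem_cellL] at h2
      simp only [Prod.mk.injEq] at h
      omega
    · rw [mem_rowL] at h1
      rw [mem_testL] at h2
      simp only [Prod.mk.injEq] at h
      omega

theorem mem : SMem := fun I _ => ⟨mem_vlist I, nodup_vlist I⟩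

/-! ### Connectedness -/

theorem nbr_X (R M r c : ℕ) (hc : c < M) : (1, r, c) ∈ nbr R M (0, r, c) ∧
    (2, r, c) ∈ nbr R M (0, r, c) ∧ (9, r, c) ∈ nbr R M (0, r, c) := by
  by_cases h0 : c = 0
  · subst h0
    by_cases h2 : r % 2 = 0 <;> simp [nbr, h2]
  · have h3 : c ≠ M := by omega
    simp [nbr, h0, h3]

theorem nbr_Y (R M r c : ℕ) (hr : r < R) : (10, r, c) ∈ nbr R M (1, r, c) ∧
    (0, r, c) ∈ nbr R M (1, r, c) := by
  have h3 : r ≠ R := by omega
  by_cases h0 : r = 0
  · subst h0
    simp [nbr, h3]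
  · simp [nbr, h0, h3]

theorem conn : SConn := by
  intro R M hOK u hu
  obtain ⟨hR2, hR0, hM4, hM0⟩ := hOK
  set Rch : TV → Prop := fun v =>
    Relation.ReflTransGen (fun a b => inV R M a ∧ b ∈ nbr R M a) (0, 0, 0) v with hRch
  have step : ∀ a b : TV, Rch a → inV R M a → b ∈ nbr R M a → Rch b := fun a b h1 h2 h3 =>
    Relation.ReflTransGen.tail h1 ⟨h2, h3⟩
  -- a whole cell is reached from its `X`
  have hY : ∀ r c, r < R → c < M → Rch (0, r, c) → Rch (1, r, c) := fun r c hr hc h =>
    step _ _ h (by simp only [inV, true_and]; omega) (nbr_X R M r c hc).1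
  have hP : ∀ r c, r < R → c < M → Rch (0, r, c) → Rch (2, r, c) := fun r c hr hc h =>
    step _ _ h (by simp only [inV, true_and]; omega) (nbr_X R M r c hc).2.1
  have hF1 : ∀ r c, r < R → c < M → Rch (0, r, c) → Rch (9, r, c) := fun r c hr hc h =>
    step _ _ h (by simp only [inV, true_and]; omega) (nbr_X R M r c hc).2.2
  have hS : ∀ r c, r < R → c < M → Rch (0, r, c) → Rch (3, r, c) := fun r c hr hc h =>
    step _ _ (hP r c hr hc h) (by simp only [inV, true_and]; omega) (by simp [nbr])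
  have hQ : ∀ r c, r < R → c < M → Rch (0, r, c) → Rch (4, r, c) := fun r c hr hc h =>
    step _ _ (hS r c hr hc h) (by simp only [inV, true_and]; omega) (by simp [nbr])
  have hZ1 : ∀ r c, r < R → c < M → Rch (0, r, c) → Rch (5, r, c) := fun r c hr hc h =>
    step _ _ (hS r c hr hc h) (by simp only [inV, true_and]; omega) (by simp [nbr])
  have hZ2 : ∀ r c, r < R → c < M → Rch (0, r, c) → Rch (6, r, c) := fun r c hr hc h =>
    step _ _ (hS r c hr hc h) (by simp only [inV, true_and]; omega) (by simp [nbr])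
  have hT1 : ∀ r c, r < R → c < M → Rch (0, r, c) → Rch (7, r, c) := fun r c hr hc h =>
    step _ _ (hZ1 r c hr hc h) (by simp only [inV, true_and]; omega) (by simp [nbr])
  have hT2 : ∀ r c, r < R → c < M → Rch (0, r, c) → Rch (8, r, c) := fun r c hr hc h =>
    step _ _ (hZ2 r c hr hc h) (by simp only [inV, true_and]; omega) (by simp [nbr])
  have hF2 : ∀ r c, r < R → c < M → Rch (0, r, c) → Rch (10, r, c) := fun r c hr hc h =>
    step _ _ (hY r c hr hc h) (by simp only [inV, true_and]; omega) (nbr_Y R M r c hr).1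
  have hG1 : ∀ r c, r < R → c < M → Rch (0, r, c) → Rch (11, r, c) := fun r c hr hc h =>
    step _ _ (hT1 r c hr hc h) (by simp only [inV, true_and]; omega) (by simp [nbr])
  have hH1 : ∀ r c, r < R → c < M → Rch (0, r, c) → Rch (12, r, c) := fun r c hr hc h =>
    step _ _ (hT1 r c hr hc h) (by simp only [inV, true_and]; omega) (by simp [nbr])
  have hY' : ∀ r c, r < R → c < M → Rch (0, r, c) → Rch (1, r + 1, c) := fun r c hr hc h =>
    step _ _ (hT1 r c hr hc h) (by simp only [inV, true_and]; omega) (by simp [nbr])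
  have hG2 : ∀ r c, r < R → c < M → Rch (0, r, c) → Rch (13, r, c) := fun r c hr hc h =>
    step _ _ (hT2 r c hr hc h) (by simp only [inV, true_and]; omega) (by simp [nbr])
  have hH2 : ∀ r c, r < R → c < M → Rch (0, r, c) → Rch (14, r, c) := fun r c hr hc h =>
    step _ _ (hT2 r c hr hc h) (by simp only [inV, true_and]; omega) (by simp [nbr])
  have hX' : ∀ r c, r < R → c < M → Rch (0, r, c) → Rch (0, r, c + 1) := fun r c hr hc h =>
    step _ _ (hT2 r c hr hc h) (by simp only [inV, true_and]; omega) (by simp [nbr])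
  -- the first column
  have hX0 : ∀ r, r < R → Rch (0, r, 0) := by
    intro r
    induction r with
    | zero => intro _; exact Relation.ReflTransGen.refl
    | succ r ih =>
      intro hr
      exact step (1, r + 1, 0) _ (hY' r 0 (by omega) hM0 (ih (by omega)))
        (by simp only [inV, true_and]; omega) (nbr_Y R M (r + 1) 0 hr).2
  have hX : ∀ r, r < R → ∀ c, c ≤ M → Rch (0, r, c) := by
    intro r hr c
    induction c with
    | zero => intro _; exact hX0 r hr
    | succ c ih =>
      intro hc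
      exact hX' r c hr (by omega) (ih (by omega))
  have hYR : ∀ c, c < M → Rch (1, R, c) := by
    intro c hc
    have h := hY' (R - 1) c (by omega) hc (hX _ (by omega) c hc.le)
    rwa [show R - 1 + 1 = R by omega] at h
  have hGA : ∀ c, c < M → c % 4 = 0 → Rch (19, R, c) := by
    intro c hc hc4
    refine step (1, R, c + 2) _ (hYR _ (by omega)) (by simp only [inV, true_and]; omega) ?_
    have h1 : (c + 2) % 4 = 2 := by omega
    simp [nbr, h1]
  have hGB : ∀ c, c < M → c % 4 = 0 → Rch (20, R, c) := fun c hc hc4 =>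
    step _ _ (hGA c hc hc4) (by simp only [inV, true_and]; omega) (by simp [nbr])
  have hV : ∀ c, c < M → c % 4 = 0 → Rch (18, R, c) := fun c hc hc4 =>
    step _ _ (hGB c hc hc4) (by simp only [inV, true_and]; omega) (by simp [nbr])
  have hW : ∀ c, c < M → c % 4 = 0 → Rch (16, R, c) := fun c hc hc4 =>
    step _ _ (hV c hc hc4) (by simp only [inV, true_and]; omega) (by simp [nbr])
  have hW' : ∀ c, c < M → c % 4 = 0 → Rch (17, R, c) := fun c hc hc4 =>
    step _ _ (hV c hc hc4) (by simp only [inV, true_and]; omega) (by simp [nbr])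
  have hE : ∀ r, r < R → r % 2 = 0 → Rch (15, r, 0) := fun r hr hr2 =>
    step (0, r, 0) _ (hX0 r hr) (by simp only [inV, true_and]; omega) (by simp [nbr, hr2])
  obtain ⟨k, r, c⟩ := u
  show Rch (k, r, c)
  simp only [inV] at hu
  rcases hu with ⟨rfl, h1, h2⟩ | ⟨rfl, h1, h2⟩ | ⟨h0, h0', h1, h2⟩ | ⟨rfl, h1, h2, rfl⟩ |
    ⟨h0, h0', rfl, h1, h2⟩
  · exact hX r h1 c h2
  · rcases Nat.lt_or_ge r R with h | h
    · exact hY r c h h2 (hX r h c h2.le)
    · rw [show r = R by omega]
      exact hYR c h2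
  · have h := hX r h1 c h2.le
    interval_cases k
    · exact hP r c h1 h2 h
    · exact hS r c h1 h2 h
    · exact hQ r c h1 h2 h
    · exact hZ1 r c h1 h2 h
    · exact hZ2 r c h1 h2 h
    · exact hT1 r c h1 h2 h
    · exact hT2 r c h1 h2 h
    · exact hF1 r c h1 h2 h
    · exact hF2 r c h1 h2 h
    · exact hG1 r c h1 h2 h
    · exact hH1 r c h1 h2 h
    · exact hG2 r c h1 h2 h
    · exact hH2 r c h1 h2 h
  · exact hE r h1 h2
  · interval_cases k
    · exact hW c h1 h2
    · exact hW' c h1 h2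
    · exact hV c h1 h2
    · exact hGA c h1 h2
    · exact hGB c h1 h2

end Pool.Agent.SegDraw
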