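import Pool.Agent.Lib_helper69.Seg.Stmts

/-!
# Drawing a plane graph on assigned segments: two edges of cells do not cross
-/

set_option autoImplicit false

namespace Pool.Agent.SegDraw

/-! ### Plane geometry -/

lemma NC.symm {p q p' q' : ℝ × ℝ} (h : NC p q p' q') : NC p' q' p q := ⟨h.2, h.1⟩

lemma mem_seg_cols {P Q z : ℝ × ℝ} (h : P.1 < Q.1) (hz : z ∈ segment ℝ P Q) :
    P.1 ≤ z.1 ∧ z.1 ≤ Q.1 ∧ z.2 * (Q.1 - P.1) = P.2 * (Q.1 - z.1) + Q.2 * (z.1 - P.1) := by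
  obtain ⟨a, b, ha, hb, hab, rfl⟩ := hz
  obtain rfl : a = 1 - b := by linarith
  simp only [Prod.fst_add, Prod.smul_fst, smul_eq_mul, Prod.snd_add, Prod.smul_snd]
  refine ⟨by nlinarith, by nlinarith, by ring⟩

lemma mem_open_cols {P Q z : ℝ × ℝ} (h : P.1 < Q.1) (hz : z ∈ openSegment ℝ P Q) :
    P.1 < z.1 ∧ z.1 < Q.1 := by
  obtain ⟨a, b, ha, hb, hab, rfl⟩ := hz
  obtain rfl : a = 1 - b := by linarith
  simp only [Prod.fst_add, Prod.smul_fst, smul_eq_mul]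
  constructor <;> nlinarith

/-- Signed difference of the heights at column `t`, cleared of denominators. -/
def G (P Q P' Q' : ℝ × ℝ) (t : ℝ) : ℝ :=
  (P.2 * (Q.1 - t) + Q.2 * (t - P.1)) * (Q'.1 - P'.1) -
    (P'.2 * (Q'.1 - t) + Q'.2 * (t - P'.1)) * (Q.1 - P.1)

lemma G_swap (P Q P' Q' : ℝ × ℝ) (t : ℝ) : G P' Q' P Q t = - G P Q P' Q' t := by
  unfold G; ring

lemma NC_above_aux {P Q P' Q' : ℝ × ℝ} (h1 : P.1 < Q.1) (h2 : P'.1 < Q'.1) {α β : ℝ}
    (hα : α = max P.1 P'.1) (hβ : β = min Q.1 Q'.1)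
    (hA : 0 < G P Q P' Q' α ∨ (P.1 = P'.1 ∧ 0 ≤ G P Q P' Q' α))
    (hB : 0 < G P Q P' Q' β ∨ (Q.1 = Q'.1 ∧ 0 ≤ G P Q P' Q' β))
    (hAB : 0 < G P Q P' Q' α ∨ 0 < G P Q P' Q' β) {z : ℝ × ℝ}
    (hz : z ∈ segment ℝ P Q) (hz' : z ∈ segment ℝ P' Q')
    (ho : (P.1 < z.1 ∧ z.1 < Q.1) ∨ (P'.1 < z.1 ∧ z.1 < Q'.1)) : False := by
  obtain ⟨a1, a2, a3⟩ := mem_seg_cols h1 hz
  obtain ⟨b1, b2, b3⟩ := mem_seg_cols h2 hz'
  have hG : G P Q P' Q' z.1 = 0 := by
    unfold G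
    rw [← a3, ← b3]; ring
  have hαz : α ≤ z.1 := by rw [hα]; exact max_le a1 b1
  have hzβ : z.1 ≤ β := by rw [hβ]; exact le_min a2 b2
  have haff : G P Q P' Q' z.1 * (β - α) =
      G P Q P' Q' α * (β - z.1) + G P Q P' Q' β * (z.1 - α) := by
    unfold G; ring
  rcases eq_or_lt_of_le hαz with e | l1
  · have hA' : 0 < G P Q P' Q' α := by
      rcases hA with h | ⟨h, _⟩
      · exact h
      · exfalso
        have : α = P.1 := by rw [hα, ← h, max_self]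
        have : α = P'.1 := by rw [hα, h, max_self]
        rcases ho with ho | ho <;> linarith [ho.1]
    rw [← e] at hG
    linarith
  rcases eq_or_lt_of_le hzβ with e | l2
  · have hB' : 0 < G P Q P' Q' β := by
      rcases hB with h | ⟨h, _⟩
      · exact h
      · exfalso
        have : β = Q.1 := by rw [hβ, ← h, min_self]
        have : β = Q'.1 := by rw [hβ, h, min_self]
        rcases ho with ho | ho <;> linarith [ho.2]
    rw [e] at hG
    linarith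
  have hA0 : 0 ≤ G P Q P' Q' α := by rcases hA with h | h; exacts [h.le, h.2]
  have hB0 : 0 ≤ G P Q P' Q' β := by rcases hB with h | h; exacts [h.le, h.2]
  rw [hG, zero_mul] at haff
  rcases hAB with h | h
  · nlinarith [mul_pos h (sub_pos.2 l2), mul_nonneg hB0 (sub_pos.2 l1).le]
  · nlinarith [mul_pos h (sub_pos.2 l1), mul_nonneg hA0 (sub_pos.2 l2).le]

theorem NC_above {P Q P' Q' : ℝ × ℝ} (h1 : P.1 < Q.1) (h2 : P'.1 < Q'.1) {α β : ℝ}
    (hα : α = max P.1 P'.1) (hβ : β = min Q.1 Q'.1)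
    (hA : 0 < G P Q P' Q' α ∨ (P.1 = P'.1 ∧ 0 ≤ G P Q P' Q' α))
    (hB : 0 < G P Q P' Q' β ∨ (Q.1 = Q'.1 ∧ 0 ≤ G P Q P' Q' β))
    (hAB : 0 < G P Q P' Q' α ∨ 0 < G P Q P' Q' β) : NC P Q P' Q' := by
  constructor
  · rw [Set.disjoint_left]
    intro z hz hz'
    exact NC_above_aux h1 h2 hα hβ hA hB hAB (openSegment_subset_segment ℝ _ _ hz) hz'
      (Or.inl (mem_open_cols h1 hz))
  · rw [Set.disjoint_left]
    intro z hz hz'
    exact NC_above_aux h1 h2 hα hβ hA hB hAB hz' (openSegment_subset_segment ℝ _ _ hz)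
      (Or.inr (mem_open_cols h2 hz))

theorem NC_cols {P Q P' Q' : ℝ × ℝ} (h1 : P.1 < Q.1) (h2 : P'.1 < Q'.1) (h : Q.1 ≤ P'.1) :
    NC P Q P' Q' := by
  constructor
  · rw [Set.disjoint_left]
    intro z hz hz'
    have := (mem_open_cols h1 hz).2
    have := (mem_seg_cols h2 hz').1
    linarith
  · rw [Set.disjoint_left]
    intro z hz hz'
    have := (mem_open_cols h2 hz).1
    have := (mem_seg_cols h1 hz').2.1
    linarith

lemma seg_snd_le {P Q z : ℝ × ℝ} {t : ℝ} (hP : P.2 ≤ t) (hQ : Q.2 ≤ t) (hz : z ∈ segment ℝ P Q) :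
    z.2 ≤ t := by
  obtain ⟨a, b, ha, hb, hab, rfl⟩ := hz
  obtain rfl : a = 1 - b := by linarith
  simp only [smul_eq_mul, Prod.snd_add, Prod.smul_snd]
  nlinarith

lemma le_seg_snd {P Q z : ℝ × ℝ} {t : ℝ} (hP : t ≤ P.2) (hQ : t ≤ Q.2) (hz : z ∈ segment ℝ P Q) :
    t ≤ z.2 := by
  obtain ⟨a, b, ha, hb, hab, rfl⟩ := hz
  obtain rfl : a = 1 - b := by linarith
  simp only [smul_eq_mul, Prod.snd_add, Prod.smul_snd]
  nlinarith

theorem NC_rows {P Q P' Q' : ℝ × ℝ} {s t : ℝ} (hP : P.2 ≤ s) (hQ : Q.2 ≤ s) (hP' : t ≤ P'.2)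
    (hQ' : t ≤ Q'.2) (h : s < t) : NC P Q P' Q' := by
  constructor
  · rw [Set.disjoint_left]
    intro z hz hz'
    have := seg_snd_le hP hQ (openSegment_subset_segment ℝ _ _ hz)
    have := le_seg_snd hP' hQ' hz'
    linarith
  · rw [Set.disjoint_left]
    intro z hz hz'
    have := seg_snd_le hP hQ hz'
    have := le_seg_snd hP' hQ' (openSegment_subset_segment ℝ _ _ hz)
    linarith

/-! ### Integer data of the cell edges -/

/-- Type and shifts of row and bus of the left endpoint. -/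
def vL : ℕ → ℕ × ℤ × ℤ
  | 0 => (0, 0, 0) | 1 => (2, 0, 0) | 2 => (1, 0, 0) | 3 => (2, 0, 0) | 4 => (3, 0, 0)
  | 5 => (5, 0, 0) | 6 => (3, 0, 0) | 7 => (7, 0, 0) | 8 => (6, 0, 0) | 9 => (7, 0, 0)
  | 10 => (0, 0, 1) | 11 => (9, 0, 0) | 12 => (1, 0, 0) | 13 => (7, 0, 0) | 14 => (7, 0, 0)
  | 15 => (13, 0, 0) | 16 => (14, 0, 0) | 17 => (0, 1, 0) | _ => (15, 0, 0)

/-- Type and shifts of row and bus of the right endpoint. -/
def vR : ℕ → ℕ × ℤ × ℤ
  | 0 => (1, 0, 0) | 1 => (0, 0, 0) | 2 => (4, 0, 0) | 3 => (3, 0, 0) | 4 => (4, 0, 0)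
  | 5 => (3, 0, 0) | 6 => (6, 0, 0) | 7 => (5, 0, 0) | 8 => (8, 0, 0) | 9 => (1, 1, 0)
  | 10 => (8, 0, 0) | 11 => (0, 0, 0) | 12 => (10, 0, 0) | 13 => (11, 0, 0) | 14 => (12, 0, 0)
  | 15 => (8, 0, 0) | 16 => (8, 0, 0) | 17 => (0, 0, 0) | _ => (0, 0, 0)

/-- Column of an endpoint. -/
def col (v : ℕ × ℤ × ℤ) : ℤ := cx v.1 + 80 * (v.2.2 - v.2.1)

/-- Lower height of an endpoint. -/
def low (v : ℕ × ℤ × ℤ) : ℤ := lo v.1 + 163 * (v.2.2 + v.2.1)

/-- Upper height of an endpoint. -/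
def upp (v : ℕ × ℤ × ℤ) : ℤ := hi v.1 + 163 * (v.2.2 + v.2.1)

/-- Lower bound for `G`. -/
def Glo (l r l' r' : ℕ × ℤ × ℤ) (t : ℤ) : ℤ :=
  (low l * (col r - t) + low r * (t - col l)) * (col r' - col l') -
    (upp l' * (col r' - t) + upp r' * (t - col l')) * (col r - col l)

/-- The edge `l r` is above the edge `l' r'`. -/
def abv (l r l' r' : ℕ × ℤ × ℤ) : Bool :=
  let α := max (col l) (col l')
  let β := min (col r) (col r')
  (decide (l = l') || decide (0 < Glo l r l' r' α)) &&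
    (decide (r = r') || decide (0 < Glo l r l' r' β)) &&
    (decide (0 < Glo l r l' r' α) || decide (0 < Glo l r l' r' β)) && decide (α ≤ β)

/-- Shift an endpoint. -/
def shf (dr dc : ℤ) (v : ℕ × ℤ × ℤ) : ℕ × ℤ × ℤ := (v.1, v.2.1 + dr, v.2.2 + dc)

/-- The test for two edges. -/
def chk (i j : ℕ) (dr dc : ℤ) : Bool :=
  let l := vL i
  let r := vR i
  let l' := shf dr dc (vL j)
  let r' := shf dr dc (vR j)
  decide (col r ≤ col l') || decide (col r' ≤ col l) || abv l r l' r' || abv l' r' l r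

/-- Special pairs. -/
def spc (i j : ℕ) : Bool :=
  [(0, 3), (0, 4), (0, 5), (0, 6), (1, 11), (2, 12), (3, 5), (3, 7), (4, 6), (4, 8), (7, 13),
    (8, 15), (9, 14), (10, 16), (17, 18)].contains (i, j)

set_option maxRecDepth 100000 in
theorem tab00 : ∀ i < 19, ∀ j < 19, i < j → spc i j = false → chk i j 0 0 = true := by
  decide +kernel

set_option maxRecDepth 100000 in
theorem tab01 : ∀ i < 19, ∀ j < 17, chk i j 0 1 = true := by
  decide +kernel

set_option maxRecDepth 100000 in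
theorem tab10 : ∀ i < 19, ∀ j < 19, (i < 17 ∨ j < 17) → chk i j 1 0 = true := by
  decide +kernel

set_option maxRecDepth 100000 in
theorem tabm : ∀ i < 19, ∀ j < 17, chk i j (-1) 1 = true := by
  decide +kernel

/-! ### From the table to the drawing -/

/-- The point `P` is a possible position of the endpoint `v`. -/
def At (X0 H0 : ℝ) (v : ℕ × ℤ × ℤ) (P : ℝ × ℝ) : Prop :=
  P.1 = X0 + col v ∧ H0 + low v ≤ P.2 ∧ P.2 ≤ H0 + upp v

lemma Glo_le {X0 H0 : ℝ} {l r l' r' : ℕ × ℤ × ℤ} {P Q P' Q' : ℝ × ℝ} (hP : At X0 H0 l P)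
    (hQ : At X0 H0 r Q) (hP' : At X0 H0 l' P') (hQ' : At X0 H0 r' Q') (t : ℤ)
    (h1 : col l ≤ t) (h2 : t ≤ col r) (h3 : col l' ≤ t) (h4 : t ≤ col r')
    (h5 : col l < col r) (h6 : col l' < col r') :
    (Glo l r l' r' t : ℝ) ≤ G P Q P' Q' (X0 + t) := by
  obtain ⟨p1, p2, -⟩ := hP
  obtain ⟨q1, q2, -⟩ := hQ
  obtain ⟨p1', -, p2'⟩ := hP'
  obtain ⟨q1', -, q2'⟩ := hQ'
  have h1r : (col l : ℝ) ≤ t := by exact_mod_cast h1
  have h2r : (t : ℝ) ≤ col r := by exact_mod_cast h2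
  have h3r : (col l' : ℝ) ≤ t := by exact_mod_cast h3
  have h4r : (t : ℝ) ≤ col r' := by exact_mod_cast h4
  have h5r : (col l : ℝ) < col r := by exact_mod_cast h5
  have h6r : (col l' : ℝ) < col r' := by exact_mod_cast h6
  unfold G Glo
  rw [p1, q1, p1', q1']
  push_cast
  have e1 : (H0 + low l) * ((col r : ℝ) - t) + (H0 + low r) * ((t : ℝ) - col l) ≤
      P.2 * ((col r : ℝ) - t) + Q.2 * ((t : ℝ) - col l) := by
    have := mul_le_mul_of_nonneg_right p2 (sub_nonneg.2 h2r)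
    have := mul_le_mul_of_nonneg_right q2 (sub_nonneg.2 h1r)
    linarith
  have e2 : P'.2 * ((col r' : ℝ) - t) + Q'.2 * ((t : ℝ) - col l') ≤
      (H0 + upp l') * ((col r' : ℝ) - t) + (H0 + upp r') * ((t : ℝ) - col l') := by
    have := mul_le_mul_of_nonneg_right p2' (sub_nonneg.2 h4r)
    have := mul_le_mul_of_nonneg_right q2' (sub_nonneg.2 h3r)
    linarith
  have e3 := mul_le_mul_of_nonneg_right e1 (sub_nonneg.2 h6r.le)
  have e4 := mul_le_mul_of_nonneg_right e2 (sub_nonneg.2 h5r.le)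
  have a1 : X0 + (col r : ℝ) - (X0 + t) = col r - t := by ring
  have a2 : X0 + (t : ℝ) - (X0 + col l) = t - col l := by ring
  have a3 : X0 + (col r' : ℝ) - (X0 + col l') = col r' - col l' := by ring
  have a4 : X0 + (col r' : ℝ) - (X0 + t) = col r' - t := by ring
  have a5 : X0 + (t : ℝ) - (X0 + col l') = t - col l' := by ring
  have a6 : X0 + (col r : ℝ) - (X0 + col l) = col r - col l := by ring
  rw [a1, a2, a3, a4, a5, a6]
  nlinarith [e3, e4]

lemma NC_abv {X0 H0 : ℝ} {l r l' r' : ℕ × ℤ × ℤ} {P Q P' Q' : ℝ × ℝ} (hP : At X0 H0 l P)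
    (hQ : At X0 H0 r Q) (hP' : At X0 H0 l' P') (hQ' : At X0 H0 r' Q')
    (h5 : col l < col r) (h6 : col l' < col r') (hl : l = l' → P = P') (hr : r = r' → Q = Q')
    (h : abv l r l' r' = true) : NC P Q P' Q' := by
  have h5r : (col l : ℝ) < col r := by exact_mod_cast h5
  have h6r : (col l' : ℝ) < col r' := by exact_mod_cast h6
  simp only [abv, Bool.and_eq_true, Bool.or_eq_true, decide_eq_true_eq] at h
  obtain ⟨⟨⟨hA, hB⟩, hAB⟩, hαβ⟩ := h
  set α := max (col l) (col l') with hα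
  set β := min (col r) (col r') with hβ
  have gα : (Glo l r l' r' α : ℝ) ≤ G P Q P' Q' (X0 + α) :=
    Glo_le hP hQ hP' hQ' α (le_max_left _ _) (hαβ.trans (min_le_left _ _)) (le_max_right _ _)
      (hαβ.trans (min_le_right _ _)) h5 h6
  have gβ : (Glo l r l' r' β : ℝ) ≤ G P Q P' Q' (X0 + β) :=
    Glo_le hP hQ hP' hQ' β ((le_max_left _ _).trans hαβ) (min_le_left _ _)
      ((le_max_right _ _).trans hαβ) (min_le_right _ _) h5 h6
  have pα : 0 < Glo l r l' r' α → 0 < G P Q P' Q' (X0 + α) := fun h =>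
    lt_of_lt_of_le (by exact_mod_cast h) gα
  have pβ : 0 < Glo l r l' r' β → 0 < G P Q P' Q' (X0 + β) := fun h =>
    lt_of_lt_of_le (by exact_mod_cast h) gβ
  have eα : X0 + (α : ℝ) = max P.1 P'.1 := by
    rw [hP.1, hP'.1, hα, Int.cast_max, max_add_add_left]
  have eβ : X0 + (β : ℝ) = min Q.1 Q'.1 := by
    rw [hQ.1, hQ'.1, hβ, Int.cast_min, min_add_add_left]
  refine NC_above (by rw [hP.1, hQ.1]; linarith) (by rw [hP'.1, hQ'.1]; linarith) eα eβ ?_ ?_ ?_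
  · rcases hA with e | h
    · right
      have hPP := hl e
      refine ⟨by rw [hPP], ?_⟩
      have e1 : X0 + (α : ℝ) = P.1 := by rw [eα, hPP, max_self]
      have e2 : X0 + (α : ℝ) = P'.1 := by rw [eα, hPP, max_self]
      unfold G
      rw [e1]
      nth_rewrite 3 [hPP]
      apply le_of_eq
      rw [hPP]
      ring
    · exact Or.inl (pα h)
  · rcases hB with e | h
    · right
      have hQQ := hr e
      refine ⟨by rw [hQQ], ?_⟩
      have e1 : X0 + (β : ℝ) = Q.1 := by rw [eβ, hQQ, min_self]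
      unfold G
      rw [e1]
      apply le_of_eq
      rw [hQQ]
      ring
    · exact Or.inl (pβ h)
  · rcases hAB with h | h
    · exact Or.inl (pα h)
    · exact Or.inr (pβ h)

/-- A typed vertex with integer indices. -/
def cz (u : TV) : ℕ × ℤ × ℤ := (u.1, (u.2.1 : ℤ), (u.2.2 : ℤ))

lemma cz_inj {u v : TV} (h : cz u = cz v) : u = v := by
  obtain ⟨a, b, c⟩ := u
  obtain ⟨a', b', c'⟩ := v
  simp only [cz, Prod.mk.injEq, Nat.cast_inj] at h
  obtain ⟨rfl, rfl, rfl⟩ := h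
  rfl

lemma cz_eL {i : ℕ} (hi : i < 19) (r c : ℕ) : cz (eL i r c) = shf r c (vL i) := by
  interval_cases i <;> simp [eL, cz, shf, vL, add_comm]

lemma cz_eR {i : ℕ} (hi : i < 19) (r c : ℕ) : cz (eR i r c) = shf r c (vR i) := by
  interval_cases i <;> simp [eR, cz, shf, vR, add_comm]

lemma shf_shf (a b a' b' : ℤ) (v : ℕ × ℤ × ℤ) : shf a b (shf a' b' v) = shf (a' + a) (b' + b) v := by
  simp [shf, add_assoc]

lemma At_of {R M : ℕ} {p : Par} (hG : Good R M p) {u : TV} (hu : inV R M u) (hk : u.1 ≤ 15)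
    {v : ℕ × ℤ × ℤ} {r c : ℕ} (h : cz u = shf r c v) :
    At (80 * (c : ℝ) + 80 * ((R : ℝ) - r)) (163 * ((c : ℝ) + r)) v (posT R p u) := by
  obtain ⟨k, a, b⟩ := u
  obtain ⟨k', x, y⟩ := v
  simp only [cz, shf, Prod.mk.injEq] at h
  obtain ⟨rfl, h1, h2⟩ := h
  have e1 : (a : ℝ) = x + r := by exact_mod_cast h1
  have e2 : (b : ℝ) = y + c := by exact_mod_cast h2
  have hr := hG.range _ hk hu
  simp only at hk hr
  unfold At posT col low upp
  simp only [hk, if_true, e1, e2]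
  push_cast
  refine ⟨by ring, by linarith [hr.1], by linarith [hr.2]⟩

lemma col_lt {i : ℕ} (hi : i < 19) : col (vL i) < col (vR i) := by
  interval_cases i <;> decide

lemma col_shf (dr dc : ℤ) (v : ℕ × ℤ × ℤ) : col (shf dr dc v) = col v + 80 * (dc - dr) := by
  unfold col shf; ring

lemma ends_ok {R M : ℕ} (hRM : OK R M) {i r c : ℕ} (hi : i < 19) (hv : vE R M i r c) :
    (inV R M (eL i r c) ∧ (eL i r c).1 ≤ 15) ∧ (inV R M (eR i r c) ∧ (eR i r c).1 ≤ 15) := by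
  obtain ⟨hR, hR0, hM, hM0⟩ := hRM
  unfold vE at hv
  have key : i ≤ 16 ∧ r < R ∧ c < M ∨ i = 17 ∧ r + 1 < R ∧ c = 0 ∨ i = 18 ∧ r < R ∧ r % 2 = 0 ∧ c = 0 := by
    omega
  clear hv
  interval_cases i <;> simp at key <;> simp [eL, eR, inV] <;> omega

/-- The frame of the cell `(r, c)`. -/
noncomputable def X0 (R r c : ℕ) : ℝ := 80 * (c : ℝ) + 80 * ((R : ℝ) - r)

/-- The frame of the cell `(r, c)`. -/
def H0 (r c : ℕ) : ℝ := 163 * ((c : ℝ) + r)

lemma At_eL {R M : ℕ} (hRM : OK R M) {p : Par} (hG : Good R M p) {i r c : ℕ} (hi : i < 19)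
    (hv : vE R M i r c) (r₀ c₀ : ℕ) :
    At (X0 R r₀ c₀) (H0 r₀ c₀) (shf ((r : ℤ) - r₀) ((c : ℤ) - c₀) (vL i)) (posT R p (eL i r c)) := by
  obtain ⟨⟨h1, h2⟩, -⟩ := ends_ok hRM hi hv
  refine At_of hG h1 h2 ?_
  rw [cz_eL hi, shf_shf]
  congr 1 <;> ring

lemma At_eR {R M : ℕ} (hRM : OK R M) {p : Par} (hG : Good R M p) {i r c : ℕ} (hi : i < 19)
    (hv : vE R M i r c) (r₀ c₀ : ℕ) :
    At (X0 R r₀ c₀) (H0 r₀ c₀) (shf ((r : ℤ) - r₀) ((c : ℤ) - c₀) (vR i)) (posT R p (eR i r c)) := by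
  obtain ⟨-, ⟨h1, h2⟩⟩ := ends_ok hRM hi hv
  refine At_of hG h1 h2 ?_
  rw [cz_eR hi, shf_shf]
  congr 1 <;> ring

lemma shf_zero (v : ℕ × ℤ × ℤ) : shf 0 0 v = v := by simp [shf]

lemma At_eL0 {R M : ℕ} (hRM : OK R M) {p : Par} (hG : Good R M p) {i r c : ℕ} (hi : i < 19)
    (hv : vE R M i r c) : At (X0 R r c) (H0 r c) (vL i) (posT R p (eL i r c)) := by
  have := At_eL hRM hG hi hv r c
  rwa [sub_self, sub_self, shf_zero] at this

lemma At_eR0 {R M : ℕ} (hRM : OK R M) {p : Par} (hG : Good R M p) {i r c : ℕ} (hi : i < 19)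
    (hv : vE R M i r c) : At (X0 R r c) (H0 r c) (vR i) (posT R p (eR i r c)) := by
  have := At_eR hRM hG hi hv r c
  rwa [sub_self, sub_self, shf_zero] at this

theorem NC_chk {R M : ℕ} (hRM : OK R M) {p : Par} (hG : Good R M p) {i r c j r' c' : ℕ}
    (hi : i < 19) (hj : j < 19) (hv : vE R M i r c) (hv' : vE R M j r' c')
    (h : chk i j ((r' : ℤ) - r) ((c' : ℤ) - c) = true) :
    NC (posT R p (eL i r c)) (posT R p (eR i r c)) (posT R p (eL j r' c'))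
      (posT R p (eR j r' c')) := by
  have aP := At_eL0 hRM hG hi hv
  have aQ := At_eR0 hRM hG hi hv
  have aP' := At_eL hRM hG hj hv' r c
  have aQ' := At_eR hRM hG hj hv' r c
  have c1 := col_lt hi
  have c2 : col (shf ((r' : ℤ) - r) ((c' : ℤ) - c) (vL j)) <
      col (shf ((r' : ℤ) - r) ((c' : ℤ) - c) (vR j)) := by
    rw [col_shf, col_shf]
    have := col_lt hj
    linarith
  have c1r : (col (vL i) : ℝ) < col (vR i) := by exact_mod_cast c1
  have c2r : (col (shf ((r' : ℤ) - r) ((c' : ℤ) - c) (vL j)) : ℝ) <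
      col (shf ((r' : ℤ) - r) ((c' : ℤ) - c) (vR j)) := by exact_mod_cast c2
  have sl : vL i = shf ((r' : ℤ) - r) ((c' : ℤ) - c) (vL j) → eL i r c = eL j r' c' := by
    intro e
    apply cz_inj
    rw [cz_eL hi, cz_eL hj, e, shf_shf]
    congr 1 <;> ring
  have sr : vR i = shf ((r' : ℤ) - r) ((c' : ℤ) - c) (vR j) → eR i r c = eR j r' c' := by
    intro e
    apply cz_inj
    rw [cz_eR hi, cz_eR hj, e, shf_shf]
    congr 1 <;> ring
  simp only [chk, Bool.or_eq_true, decide_eq_true_eq] at h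
  rcases h with ((h | h) | h) | h
  · have hr : (col (vR i) : ℝ) ≤ col (shf ((r' : ℤ) - r) ((c' : ℤ) - c) (vL j)) := by
      exact_mod_cast h
    refine NC_cols (by rw [aP.1, aQ.1]; linarith) (by rw [aP'.1, aQ'.1]; linarith) ?_
    rw [aQ.1, aP'.1]
    linarith
  · have hr : (col (shf ((r' : ℤ) - r) ((c' : ℤ) - c) (vR j)) : ℝ) ≤ col (vL i) := by
      exact_mod_cast h
    refine (NC_cols (by rw [aP'.1, aQ'.1]; linarith) (by rw [aP.1, aQ.1]; linarith) ?_).symm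
    rw [aQ'.1, aP.1]
    linarith
  · exact NC_abv aP aQ aP' aQ' c1 c2 (fun e => by rw [sl e]) (fun e => by rw [sr e]) h
  · exact (NC_abv aP' aQ' aP aQ c2 c1 (fun e => by rw [sl e.symm]) (fun e => by rw [sr e.symm])
      h).symm

/-! ### The special pairs -/

lemma NC_num {X H a b c d y1 y2 z1 z2 α β : ℝ} (h1 : a < b) (h2 : c < d) (hα : α = max a c)
    (hβ : β = min b d)
    (hA : 0 < (y1 * (b - α) + y2 * (α - a)) * (d - c) - (z1 * (d - α) + z2 * (α - c)) * (b - a) ∨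
      (a = c ∧ 0 ≤ (y1 * (b - α) + y2 * (α - a)) * (d - c) -
        (z1 * (d - α) + z2 * (α - c)) * (b - a)))
    (hB : 0 < (y1 * (b - β) + y2 * (β - a)) * (d - c) - (z1 * (d - β) + z2 * (β - c)) * (b - a) ∨
      (b = d ∧ 0 ≤ (y1 * (b - β) + y2 * (β - a)) * (d - c) -
        (z1 * (d - β) + z2 * (β - c)) * (b - a)))
    (hAB : 0 < (y1 * (b - α) + y2 * (α - a)) * (d - c) - (z1 * (d - α) + z2 * (α - c)) * (b - a) ∨
      0 < (y1 * (b - β) + y2 * (β - a)) * (d - c) - (z1 * (d - β) + z2 * (β - c)) * (b - a)) :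
    NC (X + a, H + y1) (X + b, H + y2) (X + c, H + z1) (X + d, H + z2) := by
  have key : ∀ t : ℝ, G (X + a, H + y1) (X + b, H + y2) (X + c, H + z1) (X + d, H + z2) (X + t) =
      (y1 * (b - t) + y2 * (t - a)) * (d - c) - (z1 * (d - t) + z2 * (t - c)) * (b - a) := by
    intro t; unfold G; ring
  refine NC_above (α := X + α) (β := X + β) (by simpa using h1) (by simpa using h2)
    (by simp [hα, max_add_add_left]) (by simp [hβ, min_add_add_left]) ?_ ?_ ?_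
  · rw [key]; simpa using hA
  · rw [key]; simpa using hB
  · rw [key, key]; exact hAB

lemma pos_cell {R : ℕ} {p : Par} {k r c : ℕ} (hk : k ≤ 15) :
    posT R p (k, r, c) = (X0 R r c + cx k, H0 r c + p.h (k, r, c)) := by
  simp [posT, hk, X0, H0]

lemma pos_up {R : ℕ} {p : Par} {r c : ℕ} :
    posT R p (1, r + 1, c) = (X0 R r c + 80, H0 r c + (163 + p.h (1, r + 1, c))) := by
  simp only [posT, X0, H0, cx]
  norm_num
  constructor <;> ring

lemma pos_right {R : ℕ} {p : Par} {r c : ℕ} :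
    posT R p (0, r, c + 1) = (X0 R r c + 160, H0 r c + (163 + p.h (0, r, c + 1))) := by
  simp only [posT, X0, H0, cx]
  norm_num
  constructor <;> ring

lemma pos_cpl {R : ℕ} {p : Par} {r c : ℕ} :
    posT R p (0, r + 1, c) = (X0 R r c + 0, H0 r c + (163 + p.h (0, r + 1, c))) := by
  simp only [posT, X0, H0, cx]
  norm_num
  constructor <;> ring

lemma hS {R M : ℕ} {p : Par} (hG : Good R M p) {k r c : ℕ} (hk : k ≤ 14) (hr : r < R)
    (hc : c < M) : (lo k : ℝ) ≤ p.h (k, r, c) ∧ p.h (k, r, c) ≤ hi k := by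
  refine hG.range (k, r, c) (by simp; omega) ?_
  simp only [inV]
  omega

theorem NC_spc {R M : ℕ} (hRM : OK R M) {p : Par} (hG : Good R M p) {i j r c : ℕ}
    (hv : vE R M i r c) (hv' : vE R M j r c) (h : spc i j = true) :
    NC (posT R p (eL i r c)) (posT R p (eR i r c)) (posT R p (eL j r c)) (posT R p (eR j r c)) := by
  have hij : (i, j) ∈ ([(0, 3), (0, 4), (0, 5), (0, 6), (1, 11), (2, 12), (3, 5), (3, 7), (4, 6),
      (4, 8), (7, 13), (8, 15), (9, 14), (10, 16), (17, 18)] : List (ℕ × ℕ)) := by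
    simpa [spc] using h
  obtain ⟨hR, hR0, hM, hM0⟩ := hRM
  have hrc : r < R ∧ c < M := by
    unfold vE at hv hv'
    simp only [List.mem_cons, Prod.mk.injEq, List.not_mem_nil, or_false] at hij
    omega
  obtain ⟨hr, hc⟩ := hrc
  have r0 := hS hG (k := 0) (by norm_num) hr hc
  have r1 := hS hG (k := 1) (by norm_num) hr hc
  have r2 := hS hG (k := 2) (by norm_num) hr hc
  have r3 := hS hG (k := 3) (by norm_num) hr hc
  have r4 := hS hG (k := 4) (by norm_num) hr hc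
  have r5 := hS hG (k := 5) (by norm_num) hr hc
  have r6 := hS hG (k := 6) (by norm_num) hr hc
  have r7 := hS hG (k := 7) (by norm_num) hr hc
  have r8 := hS hG (k := 8) (by norm_num) hr hc
  have r9 := hS hG (k := 9) (by norm_num) hr hc
  have r10 := hS hG (k := 10) (by norm_num) hr hc
  have r11 := hS hG (k := 11) (by norm_num) hr hc
  have r12 := hS hG (k := 12) (by norm_num) hr hc
  have r13 := hS hG (k := 13) (by norm_num) hr hc
  have r14 := hS hG (k := 14) (by norm_num) hr hc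
  norm_num [lo, hi] at r0 r1 r2 r3 r4 r5 r6 r7 r8 r9 r10 r11 r12 r13 r14
  have gS := hG.rS r c hr hc
  have gP := hG.rP r c hr hc
  have gQ := hG.rQ r c hr hc
  have gZ1 := hG.rZ1 r c hr hc
  have gZ2 := hG.rZ2 r c hr hc
  have gG1 := hG.rG1 r c hr hc
  have gG2 := hG.rG2 r c hr hc
  have gH1 := hG.rH1 r c hr hc
  have gH2 := hG.rH2 r c hr hc
  simp only [List.mem_cons, Prod.mk.injEq, List.not_mem_nil, or_false] at hij
  rcases hij with ⟨rfl, rfl⟩ | ⟨rfl, rfl⟩ | ⟨rfl, rfl⟩ | ⟨rfl, rfl⟩ | ⟨rfl, rfl⟩ | ⟨rfl, rfl⟩ |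
    ⟨rfl, rfl⟩ | ⟨rfl, rfl⟩ | ⟨rfl, rfl⟩ | ⟨rfl, rfl⟩ | ⟨rfl, rfl⟩ | ⟨rfl, rfl⟩ | ⟨rfl, rfl⟩ |
    ⟨rfl, rfl⟩ | ⟨rfl, rfl⟩
  · -- X-Y below P-S
    apply NC.symm
    simp only [eL, eR]
    rw [pos_cell (k := 0) (by norm_num), pos_cell (k := 1) (by norm_num),
      pos_cell (k := 2) (by norm_num), pos_cell (k := 3) (by norm_num)]
    refine NC_num (α := 80) (β := 120) ?_ ?_ ?_ ?_ (Or.inl ?_) (Or.inl ?_) (Or.inl ?_) <;>
      norm_num [cx] <;> linarith
  · apply NC.symm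
    simp only [eL, eR]
    rw [pos_cell (k := 0) (by norm_num), pos_cell (k := 1) (by norm_num),
      pos_cell (k := 3) (by norm_num), pos_cell (k := 4) (by norm_num)]
    refine NC_num (α := 120) (β := 160) ?_ ?_ ?_ ?_ (Or.inl ?_) (Or.inl ?_) (Or.inl ?_) <;>
      norm_num [cx] <;> linarith
  · apply NC.symm
    simp only [eL, eR]
    rw [pos_cell (k := 0) (by norm_num), pos_cell (k := 1) (by norm_num),
      pos_cell (k := 5) (by norm_num), pos_cell (k := 3) (by norm_num)]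
    refine NC_num (α := 105) (β := 120) ?_ ?_ ?_ ?_ (Or.inl ?_) (Or.inl ?_) (Or.inl ?_) <;>
      norm_num [cx] <;> linarith
  · apply NC.symm
    simp only [eL, eR]
    rw [pos_cell (k := 0) (by norm_num), pos_cell (k := 1) (by norm_num),
      pos_cell (k := 3) (by norm_num), pos_cell (k := 6) (by norm_num)]
    refine NC_num (α := 120) (β := 135) ?_ ?_ ?_ ?_ (Or.inl ?_) (Or.inl ?_) (Or.inl ?_) <;>
      norm_num [cx] <;> linarith
  · -- P-X above F1-X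
    simp only [eL, eR]
    rw [pos_cell (k := 0) (by norm_num), pos_cell (k := 2) (by norm_num),
      pos_cell (k := 9) (by norm_num)]
    refine NC_num (α := 72) (β := 80) ?_ ?_ ?_ ?_ (Or.inl ?_) (Or.inr ⟨?_, ?_⟩) (Or.inl ?_) <;>
      norm_num [cx] <;> linarith
  · simp only [eL, eR]
    rw [pos_cell (k := 1) (by norm_num), pos_cell (k := 4) (by norm_num),
      pos_cell (k := 10) (by norm_num)]
    refine NC_num (α := 160) (β := 168) ?_ ?_ ?_ ?_ (Or.inr ⟨?_, ?_⟩) (Or.inl ?_) (Or.inr ?_) <;>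
      norm_num [cx] <;> linarith
  · -- Z1-S above P-S
    apply NC.symm
    simp only [eL, eR]
    rw [pos_cell (k := 2) (by norm_num), pos_cell (k := 3) (by norm_num),
      pos_cell (k := 5) (by norm_num)]
    refine NC_num (α := 105) (β := 120) ?_ ?_ ?_ ?_ (Or.inl ?_) (Or.inr ⟨?_, ?_⟩) (Or.inl ?_) <;>
      norm_num [cx] <;> linarith
  · -- T1-Z1 above P-S
    apply NC.symm
    simp only [eL, eR]
    rw [pos_cell (k := 2) (by norm_num), pos_cell (k := 3) (by norm_num),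
      pos_cell (k := 5) (by norm_num), pos_cell (k := 7) (by norm_num)]
    refine NC_num (α := 66) (β := 105) ?_ ?_ ?_ ?_ (Or.inl ?_) (Or.inl ?_) (Or.inl ?_) <;>
      norm_num [cx] <;> linarith
  · apply NC.symm
    simp only [eL, eR]
    rw [pos_cell (k := 3) (by norm_num), pos_cell (k := 4) (by norm_num),
      pos_cell (k := 6) (by norm_num)]
    refine NC_num (α := 120) (β := 135) ?_ ?_ ?_ ?_ (Or.inr ⟨?_, ?_⟩) (Or.inl ?_) (Or.inr ?_) <;>
      norm_num [cx] <;> linarith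
  · apply NC.symm
    simp only [eL, eR]
    rw [pos_cell (k := 3) (by norm_num), pos_cell (k := 4) (by norm_num),
      pos_cell (k := 6) (by norm_num), pos_cell (k := 8) (by norm_num)]
    refine NC_num (α := 135) (β := 174) ?_ ?_ ?_ ?_ (Or.inl ?_) (Or.inl ?_) (Or.inl ?_) <;>
      norm_num [cx] <;> linarith
  · -- T1-G1 above T1-Z1
    apply NC.symm
    simp only [eL, eR]
    rw [pos_cell (k := 5) (by norm_num), pos_cell (k := 7) (by norm_num),
      pos_cell (k := 11) (by norm_num)]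
    refine NC_num (α := 66) (β := 92) ?_ ?_ ?_ ?_ (Or.inr ⟨?_, ?_⟩) (Or.inl ?_) (Or.inr ?_) <;>
      norm_num [cx] <;> linarith
  · apply NC.symm
    simp only [eL, eR]
    rw [pos_cell (k := 6) (by norm_num), pos_cell (k := 8) (by norm_num),
      pos_cell (k := 13) (by norm_num)]
    refine NC_num (α := 148) (β := 174) ?_ ?_ ?_ ?_ (Or.inl ?_) (Or.inr ⟨?_, ?_⟩) (Or.inl ?_) <;>
      norm_num [cx] <;> linarith
  · -- T1-Y above T1-H1
    simp only [eL, eR]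
    rw [pos_up, pos_cell (k := 7) (by norm_num), pos_cell (k := 12) (by norm_num)]
    refine NC_num (α := 66) (β := 72) ?_ ?_ ?_ ?_ (Or.inr ⟨?_, ?_⟩) (Or.inl ?_) (Or.inr ?_) <;>
      norm_num [cx] <;> linarith
  · simp only [eL, eR]
    rw [pos_right, pos_cell (k := 8) (by norm_num), pos_cell (k := 14) (by norm_num)]
    refine NC_num (α := 168) (β := 174) ?_ ?_ ?_ ?_ (Or.inl ?_) (Or.inr ⟨?_, ?_⟩) (Or.inl ?_) <;>
      norm_num [cx] <;> linarith
  · -- X-X above E-X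
    have hc0 : c = 0 ∧ r % 2 = 0 := by unfold vE at hv; omega
    obtain ⟨rfl, hr2⟩ := hc0
    have gE := hG.rE r hr hr2
    have r15 := hG.range (15, r, 0) (by norm_num) (by simp [inV]; omega)
    norm_num [lo, hi] at r15
    simp only [eL, eR]
    rw [pos_cpl, pos_cell (k := 0) (by norm_num), pos_cell (k := 15) (by norm_num)]
    refine NC_num (α := 40) (β := 80) ?_ ?_ ?_ ?_ (Or.inl ?_) (Or.inr ⟨?_, ?_⟩) (Or.inl ?_) <;>
      norm_num [cx] <;> linarith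

/-! ### The theorem -/

lemma hts {R M : ℕ} (hRM : OK R M) {p : Par} (hG : Good R M p) {i r c : ℕ} (hi : i < 19)
    (hv : vE R M i r c) (r₀ c₀ : ℕ) :
    (H0 r₀ c₀ + 163 * (((r : ℤ) - r₀ + ((c : ℤ) - c₀) : ℤ) : ℝ) ≤ (posT R p (eL i r c)).2 ∧
      (posT R p (eL i r c)).2 ≤ H0 r₀ c₀ + 163 * (((r : ℤ) - r₀ + ((c : ℤ) - c₀) : ℤ) : ℝ) + 168) ∧
    (H0 r₀ c₀ + 163 * (((r : ℤ) - r₀ + ((c : ℤ) - c₀) : ℤ) : ℝ) ≤ (posT R p (eR i r c)).2 ∧
      (posT R p (eR i r c)).2 ≤ H0 r₀ c₀ + 163 * (((r : ℤ) - r₀ + ((c : ℤ) - c₀) : ℤ) : ℝ) + 168) ∧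
    (X0 R r₀ c₀ + 80 * (((c : ℤ) - c₀ - ((r : ℤ) - r₀) : ℤ) : ℝ) ≤ (posT R p (eL i r c)).1 ∧
      (posT R p (eR i r c)).1 ≤
        X0 R r₀ c₀ + 80 * (((c : ℤ) - c₀ - ((r : ℤ) - r₀) : ℤ) : ℝ) + 180) ∧
    (posT R p (eL i r c)).1 < (posT R p (eR i r c)).1 := by
  have aL := At_eL hRM hG hi hv r₀ c₀
  have aR := At_eR hRM hG hi hv r₀ c₀
  have e1 : (0 : ℤ) ≤ low (vL i) := by interval_cases i <;> decide
  have e2 : upp (vL i) ≤ (168 : ℤ) := by interval_cases i <;> decide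
  have e3 : (0 : ℤ) ≤ low (vR i) := by interval_cases i <;> decide
  have e4 : upp (vR i) ≤ (168 : ℤ) := by interval_cases i <;> decide
  have e5 : (0 : ℤ) ≤ col (vL i) := by interval_cases i <;> decide
  have e6 : col (vR i) ≤ (180 : ℤ) := by interval_cases i <;> decide
  have e7 := col_lt hi
  have s1 : ∀ (a b : ℤ) (v : ℕ × ℤ × ℤ), low (shf a b v) = low v + 163 * (a + b) := by
    intro a b v; unfold low shf; ring
  have s2 : ∀ (a b : ℤ) (v : ℕ × ℤ × ℤ), upp (shf a b v) = upp v + 163 * (a + b) := by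
    intro a b v; unfold upp shf; ring
  unfold At at aL aR
  rw [s1, s2, col_shf] at aL aR
  have f1 : (0 : ℝ) ≤ low (vL i) := by exact_mod_cast e1
  have f2 : (upp (vL i) : ℝ) ≤ 168 := by exact_mod_cast e2
  have f3 : (0 : ℝ) ≤ low (vR i) := by exact_mod_cast e3
  have f4 : (upp (vR i) : ℝ) ≤ 168 := by exact_mod_cast e4
  have f5 : (0 : ℝ) ≤ col (vL i) := by exact_mod_cast e5
  have f6 : (col (vR i) : ℝ) ≤ 180 := by exact_mod_cast e6
  have f7 : (col (vL i) : ℝ) < col (vR i) := by exact_mod_cast e7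
  push_cast at aL aR ⊢
  obtain ⟨a1, a2, a3⟩ := aL
  obtain ⟨b1, b2, b3⟩ := aR
  refine ⟨⟨?_, ?_⟩, ⟨?_, ?_⟩, ⟨?_, ?_⟩, ?_⟩ <;> linarith

/-- One half of the case distinction. -/
lemma ncf_half {R M : ℕ} (hRM : OK R M) {p : Par} (hG : Good R M p) {i r c j r' c' : ℕ}
    (hi : i < 19) (hj : j < 19) (hv : vE R M i r c) (hv' : vE R M j r' c')
    (hne : ¬ (i = j ∧ r = r' ∧ c = c'))
    (hcase : (2 : ℤ) ≤ ((r' : ℤ) - r) + ((c' : ℤ) - c) ∨
      (3 : ℤ) ≤ ((c' : ℤ) - c) - ((r' : ℤ) - r) ∨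
      ((r' : ℤ) - r = 0 ∧ (c' : ℤ) - c = 0 ∧ i ≤ j) ∨ ((r' : ℤ) - r = 0 ∧ (c' : ℤ) - c = 1) ∨
      ((r' : ℤ) - r = 1 ∧ (c' : ℤ) - c = 0) ∨ ((r' : ℤ) - r = -1 ∧ (c' : ℤ) - c = 1)) :
    NC (posT R p (eL i r c)) (posT R p (eR i r c)) (posT R p (eL j r' c'))
      (posT R p (eR j r' c')) := by
  rcases hcase with h | h | ⟨h1, h2, h3⟩ | ⟨h1, h2⟩ | ⟨h1, h2⟩ | ⟨h1, h2⟩
  · obtain ⟨⟨a1, a2⟩, ⟨a3, a4⟩, -, -⟩ := hts hRM hG hi hv r c
    obtain ⟨⟨b1, b2⟩, ⟨b3, b4⟩, -, -⟩ := hts hRM hG hj hv' r c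
    have hr : (2 : ℝ) ≤ (((r' : ℤ) - r + ((c' : ℤ) - c) : ℤ) : ℝ) := by exact_mod_cast h
    have e0 : ((r : ℤ) - r + ((c : ℤ) - c) : ℤ) = 0 := by ring
    rw [e0] at a2 a4
    norm_num at a2 a4
    refine NC_rows (s := H0 r c + 168) (t := H0 r c + 326) a2 a4 ?_ ?_ (by linarith) <;> linarith
  · obtain ⟨-, -, ⟨a1, a2⟩, a3⟩ := hts hRM hG hi hv r c
    obtain ⟨-, -, ⟨b1, b2⟩, b3⟩ := hts hRM hG hj hv' r c
    have hr : (3 : ℝ) ≤ (((c' : ℤ) - c - ((r' : ℤ) - r) : ℤ) : ℝ) := by exact_mod_cast h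
    have e0 : ((c : ℤ) - c - ((r : ℤ) - r) : ℤ) = 0 := by ring
    rw [e0] at a2
    norm_num at a2
    exact NC_cols a3 b3 (by linarith)
  · obtain rfl : r' = r := by omega
    obtain rfl : c' = c := by omega
    have hlt : i < j := by
      rcases lt_or_eq_of_le h3 with h | h
      · exact h
      · exact absurd ⟨h, rfl, rfl⟩ hne
    by_cases hs : spc i j = true
    · exact NC_spc hRM hG hv hv' hs
    · refine NC_chk hRM hG hi hj hv hv' ?_
      rw [sub_self, sub_self]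
      exact tab00 i hi j hj hlt (by simpa using hs)
  · refine NC_chk hRM hG hi hj hv hv' ?_
    rw [h1, h2]
    refine tab01 i hi j ?_
    unfold vE at hv'
    omega
  · refine NC_chk hRM hG hi hj hv hv' ?_
    rw [h1, h2]
    refine tab10 i hi j hj ?_
    unfold vE at hv hv'
    omega
  · refine NC_chk hRM hG hi hj hv hv' ?_
    rw [h1, h2]
    refine tabm i hi j ?_
    unfold vE at hv'
    omega

/-- Two edges of cells do not cross. -/
theorem ncf : SNcf := by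
  intro R M hRM p hG i r c i' r' c' hv hv' hi hi' hne
  by_cases h : ((2 : ℤ) ≤ ((r' : ℤ) - r) + ((c' : ℤ) - c) ∨
      (3 : ℤ) ≤ ((c' : ℤ) - c) - ((r' : ℤ) - r) ∨
      ((r' : ℤ) - r = 0 ∧ (c' : ℤ) - c = 0 ∧ i ≤ i') ∨ ((r' : ℤ) - r = 0 ∧ (c' : ℤ) - c = 1) ∨
      ((r' : ℤ) - r = 1 ∧ (c' : ℤ) - c = 0) ∨ ((r' : ℤ) - r = -1 ∧ (c' : ℤ) - c = 1))
  · exact ncf_half hRM hG (by omega) (by omega) hv hv' hne h
  · refine (ncf_half hRM hG (by omega) (by omega) hv' hv (by omega) ?_).symm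
    omega

end Pool.Agent.SegDraw
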