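import Pool.Agent.Lib_helper69.Seg.Stmts

/-!
# Module NCFT: an edge of a cell and an edge of a test do not cross
-/

set_option autoImplicit false

namespace Pool.Agent.SegDraw

theorem ncft_le {s t x y k : ℝ} (hs : 0 ≤ s) (ht : 0 ≤ t) (hst : s + t = 1) (hx : x ≤ k)
    (hy : y ≤ k) : s * x + t * y ≤ k := by
  have e : k = s * k + t * k := by rw [← add_mul, hst, one_mul]
  have h1 := mul_le_mul_of_nonneg_left hx hs
  have h2 := mul_le_mul_of_nonneg_left hy ht
  linarith

theorem ncft_lt {s t x y k : ℝ} (hs : 0 < s) (ht : 0 < t) (hst : s + t = 1) (hx : x ≤ k)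
    (hy : y ≤ k) (h : x < k ∨ y < k) : s * x + t * y < k := by
  have e : k = s * k + t * k := by rw [← add_mul, hst, one_mul]
  have h1 := mul_le_mul_of_nonneg_left hx hs.le
  have h2 := mul_le_mul_of_nonneg_left hy ht.le
  rcases h with h | h
  · have := mul_lt_mul_of_pos_left h hs
    linarith
  · have := mul_lt_mul_of_pos_left h ht
    linarith

theorem ncft_lt' {s t x y k : ℝ} (hs : 0 ≤ s) (ht : 0 ≤ t) (hst : s + t = 1) (hx : x < k)
    (hy : y < k) : s * x + t * y < k := by
  rcases hs.eq_or_lt with h | h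
  · have ht1 : t = 1 := by linarith
    rw [← h, ht1]; linarith
  rcases ht.eq_or_lt with h' | h'
  · have hs1 : s = 1 := by linarith
    rw [← h', hs1]; linarith
  exact ncft_lt h h' hst hx.le hy.le (Or.inl hx)

theorem ncft_ge {s t x y k : ℝ} (hs : 0 ≤ s) (ht : 0 ≤ t) (hst : s + t = 1) (hx : k ≤ x)
    (hy : k ≤ y) : k ≤ s * x + t * y := by
  have := ncft_le hs ht hst (neg_le_neg hx) (neg_le_neg hy)
  linarith

theorem ncft_gt {s t x y k : ℝ} (hs : 0 < s) (ht : 0 < t) (hst : s + t = 1) (hx : k ≤ x)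
    (hy : k ≤ y) (h : k < x ∨ k < y) : k < s * x + t * y := by
  have := ncft_lt hs ht hst (neg_le_neg hx) (neg_le_neg hy)
    (h.imp (fun h => neg_lt_neg h) fun h => neg_lt_neg h)
  linarith

theorem ncft_eq {p q p' q' : ℝ × ℝ} {s t s' t' : ℝ} (a b : ℝ)
    (he : s • p + t • q = s' • p' + t' • q') :
    s * (a * p.1 + b * p.2) + t * (a * q.1 + b * q.2) =
      s' * (a * p'.1 + b * p'.2) + t' * (a * q'.1 + b * q'.2) := by
  have e1 : s * p.1 + t * q.1 = s' * p'.1 + t' * q'.1 := by
    have := congrArg Prod.fst he; simpa using this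
  have e2 : s * p.2 + t * q.2 = s' * p'.2 + t' * q'.2 := by
    have := congrArg Prod.snd he; simpa using this
  linear_combination a * e1 + b * e2

/-- Two segments strictly separated by an affine functional. -/
theorem ncft_strict {p q p' q' : ℝ × ℝ} (a b k : ℝ) (h1 : a * p.1 + b * p.2 < k)
    (h2 : a * q.1 + b * q.2 < k) (h3 : k ≤ a * p'.1 + b * p'.2)
    (h4 : k ≤ a * q'.1 + b * q'.2) : NC p q p' q' := by
  have hd : Disjoint (segment ℝ p q) (segment ℝ p' q') := by
    rw [Set.disjoint_left]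
    rintro z ⟨s, t, hs, ht, hst, rfl⟩ ⟨s', t', hs', ht', hst', he⟩
    have u1 := ncft_lt' hs ht hst h1 h2
    have u2 := ncft_ge hs' ht' hst' h3 h4
    have u3 := ncft_eq a b he
    linarith
  exact ⟨hd.mono_left (openSegment_subset_segment ℝ p q),
    (hd.symm).mono_left (openSegment_subset_segment ℝ p' q')⟩

/-- Two segments weakly separated by an affine functional, the separation being strict at one end
of each of them. -/
theorem ncft_weak {p q p' q' : ℝ × ℝ} (a b k : ℝ) (h1 : a * p.1 + b * p.2 ≤ k)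
    (h2 : a * q.1 + b * q.2 ≤ k) (h3 : k ≤ a * p'.1 + b * p'.2)
    (h4 : k ≤ a * q'.1 + b * q'.2) (h5 : a * p.1 + b * p.2 < k ∨ a * q.1 + b * q.2 < k)
    (h6 : k < a * p'.1 + b * p'.2 ∨ k < a * q'.1 + b * q'.2) : NC p q p' q' := by
  constructor
  · rw [Set.disjoint_left]
    rintro z ⟨s, t, hs, ht, hst, rfl⟩ ⟨s', t', hs', ht', hst', he⟩
    have u1 := ncft_lt hs ht hst h1 h2 h5
    have u2 := ncft_ge hs' ht' hst' h3 h4
    have u3 := ncft_eq a b he
    linarith
  · rw [Set.disjoint_left]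
    rintro z ⟨s', t', hs', ht', hst', rfl⟩ ⟨s, t, hs, ht, hst, he⟩
    have u1 := ncft_le hs ht hst h1 h2
    have u2 := ncft_gt hs' ht' hst' h3 h4 h6
    have u3 := ncft_eq a b he
    linarith

/-- A vertex of a cell is far below the line of ports. -/
theorem ncft_cell {R M : ℕ} (hOK : OK R M) {p : Par} (G : Good R M p) (k r c : ℕ) (hk : k ≤ 15)
    (hv : inV R M (k, r, c)) (hr : r < R) :
    -(163 / 80) * (posT R p (k, r, c)).1 + 1 * (posT R p (k, r, c)).2 < 163 * R + 1 - 326 - 5 := by
  have hR := G.range (k, r, c) hk hv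
  have hr1 : (r : ℝ) + 1 ≤ R := by exact_mod_cast hr
  have h15 : k = 15 → (r : ℝ) + 2 ≤ R := by
    intro h
    subst h
    have : r + 2 ≤ R := by
      rcases hv with h | h | h | h | h
      · exact absurd h.1 (by norm_num)
      · exact absurd h.1 (by norm_num)
      · exact absurd h.2.1 (by norm_num)
      · have h1 := hOK.1
        have h2 : r % 2 = 0 := h.2.2.1
        omega
      · exact absurd h.1 (by norm_num)
    exact_mod_cast this
  have e : posT R p (k, r, c) = (80 * (c : ℝ) + 80 * ((R : ℝ) - r) + cx k,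
      163 * ((c : ℝ) + r) + p.h (k, r, c)) := by
    simp only [posT, hk, if_true]
  rw [e]
  interval_cases k <;> simp only [cx, hi, lo] at hR ⊢ <;> push_cast at hR ⊢ <;>
    first
      | linarith [hR.1, hR.2]
      | linarith [hR.1, hR.2, h15 rfl]

/-- The endpoints of a test edge are above the line of ports, up to 1. -/
theorem ncft_test {R M : ℕ} {p : Par} (G : Good R M p) (hM : M % 4 = 0) (i c : ℕ)
    (h1 : 19 ≤ i) (h2 : i ≤ 25) (hc : c < M) (hc4 : c % 4 = 0) :
    163 * R + 1 - 326 - 1 ≤ -(163 / 80) * (posT R p (eL i R c)).1 + 1 * (posT R p (eL i R c)).2 ∧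
    163 * R + 1 - 326 - 1 ≤ -(163 / 80) * (posT R p (eR i R c)).1 + 1 * (posT R p (eR i R c)).2 := by
  have hom := G.om
  have hp : ∀ j, j < 4 → 0 ≤ p.h (1, R, c + j) ∧ p.h (1, R, c + j) ≤ 4 := by
    intro j hj
    have := G.range (1, R, c + j) (by norm_num) (Or.inr (Or.inl ⟨rfl, le_rfl, by
      show c + j < M
      omega⟩))
    simpa [lo, hi] using this
  have h0 := hp 0 (by norm_num)
  have h1' := hp 1 (by norm_num)
  have h2' := hp 2 (by norm_num)
  have h3' := hp 3 (by norm_num)
  rw [Nat.add_zero] at h0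
  interval_cases i <;> simp [eL, eR, posT, cx] <;> constructor <;> nlinarith

/-- Coordinates relative to the line of ports. -/
noncomputable def ncftPt (x y a b : ℝ) : ℝ × ℝ := (x + a, y + 163 / 80 * a + b)

theorem ncft_pt_strict {x y a b a' b' c d c' d' : ℝ} (α β k : ℝ) (h1 : α * a + β * b < k)
    (h2 : α * a' + β * b' < k) (h3 : k ≤ α * c + β * d) (h4 : k ≤ α * c' + β * d') :
    NC (ncftPt x y a b) (ncftPt x y a' b') (ncftPt x y c d) (ncftPt x y c' d') := by
  refine ncft_strict (α - β * (163 / 80)) β (k + (α - β * (163 / 80)) * x + β * y) ?_ ?_ ?_ ?_ <;>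
    simp only [ncftPt] <;> ring_nf <;> ring_nf at h1 h2 h3 h4 <;> linarith

theorem ncft_pt_weak {x y a b a' b' c d c' d' : ℝ} (α β k : ℝ) (h1 : α * a + β * b ≤ k)
    (h2 : α * a' + β * b' ≤ k) (h3 : k ≤ α * c + β * d) (h4 : k ≤ α * c' + β * d')
    (h5 : α * a + β * b < k ∨ α * a' + β * b' < k)
    (h6 : k < α * c + β * d ∨ k < α * c' + β * d') :
    NC (ncftPt x y a b) (ncftPt x y a' b') (ncftPt x y c d) (ncftPt x y c' d') := by
  refine ncft_weak (α - β * (163 / 80)) β (k + (α - β * (163 / 80)) * x + β * y) ?_ ?_ ?_ ?_ ?_ ?_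
  · simp only [ncftPt]; ring_nf; ring_nf at h1; linarith
  · simp only [ncftPt]; ring_nf; ring_nf at h2; linarith
  · simp only [ncftPt]; ring_nf; ring_nf at h3; linarith
  · simp only [ncftPt]; ring_nf; ring_nf at h4; linarith
  · rcases h5 with h | h
    · left; simp only [ncftPt]; ring_nf; ring_nf at h; linarith
    · right; simp only [ncftPt]; ring_nf; ring_nf at h; linarith
  · rcases h6 with h | h
    · left; simp only [ncftPt]; ring_nf; ring_nf at h; linarith
    · right; simp only [ncftPt]; ring_nf; ring_nf at h; linarith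

/-- Columns of the test vertices. -/
theorem ncft_col {R M : ℕ} {p : Par} (G : Good R M p) (i c : ℕ) (h1 : 19 ≤ i) (h2 : i ≤ 25)
    (hc : c < M) (hc4 : c % 4 = 0) :
    (80 * (c : ℝ) + 160 ≤ (posT R p (eL i R c)).1 ∧ (posT R p (eL i R c)).1 ≤ 80 * (c : ℝ) + 400) ∧
    (80 * (c : ℝ) + 160 ≤ (posT R p (eR i R c)).1 ∧
      (posT R p (eR i R c)).1 ≤ 80 * (c : ℝ) + 400) := by
  have g1 := G.rw c hc hc4
  have g2 := G.rw' c hc hc4
  have g3 := G.ru c hc hc4
  interval_cases i <;> refine ⟨⟨?_, ?_⟩, ?_, ?_⟩ <;> simp [eL, eR, posT, cx] <;> linarith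

theorem ncft : SNcft := by
  intro R M hOK p G i r c i' r' c' h h' hi0 hi'
  obtain ⟨hi25, hr', hc', hc4⟩ : i' ≤ 25 ∧ r' = R ∧ c' < M ∧ c' % 4 = 0 := by
    rcases h' with h' | h' | h'
    · omega
    · omega
    · exact ⟨h'.2.1, h'.2.2.1, h'.2.2.2.1, h'.2.2.2.2⟩
  rw [hr']
  have hR2 := hOK.1
  have hM4 := hOK.2.2.1
  by_cases h9 : i = 9 ∧ r + 1 = R
  · obtain ⟨h9, hr1⟩ := h9
    subst h9
    have hc : c < M := by
      rcases h with h | h | h
      · exact h.2.2
      · omega
      · omega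
    have hr : r < R := by omega
    have hT := G.range (7, r, c) (by norm_num) (Or.inr (Or.inr (Or.inl ⟨by norm_num, by norm_num,
      hr, hc⟩)))
    simp only [lo, hi] at hT
    push_cast at hT
    have hRr : (R : ℝ) = r + 1 := by rw [← hr1]; push_cast; ring
    have hc9 := ncft_col G i' c' hi' hi25 hc' hc4
    show NC (posT R p (7, r, c)) (posT R p (1, r + 1, c)) _ _
    rcases Nat.lt_or_ge c c' with hlt | hge
    · have hlt' : (c : ℝ) + 1 ≤ c' := by exact_mod_cast hlt
      refine ncft_strict 1 0 (80 * (c' : ℝ) + 160) ?_ ?_ ?_ ?_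
      · simp [posT, cx]; linarith
      · simp [posT, cx]; linarith
      · linarith [hc9.1.1]
      · linarith [hc9.2.1]
    rcases Nat.lt_or_ge c (c' + 4) with hlt4 | hge4
    swap
    · have hge' : (c' : ℝ) + 4 ≤ c := by exact_mod_cast hge4
      refine ncft_strict (-1) 0 (-(80 * (c' : ℝ) + 400)) ?_ ?_ ?_ ?_
      · simp [posT, cx]; linarith
      · simp [posT, cx]; linarith
      · linarith [hc9.1.2]
      · linarith [hc9.2.2]
    obtain ⟨j, hj, rfl⟩ : ∃ j, j < 4 ∧ c = c' + j := ⟨c - c', by omega, by omega⟩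
    have hp : ∀ j, j < 4 → 0 ≤ p.h (1, R, c' + j) ∧ p.h (1, R, c' + j) ≤ 4 := by
      intro j hj
      have := G.range (1, R, c' + j) (by norm_num) (Or.inr (Or.inl ⟨rfl, le_rfl, by
        show c' + j < M
        omega⟩))
      simpa [lo, hi] using this
    have e0 := hp 0 (by norm_num)
    have e1 := hp 1 (by norm_num)
    have e2 := hp 2 (by norm_num)
    have e3 := hp 3 (by norm_num)
    rw [Nat.add_zero] at e0
    have om := G.om
    have w1 := G.rw c' hc' hc4
    have w2 := G.rw' c' hc' hc4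
    have w3 := G.ru c' hc' hc4
    have w4 := G.wu c' hc' hc4
    have w5 := G.uw c' hc' hc4
    have tA := G.tA c' hc' hc4
    have tC := G.tC c' hc' hc4
    have pT : posT R p (7, r, c' + j) = ncftPt (80 * (c' : ℝ) + 160) (163 * ((c' : ℝ) + R) + 1)
        (80 * j - 14) (p.h (7, r, c' + j) - 135 - 19 / 40) := by
      simp only [posT, cx, ncftPt]
      rw [if_pos (by norm_num), hRr]
      ext
      · push_cast; ring
      · push_cast; ring
    have pP : ∀ j : ℕ, posT R p (1, R, c' + j) = ncftPt (80 * (c' : ℝ) + 160)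
        (163 * ((c' : ℝ) + R) + 1) (80 * j) (p.h (1, R, c' + j) - 1) := by
      intro j
      simp only [posT, cx, ncftPt]
      rw [if_pos (by norm_num)]
      ext
      · push_cast; ring
      · push_cast; ring
    have p0 : posT R p (1, R, c') = ncftPt (80 * (c' : ℝ) + 160)
        (163 * ((c' : ℝ) + R) + 1) 0 (p.h (1, R, c') - 1) := by
      have := pP 0
      simpa using this
    have p16 : posT R p (16, R, c') = ncftPt (80 * (c' : ℝ) + 160)
        (163 * ((c' : ℝ) + R) + 1) (p.w c') p.ω := by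
      simp [posT, ncftPt]
    have p17 : posT R p (17, R, c') = ncftPt (80 * (c' : ℝ) + 160)
        (163 * ((c' : ℝ) + R) + 1) (p.w' c') p.ω := by
      simp [posT, ncftPt]
    have p18 : posT R p (18, R, c') = ncftPt (80 * (c' : ℝ) + 160)
        (163 * ((c' : ℝ) + R) + 1) (p.u c') 9 := by
      simp [posT, ncftPt]
    have p19 : posT R p (19, R, c') = ncftPt (80 * (c' : ℝ) + 160)
        (163 * ((c' : ℝ) + R) + 1) 80 5 := by
      simp [posT, ncftPt]; try norm_num
    have p20 : posT R p (20, R, c') = ncftPt (80 * (c' : ℝ) + 160)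
        (163 * ((c' : ℝ) + R) + 1) 160 5 := by
      simp [posT, ncftPt]; try norm_num
    have q1 := pP 1
    have q2 := pP 2
    have q3 := pP 3
    rw [hr1, pT, pP j]
    generalize p.h (7, r, c' + j) = hT0 at hT
    interval_cases j
    · -- port A
      rw [Nat.add_zero]
      interval_cases i'
      · show NC _ _ (posT R p (1, R, c')) (posT R p (1, R, c' + 1))
        rw [p0, q1]
        refine ncft_pt_weak 1 0 0 ?_ ?_ ?_ ?_ (Or.inl ?_) (Or.inr ?_) <;> push_cast <;> linarith
      · show NC _ _ (posT R p (1, R, c' + 2)) (posT R p (1, R, c' + 3))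
        rw [q2, q3]
        refine ncft_pt_weak 1 0 0 ?_ ?_ ?_ ?_ (Or.inl ?_) (Or.inr ?_) <;> push_cast <;> linarith
      · show NC _ _ (posT R p (19, R, c')) (posT R p (20, R, c'))
        rw [p19, p20]
        refine ncft_pt_weak 1 0 0 ?_ ?_ ?_ ?_ (Or.inl ?_) (Or.inr ?_) <;> push_cast <;> linarith
      · show NC _ _ (posT R p (19, R, c')) (posT R p (1, R, c' + 2))
        rw [p19, q2]
        refine ncft_pt_weak 1 0 0 ?_ ?_ ?_ ?_ (Or.inl ?_) (Or.inr ?_) <;> push_cast <;> linarith
      · show NC _ _ (posT R p (16, R, c')) (posT R p (18, R, c'))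
        rw [p16, p18]
        refine ncft_pt_weak 1 0 0 ?_ ?_ ?_ ?_ (Or.inl ?_) (Or.inr ?_) <;> push_cast <;> linarith
      · show NC _ _ (posT R p (18, R, c')) (posT R p (17, R, c'))
        rw [p18, p17]
        refine ncft_pt_weak 1 0 0 ?_ ?_ ?_ ?_ (Or.inl ?_) (Or.inr ?_) <;> push_cast <;> linarith
      · show NC _ _ (posT R p (18, R, c')) (posT R p (20, R, c'))
        rw [p18, p20]
        refine ncft_pt_weak 1 0 0 ?_ ?_ ?_ ?_ (Or.inl ?_) (Or.inr ?_) <;> push_cast <;> linarith
    · -- port B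
      interval_cases i'
      · show NC _ _ (posT R p (1, R, c')) (posT R p (1, R, c' + 1))
        rw [p0, q1]
        refine ncft_pt_weak (-1) 10 (-80 + 10 * (p.h (1, R, c' + 1) - 1)) ?_ ?_ ?_ ?_ (Or.inl ?_)
          (Or.inl ?_) <;> push_cast <;> linarith
      · show NC _ _ (posT R p (1, R, c' + 2)) (posT R p (1, R, c' + 3))
        rw [q2, q3]
        refine ncft_pt_strict 1 0 100 ?_ ?_ ?_ ?_ <;> push_cast <;> linarith
      · show NC _ _ (posT R p (19, R, c')) (posT R p (20, R, c'))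
        rw [p19, p20]
        refine ncft_pt_strict 0 1 4 ?_ ?_ ?_ ?_ <;> push_cast <;> linarith
      · show NC _ _ (posT R p (19, R, c')) (posT R p (1, R, c' + 2))
        rw [p19, q2]
        refine ncft_pt_strict 1 1 84 ?_ ?_ ?_ ?_ <;> push_cast <;> linarith
      · show NC _ _ (posT R p (16, R, c')) (posT R p (18, R, c'))
        rw [p16, p18]
        have m1 : 0 ≤ (p.u c' - 80) * p.h (1, R, c') := mul_nonneg (by linarith [w3.1]) e0.1
        have m2 : 0 ≤ p.u c' * (4 - p.h (1, R, c' + 1)) :=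
          mul_nonneg (by linarith [w3.1]) (by linarith [e1.2])
        refine ncft_pt_weak (p.h (1, R, c') - p.h (1, R, c' + 1)) 80
          (80 * (p.h (1, R, c') - 1)) ?_ ?_ ?_ ?_ (Or.inl ?_) (Or.inl ?_) <;> push_cast <;>
          nlinarith
      · show NC _ _ (posT R p (18, R, c')) (posT R p (17, R, c'))
        rw [p18, p17]
        refine ncft_pt_weak 1 0 80 ?_ ?_ ?_ ?_ (Or.inl ?_) (Or.inr ?_) <;> push_cast <;> linarith
      · show NC _ _ (posT R p (18, R, c')) (posT R p (20, R, c'))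
        rw [p18, p20]
        refine ncft_pt_weak 1 0 80 ?_ ?_ ?_ ?_ (Or.inl ?_) (Or.inr ?_) <;> push_cast <;> linarith
    · -- port C
      interval_cases i'
      · show NC _ _ (posT R p (1, R, c')) (posT R p (1, R, c' + 1))
        rw [p0, q1]
        refine ncft_pt_strict (-1) 0 (-100) ?_ ?_ ?_ ?_ <;> push_cast <;> linarith
      · show NC _ _ (posT R p (1, R, c' + 2)) (posT R p (1, R, c' + 3))
        rw [q2, q3]
        refine ncft_pt_weak 1 0 160 ?_ ?_ ?_ ?_ (Or.inl ?_) (Or.inr ?_) <;> push_cast <;> linarith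
      · show NC _ _ (posT R p (19, R, c')) (posT R p (20, R, c'))
        rw [p19, p20]
        refine ncft_pt_strict 0 1 4 ?_ ?_ ?_ ?_ <;> push_cast <;> linarith
      · show NC _ _ (posT R p (19, R, c')) (posT R p (1, R, c' + 2))
        rw [p19, q2]
        refine ncft_pt_weak 0 1 (p.h (1, R, c' + 2) - 1) ?_ ?_ ?_ ?_ (Or.inl ?_)
          (Or.inl ?_) <;> push_cast <;> linarith
      · show NC _ _ (posT R p (16, R, c')) (posT R p (18, R, c'))
        rw [p16, p18]
        refine ncft_pt_strict (-1) 20 (-80) ?_ ?_ ?_ ?_ <;> push_cast <;> linarith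
      · show NC _ _ (posT R p (18, R, c')) (posT R p (17, R, c'))
        rw [p18, p17]
        have m1 : 0 ≤ (p.w' c' - p.u c') * (3 - (p.h (1, R, c' + 2) - 1)) :=
          mul_nonneg (by linarith [w3.2, w2.1]) (by linarith [e2.2])
        have m2 : 0 ≤ (p.w' c' - p.u c') * (-12 - (hT0 - 135 - 19 / 40)) :=
          mul_nonneg (by linarith [w3.2, w2.1]) (by linarith [hT.2])
        have m3 : 0 ≤ (160 - p.u c') * (p.ω - 1) :=
          mul_nonneg (by linarith [w3.2]) (by linarith [om.1])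
        refine ncft_pt_strict (9 - p.ω) (p.w' c' - p.u c') (9 * p.w' c' - p.ω * p.u c')
          ?_ ?_ ?_ ?_ <;> push_cast <;> nlinarith
      · show NC _ _ (posT R p (18, R, c')) (posT R p (20, R, c'))
        rw [p18, p20]
        refine ncft_pt_strict 0 1 4 ?_ ?_ ?_ ?_ <;> push_cast <;> linarith
    · -- port D
      interval_cases i'
      · show NC _ _ (posT R p (1, R, c')) (posT R p (1, R, c' + 1))
        rw [p0, q1]
        refine ncft_pt_strict (-1) 0 (-200) ?_ ?_ ?_ ?_ <;> push_cast <;> linarith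
      · show NC _ _ (posT R p (1, R, c' + 2)) (posT R p (1, R, c' + 3))
        rw [q2, q3]
        refine ncft_pt_weak (-1) 10 (-240 + 10 * (p.h (1, R, c' + 3) - 1)) ?_ ?_ ?_ ?_ (Or.inl ?_)
          (Or.inl ?_) <;> push_cast <;> linarith
      · show NC _ _ (posT R p (19, R, c')) (posT R p (20, R, c'))
        rw [p19, p20]
        refine ncft_pt_strict (-1) 0 (-200) ?_ ?_ ?_ ?_ <;> push_cast <;> linarith
      · show NC _ _ (posT R p (19, R, c')) (posT R p (1, R, c' + 2))
        rw [p19, q2]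
        refine ncft_pt_strict (-1) 0 (-200) ?_ ?_ ?_ ?_ <;> push_cast <;> linarith
      · show NC _ _ (posT R p (16, R, c')) (posT R p (18, R, c'))
        rw [p16, p18]
        refine ncft_pt_strict (-1) 0 (-200) ?_ ?_ ?_ ?_ <;> push_cast <;> linarith
      · show NC _ _ (posT R p (18, R, c')) (posT R p (17, R, c'))
        rw [p18, p17]
        have m1 : 0 ≤ (160 - p.u c') * p.h (1, R, c' + 3) :=
          mul_nonneg (by linarith [w3.2]) e3.1
        have m2 : 0 ≤ (240 - p.u c') * (4 - p.h (1, R, c' + 2)) :=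
          mul_nonneg (by linarith [w3.2]) (by linarith [e2.2])
        refine ncft_pt_weak (p.h (1, R, c' + 2) - p.h (1, R, c' + 3)) 80
          (240 * (p.h (1, R, c' + 2) - 1) - 160 * (p.h (1, R, c' + 3) - 1)) ?_ ?_ ?_ ?_
          (Or.inl ?_) (Or.inl ?_) <;> push_cast <;> nlinarith
      · show NC _ _ (posT R p (18, R, c')) (posT R p (20, R, c'))
        rw [p18, p20]
        refine ncft_pt_strict (-1) 0 (-200) ?_ ?_ ?_ ?_ <;> push_cast <;> linarith
  · have hL : (-(163 / 80) * (posT R p (eL i r c)).1 + 1 * (posT R p (eL i r c)).2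
          < 163 * R + 1 - 326 - 5) ∧ (-(163 / 80) * (posT R p (eR i r c)).1 +
          1 * (posT R p (eR i r c)).2 < 163 * R + 1 - 326 - 5) := by
      rcases h with h | h | h
      · obtain ⟨h1, h2, h3⟩ := h
        interval_cases i <;> exact ⟨ncft_cell hOK G _ _ _ (by norm_num) (by simp [inV]; omega)
          (by omega), ncft_cell hOK G _ _ _ (by norm_num) (by simp [inV]; omega) (by omega)⟩
      · obtain ⟨h1, h2, h3, h4⟩ := h
        rcases h1 with rfl | rfl
        · exact ⟨ncft_cell hOK G _ _ _ (by norm_num) (by simp [inV]; omega)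
            (by omega), ncft_cell hOK G _ _ _ (by norm_num) (by simp [inV]; omega) (by omega)⟩
        · exact ⟨ncft_cell hOK G _ _ _ (by norm_num) (by simp [inV]; omega)
            (by omega), ncft_cell hOK G _ _ _ (by norm_num) (by simp [inV]; omega) (by omega)⟩
      · omega
    have hT := ncft_test G hM4 i' c' hi' hi25 hc' hc4
    exact ncft_strict _ _ _ hL.1 hL.2 (by linarith [hT.1]) (by linarith [hT.2])

end Pool.Agent.SegDraw
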