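import Pool.Agent.Lib_helper69.Seg.Stmts

/-!
# Two edges of tests do not cross
-/

set_option autoImplicit false

namespace Pool.Agent.SegDraw

open Pool.Agent.Poly

/-! ### Separation by an affine functional -/

/-- affine functionals -/
def nct_aff (f : ℝ × ℝ → ℝ) : Prop :=
  ∀ (a b : ℝ) (x y : ℝ × ℝ), a + b = 1 → f (a • x + b • y) = a * f x + b * f y

theorem nct_symm {p q p' q' : ℝ × ℝ} (h : NC p q p' q') : NC p' q' p q := ⟨h.2, h.1⟩

theorem nct_sepA {f : ℝ × ℝ → ℝ} (hf : nct_aff f) {p q p' q' : ℝ × ℝ} (h1 : f p ≤ 0)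
    (h2 : f q ≤ 0) (h3 : f p < 0 ∨ f q < 0) (h4 : 0 ≤ f p') (h5 : 0 ≤ f q')
    (h6 : 0 < f p' ∨ 0 < f q') : NC p q p' q' := by
  constructor
  · rw [Set.disjoint_left]
    rintro z ⟨a, b, ha, hb, hab, rfl⟩ ⟨a', b', ha', hb', hab', he⟩
    have e1 := hf a b p q hab
    have e2 := hf a' b' p' q' hab'
    rw [he, e1] at e2
    have e3 : 0 ≤ a' * f p' + b' * f q' := add_nonneg (mul_nonneg ha' h4) (mul_nonneg hb' h5)
    have e4 : a * f p + b * f q < 0 := by
      rcases h3 with h | h
      · have := mul_neg_of_pos_of_neg ha h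
        have := mul_nonpos_of_nonneg_of_nonpos hb.le h2
        linarith
      · have := mul_neg_of_pos_of_neg hb h
        have := mul_nonpos_of_nonneg_of_nonpos ha.le h1
        linarith
    linarith
  · rw [Set.disjoint_left]
    rintro z ⟨a, b, ha, hb, hab, rfl⟩ ⟨a', b', ha', hb', hab', he⟩
    have e1 := hf a b p' q' hab
    have e2 := hf a' b' p q hab'
    rw [he, e1] at e2
    have e3 : a' * f p + b' * f q ≤ 0 :=
      add_nonpos (mul_nonpos_of_nonneg_of_nonpos ha' h1) (mul_nonpos_of_nonneg_of_nonpos hb' h2)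
    have e4 : 0 < a * f p' + b * f q' := by
      rcases h6 with h | h
      · have := mul_pos ha h
        have := mul_nonneg hb.le h5
        linarith
      · have := mul_pos hb h
        have := mul_nonneg ha.le h4
        linarith
    linarith

theorem nct_sepB {f : ℝ × ℝ → ℝ} (hf : nct_aff f) {p q p' q' : ℝ × ℝ} (h1 : f p ≤ 0)
    (h2 : f q ≤ 0) (h4 : 0 < f p') (h5 : 0 < f q') : NC p q p' q' := by
  have key : ∀ {a' b' : ℝ}, 0 ≤ a' → 0 ≤ b' → a' + b' = 1 → 0 < a' * f p' + b' * f q' := by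
    intro a' b' ha' hb' hab'
    rcases ha'.lt_or_eq with h | h
    · have := mul_pos h h4
      have := mul_nonneg hb' h5.le
      linarith
    · have hb1 : b' = 1 := by linarith
      rw [← h, hb1]
      linarith
  constructor
  · rw [Set.disjoint_left]
    rintro z ⟨a, b, ha, hb, hab, rfl⟩ ⟨a', b', ha', hb', hab', he⟩
    have e1 := hf a b p q hab
    have e2 := hf a' b' p' q' hab'
    rw [he, e1] at e2
    have e3 := key ha' hb' hab'
    have := mul_nonpos_of_nonneg_of_nonpos ha.le h1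
    have := mul_nonpos_of_nonneg_of_nonpos hb.le h2
    linarith
  · rw [Set.disjoint_left]
    rintro z ⟨a, b, ha, hb, hab, rfl⟩ ⟨a', b', ha', hb', hab', he⟩
    have e1 := hf a b p' q' hab
    have e2 := hf a' b' p q hab'
    rw [he, e1] at e2
    have e3 := key ha.le hb.le hab
    have := mul_nonpos_of_nonneg_of_nonpos ha' h1
    have := mul_nonpos_of_nonneg_of_nonpos hb' h2
    linarith

/-! ### Local coordinates of a test -/

/-- the point at horizontal distance `x` from the port `A` and at height `y` above the line of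
ports -/
noncomputable def nct_loc (R c : ℕ) (x y : ℝ) : ℝ × ℝ :=
  (80 * (c : ℝ) + 160 + x, 163 * ((c : ℝ) + R) + 1 + 163 / 80 * x + y)

/-- affine functional in local coordinates -/
noncomputable def nct_f (R c : ℕ) (α β γ : ℝ) (z : ℝ × ℝ) : ℝ :=
  α * (z.1 - (80 * (c : ℝ) + 160)) +
    β * (z.2 - (163 * ((c : ℝ) + R) + 1) - 163 / 80 * (z.1 - (80 * (c : ℝ) + 160))) + γ

theorem nct_f_aff (R c : ℕ) (α β γ : ℝ) : nct_aff (nct_f R c α β γ) := by
  intro a b x y hab
  have hb : b = 1 - a := by linarith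
  subst hb
  simp only [nct_f, Prod.fst_add, Prod.snd_add, Prod.smul_fst, Prod.smul_snd, smul_eq_mul]
  ring

theorem nct_f_loc (R c : ℕ) (α β γ x y : ℝ) :
    nct_f R c α β γ (nct_loc R c x y) = α * x + β * y + γ := by
  simp only [nct_f, nct_loc]
  ring

theorem nct_locA (R c : ℕ) (α β γ : ℝ) {x1 y1 x2 y2 x3 y3 x4 y4 : ℝ}
    (h1 : α * x1 + β * y1 + γ ≤ 0) (h2 : α * x2 + β * y2 + γ ≤ 0)
    (h3 : α * x1 + β * y1 + γ < 0 ∨ α * x2 + β * y2 + γ < 0)
    (h4 : 0 ≤ α * x3 + β * y3 + γ) (h5 : 0 ≤ α * x4 + β * y4 + γ)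
    (h6 : 0 < α * x3 + β * y3 + γ ∨ 0 < α * x4 + β * y4 + γ) :
    NC (nct_loc R c x1 y1) (nct_loc R c x2 y2) (nct_loc R c x3 y3) (nct_loc R c x4 y4) := by
  refine nct_sepA (nct_f_aff R c α β γ) ?_ ?_ ?_ ?_ ?_ ?_
  · rw [nct_f_loc]; exact h1
  · rw [nct_f_loc]; exact h2
  · rw [nct_f_loc, nct_f_loc]; exact h3
  · rw [nct_f_loc]; exact h4
  · rw [nct_f_loc]; exact h5
  · rw [nct_f_loc, nct_f_loc]; exact h6

theorem nct_locB (R c : ℕ) (α β γ : ℝ) {x1 y1 x2 y2 x3 y3 x4 y4 : ℝ}
    (h1 : α * x1 + β * y1 + γ ≤ 0) (h2 : α * x2 + β * y2 + γ ≤ 0)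
    (h4 : 0 < α * x3 + β * y3 + γ) (h5 : 0 < α * x4 + β * y4 + γ) :
    NC (nct_loc R c x1 y1) (nct_loc R c x2 y2) (nct_loc R c x3 y3) (nct_loc R c x4 y4) := by
  refine nct_sepB (nct_f_aff R c α β γ) ?_ ?_ ?_ ?_
  · rw [nct_f_loc]; exact h1
  · rw [nct_f_loc]; exact h2
  · rw [nct_f_loc]; exact h4
  · rw [nct_f_loc]; exact h5

/-- different tests -/
theorem nct_far {R c c' : ℕ} (h : c + 4 ≤ c') {x1 y1 x2 y2 x3 y3 x4 y4 : ℝ}
    (h1 : x1 ≤ 240) (h2 : x2 ≤ 240) (h3 : 0 ≤ x3) (h4 : 0 ≤ x4) :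
    NC (nct_loc R c x1 y1) (nct_loc R c x2 y2) (nct_loc R c' x3 y3) (nct_loc R c' x4 y4) := by
  have hc : (c : ℝ) + 4 ≤ c' := by exact_mod_cast h
  refine nct_sepB (nct_f_aff R c 1 0 (-280)) ?_ ?_ ?_ ?_
  · rw [nct_f_loc]; linarith
  · rw [nct_f_loc]; linarith
  · simp only [nct_f, nct_loc]; linarith
  · simp only [nct_f, nct_loc]; linarith

/-! ### The vertices of a test -/

theorem nct_port0 (R c : ℕ) (p : Par) :
    posT R p (1, R, c) = nct_loc R c 0 (p.h (1, R, c) - 1) := by
  simp only [posT, nct_loc, cx]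
  norm_num

theorem nct_port1 (R c : ℕ) (p : Par) :
    posT R p (1, R, c + 1) = nct_loc R c 80 (p.h (1, R, c + 1) - 1) := by
  simp only [posT, nct_loc, cx]
  norm_num
  constructor <;> ring

theorem nct_port2 (R c : ℕ) (p : Par) :
    posT R p (1, R, c + 2) = nct_loc R c 160 (p.h (1, R, c + 2) - 1) := by
  simp only [posT, nct_loc, cx]
  norm_num
  constructor <;> ring

theorem nct_port3 (R c : ℕ) (p : Par) :
    posT R p (1, R, c + 3) = nct_loc R c 240 (p.h (1, R, c + 3) - 1) := by
  simp only [posT, nct_loc, cx]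
  norm_num
  constructor <;> ring

theorem nct_W (R c : ℕ) (p : Par) : posT R p (16, R, c) = nct_loc R c (p.w c) p.ω := by
  simp only [posT, nct_loc]
  norm_num

theorem nct_W' (R c : ℕ) (p : Par) : posT R p (17, R, c) = nct_loc R c (p.w' c) p.ω := by
  simp only [posT, nct_loc]
  norm_num

theorem nct_V (R c : ℕ) (p : Par) : posT R p (18, R, c) = nct_loc R c (p.u c) 9 := by
  simp only [posT, nct_loc]
  norm_num

theorem nct_GA (R c : ℕ) (p : Par) : posT R p (19, R, c) = nct_loc R c 80 5 := by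
  simp only [posT, nct_loc]
  norm_num

theorem nct_GB (R c : ℕ) (p : Par) : posT R p (20, R, c) = nct_loc R c 160 5 := by
  simp only [posT, nct_loc]
  norm_num

set_option maxHeartbeats 4000000 in
/-- two edges of the same test -/
theorem nct_lt {R M : ℕ} (hOK : OK R M) {p : Par} (hp : Good R M p) {c : ℕ} (hc : c < M)
    (h4 : c % 4 = 0) {i i' : ℕ} (hi : 19 ≤ i) (hii : i < i') (hi' : i' ≤ 25) :
    NC (posT R p (eL i R c)) (posT R p (eR i R c)) (posT R p (eL i' R c))
      (posT R p (eR i' R c)) := by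
  obtain ⟨hR, hR0, hM, hM0⟩ := hOK
  have hin : ∀ j, j ≤ 3 → inV R M (1, R, c + j) := by
    intro j hj
    right; left
    refine ⟨rfl, le_refl _, ?_⟩
    simp only
    omega
  have hr : ∀ j, j ≤ 3 → -1 ≤ p.h (1, R, c + j) - 1 ∧ p.h (1, R, c + j) - 1 ≤ 3 := by
    intro j hj
    have := hp.range (1, R, c + j) (by norm_num) (hin j hj)
    simp only [lo, show SegDraw.hi 1 = 4 from rfl] at this
    norm_num at this
    exact ⟨by linarith [this.1], by linarith [this.2]⟩
  obtain ⟨a0, a1⟩ := hr 0 (by norm_num)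
  obtain ⟨b0, b1⟩ := hr 1 (by norm_num)
  obtain ⟨d0, d1⟩ := hr 2 (by norm_num)
  obtain ⟨e0, e1⟩ := hr 3 (by norm_num)
  clear hin hr
  obtain ⟨ho1, ho4⟩ := hp.om
  obtain ⟨hw0, hw1⟩ := hp.rw c hc h4
  obtain ⟨hv0, hv1⟩ := hp.rw' c hc h4
  obtain ⟨hu0, hu1⟩ := hp.ru c hc h4
  have hwu := hp.wu c hc h4
  have huw := hp.uw c hc h4
  have htA := hp.tA c hc h4
  have htC := hp.tC c hc h4
  have hi24 : i ≤ 24 := by omega
  simp only [add_zero] at a0 a1
  interval_cases i <;> interval_cases i' <;> simp only [eL, eR] <;>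
    simp only [nct_port0 R c p, nct_port1 R c p, nct_port2 R c p, nct_port3 R c p, nct_W R c p,
      nct_W' R c p, nct_V R c p, nct_GA R c p, nct_GB R c p]
  all_goals
    clear hii hi' hi hi24
    generalize p.h (1, R, c) - 1 = a at *
    generalize p.h (1, R, c + 1) - 1 = b at *
    generalize p.h (1, R, c + 2) - 1 = d at *
    generalize p.h (1, R, c + 3) - 1 = e at *
    generalize p.w c = w at *
    generalize p.w' c = v at *
    generalize p.u c = u at *
    generalize p.ω = o at *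
    clear hp
  all_goals
    have o5 : 0 < 5 - o := by linarith
    have o1 : 0 ≤ o - 1 := by linarith
    have uw' : 0 < u - w := by linarith
    have vu' : 0 < v - u := by linarith
  · -- AB, CD
    exact nct_locB R c 1 0 (-120) (by linarith) (by linarith) (by linarith) (by linarith)
  · -- AB, GA GB
    exact nct_locB R c 0 1 (-4) (by linarith) (by linarith) (by linarith) (by linarith)
  · -- AB, GA C
    exact nct_locA R c 1 0 (-80) (by linarith) (by linarith) (Or.inl (by linarith))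
      (by linarith) (by linarith) (Or.inr (by linarith))
  · -- AB, WV
    have k := mul_nonneg (show 0 ≤ a - b + 4 by linarith) (show 0 ≤ u - 80 by linarith)
    exact nct_locB R c (a - b) 80 (-(80 * a)) (by linarith) (by linarith) (by linarith)
      (by linarith)
  · -- AB, VW'
    exact nct_locA R c 1 0 (-80) (by linarith) (by linarith) (Or.inl (by linarith))
      (by linarith) (by linarith) (Or.inr (by linarith))
  · -- AB, V GB
    exact nct_locA R c 1 0 (-80) (by linarith) (by linarith) (Or.inl (by linarith))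
      (by linarith) (by linarith) (Or.inr (by linarith))
  · -- CD, GA GB
    exact nct_locB R c 0 1 (-4) (by linarith) (by linarith) (by linarith) (by linarith)
  · -- CD, GA C
    exact nct_symm (nct_locA R c 1 0 (-160) (by linarith) (by linarith) (Or.inl (by linarith))
      (by linarith) (by linarith) (Or.inr (by linarith)))
  · -- CD, WV
    exact nct_symm (nct_locA R c 1 0 (-160) (by linarith) (by linarith) (Or.inl (by linarith))
      (by linarith) (by linarith) (Or.inr (by linarith)))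
  · -- CD, VW'
    have k := mul_nonneg (show 0 ≤ 4 - (d - e) by linarith) (show 0 ≤ 160 - u by linarith)
    exact nct_locB R c (d - e) 80 (-(80 * d) - 160 * (d - e)) (by linarith) (by linarith)
      (by linarith) (by linarith)
  · -- CD, V GB
    exact nct_locB R c 0 1 (-4) (by linarith) (by linarith) (by linarith) (by linarith)
  · -- GA GB, GA C
    exact nct_symm (nct_locA R c (1 / 80) 1 (-6) (by linarith) (by linarith)
      (Or.inr (by linarith)) (by linarith) (by linarith) (Or.inr (by linarith)))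
  · -- GA GB, WV
    have k1 := mul_pos o5 (show 0 < 160 - w - u by linarith)
    have k2 := mul_nonneg o1 (show 0 ≤ 80 - w by linarith)
    exact nct_symm (nct_locB R c (9 - o) (-(u - w)) (-(w * (9 - o)) + o * (u - w))
      (by linarith) (by linarith) (by linarith) (by linarith))
  · -- GA GB, VW'
    have k1 := mul_pos o5 (show 0 < u + v - 320 by linarith)
    have k2 := mul_nonneg o1 (show 0 ≤ v - 160 by linarith)
    exact nct_symm (nct_locB R c (-(9 - o)) (-(v - u)) (v * (9 - o) + o * (v - u))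
      (by linarith) (by linarith) (by linarith) (by linarith))
  · -- GA GB, V GB
    exact nct_locA R c (1 / 80) 1 (-7) (by linarith) (by linarith) (Or.inl (by linarith))
      (by linarith) (by linarith) (Or.inl (by linarith))
  · -- GA C, WV
    have k1 := mul_pos o5 (show 0 < 160 - w - u by linarith)
    have k2 := mul_nonneg o1 (show 0 ≤ 80 - w by linarith)
    have k3 := mul_nonneg (show 0 ≤ 3 - d by linarith) uw'.le
    exact nct_symm (nct_locB R c (9 - o) (-(u - w)) (-(w * (9 - o)) + o * (u - w))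
      (by linarith) (by linarith) (by linarith) (by linarith))
  · -- GA C, VW'
    have k1 := mul_pos o5 (show 0 < u + v - 320 by linarith)
    have k2 := mul_nonneg o1 (show 0 ≤ v - 160 by linarith)
    have k3 := mul_nonneg (show 0 ≤ 3 - d by linarith) vu'.le
    exact nct_symm (nct_locB R c (-(9 - o)) (-(v - u)) (v * (9 - o) + o * (v - u))
      (by linarith) (by linarith) (by linarith) (by linarith))
  · -- GA C, V GB
    exact nct_locA R c (1 / 80) 1 (-7) (by linarith) (by linarith) (Or.inl (by linarith))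
      (by linarith) (by linarith) (Or.inl (by linarith))
  · -- WV, VW'
    exact nct_locA R c 1 0 (-u) (by linarith) (by linarith) (Or.inl (by linarith))
      (by linarith) (by linarith) (Or.inr (by linarith))
  · -- WV, V GB
    exact nct_locA R c 1 0 (-u) (by linarith) (by linarith) (Or.inl (by linarith))
      (by linarith) (by linarith) (Or.inr (by linarith))
  · -- VW', V GB
    have k1 := mul_pos o5 (show 0 < u + v - 320 by linarith)
    have k2 := mul_nonneg o1 (show 0 ≤ v - 160 by linarith)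
    obtain ⟨K, hK⟩ : ∃ K, K = -(9 - o) * 160 + -(v - u) * 5 + (v * (9 - o) + o * (v - u)) :=
      ⟨_, rfl⟩
    have hk : 0 < K := by rw [hK]; linarith
    have k3 := mul_pos hk vu'
    have k4 := mul_pos hk (show 0 < u by linarith)
    exact nct_locA R c (-(9 - o) - K / 160) (-(v - u))
      (v * (9 - o) + o * (v - u) + K / 160 * u)
      (by linarith) (by linarith) (Or.inr (by linarith)) (by linarith) (by linarith)
      (Or.inr (by linarith))

/-- the endpoints of an edge of a test in local coordinates -/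
theorem nct_ends {R M : ℕ} {p : Par} (hp : Good R M p) {c : ℕ} (hc : c < M)
    (h4 : c % 4 = 0) {i : ℕ} (hi : 19 ≤ i) (hi' : i ≤ 25) :
    ∃ x1 y1 x2 y2 : ℝ, posT R p (eL i R c) = nct_loc R c x1 y1 ∧
      posT R p (eR i R c) = nct_loc R c x2 y2 ∧ 0 ≤ x1 ∧ x1 ≤ 240 ∧ 0 ≤ x2 ∧ x2 ≤ 240 := by
  obtain ⟨hw0, hw1⟩ := hp.rw c hc h4
  obtain ⟨hv0, hv1⟩ := hp.rw' c hc h4
  obtain ⟨hu0, hu1⟩ := hp.ru c hc h4
  interval_cases i <;> simp only [eL, eR]
  · exact ⟨_, _, _, _, nct_port0 R c p, nct_port1 R c p, by norm_num, by norm_num, by norm_num,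
      by norm_num⟩
  · exact ⟨_, _, _, _, nct_port2 R c p, nct_port3 R c p, by norm_num, by norm_num, by norm_num,
      by norm_num⟩
  · exact ⟨_, _, _, _, nct_GA R c p, nct_GB R c p, by norm_num, by norm_num, by norm_num,
      by norm_num⟩
  · exact ⟨_, _, _, _, nct_GA R c p, nct_port2 R c p, by norm_num, by norm_num, by norm_num,
      by norm_num⟩
  · exact ⟨_, _, _, _, nct_W R c p, nct_V R c p, by linarith, by linarith, by linarith,
      by linarith⟩
  · exact ⟨_, _, _, _, nct_V R c p, nct_W' R c p, by linarith, by linarith, by linarith,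
      by linarith⟩
  · exact ⟨_, _, _, _, nct_V R c p, nct_GB R c p, by linarith, by linarith, by norm_num,
      by norm_num⟩

theorem nct : SNct := by
  intro R M hOK p hp i r c i' r' c' hv hv' hi hi' hne
  have h1 : i ≤ 25 ∧ r = R ∧ c < M ∧ c % 4 = 0 := by
    rcases hv with h | h | h
    · omega
    · omega
    · exact ⟨h.2.1, h.2.2.1, h.2.2.2.1, h.2.2.2.2⟩
  have h2 : i' ≤ 25 ∧ r' = R ∧ c' < M ∧ c' % 4 = 0 := by
    rcases hv' with h | h | h
    · omega
    · omega
    · exact ⟨h.2.1, h.2.2.1, h.2.2.2.1, h.2.2.2.2⟩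
  obtain ⟨hi25, rfl, hc, hc4⟩ := h1
  obtain ⟨hi25', rfl, hc', hc4'⟩ := h2
  rcases lt_trichotomy c c' with h | rfl | h
  · obtain ⟨x1, y1, x2, y2, e1, e2, b1, b2, b3, b4⟩ := nct_ends hp hc hc4 hi hi25
    obtain ⟨x3, y3, x4, y4, e3, e4, b5, b6, b7, b8⟩ := nct_ends hp hc' hc4' hi' hi25'
    rw [e1, e2, e3, e4]
    exact nct_far (by omega) b2 b4 b5 b7
  · rcases lt_trichotomy i i' with h' | rfl | h'
    · exact nct_lt hOK hp hc hc4 hi h' hi25'
    · exact absurd ⟨rfl, rfl, rfl⟩ hne
    · exact nct_symm (nct_lt hOK hp hc hc4 hi' h' hi25)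
  · obtain ⟨x1, y1, x2, y2, e1, e2, b1, b2, b3, b4⟩ := nct_ends hp hc hc4 hi hi25
    obtain ⟨x3, y3, x4, y4, e3, e4, b5, b6, b7, b8⟩ := nct_ends hp hc' hc4' hi' hi25'
    rw [e1, e2, e3, e4]
    exact nct_symm (nct_far (by omega) b6 b8 b1 b3)

end Pool.Agent.SegDraw
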