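import Pool.Agent.Lib_helper69.Seg.Stmts

/-!
# Drawing a plane graph on assigned segments: good parameters from values of the variables
-/

set_option autoImplicit false

namespace Pool.Agent.SegDraw

open Pool.Agent.Poly Filter Topology

namespace ParAux

/-! ### Small positive numbers -/

theorem evlt {a b : ℝ} (k : ℝ) (h : a < b) : ∀ᶠ e in 𝓝[>] (0 : ℝ), a + e * k < b := by
  have hc : Tendsto (fun e : ℝ => a + e * k) (𝓝[>] (0 : ℝ)) (𝓝 (a + 0 * k)) := by
    apply Tendsto.mono_left _ nhdsWithin_le_nhds
    exact (tendsto_const_nhds.add (tendsto_id.mul_const k))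
  apply hc.eventually_lt_const
  simpa using h

theorem evpos : ∀ᶠ e in 𝓝[>] (0 : ℝ), 0 < e := eventually_mem_nhdsWithin

theorem evle : ∀ᶠ e in 𝓝[>] (0 : ℝ), e < 1 / 10 := by
  have := evlt (a := 0) (b := 1 / 10) 1 (by norm_num)
  simpa using this

theorem evfin {n : ℕ} {p : ℝ → ℕ → Prop} (h : ∀ i < n, ∀ᶠ e in 𝓝[>] (0 : ℝ), p e i) :
    ∀ᶠ e in 𝓝[>] (0 : ℝ), ∀ i < n, p e i := by
  have h2 := (Filter.eventually_all_finset (Finset.range n) (l := 𝓝[>] (0 : ℝ))
    (p := fun i e => p e i)).2 (fun i hi => h i (Finset.mem_range.1 hi))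
  exact h2.mono fun e he i hi => he i (Finset.mem_range.2 hi)

/-! ### Points on segments -/

theorem mem_vert (a b l u : ℕ) (x y : ℝ) (hx : x = a) (h1 : (b + l : ℝ) ≤ y)
    (h2 : y ≤ (b + u : ℝ)) : ((x, y) : ℝ × ℝ) ∈ (sg a (b + l) a (b + u)).pts := by
  subst hx
  simp only [Seg.pts, sg, if_true, toR]
  rw [segment_eq_image]
  rcases eq_or_lt_of_le (h1.trans h2) with h | h
  · refine ⟨0, ⟨le_rfl, zero_le_one⟩, ?_⟩
    ext
    · simp
    · have : y = b + l := le_antisymm (h2.trans_eq h.symm) h1
      simp [this]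
  · refine ⟨(y - (b + l)) / ((b + u) - (b + l)), ⟨?_, ?_⟩, ?_⟩
    · exact div_nonneg (by linarith) (by linarith)
    · rw [div_le_one (by linarith)]
      linarith
    · have h3 : ((b : ℝ) + u) - (b + l) ≠ 0 := by
        have := h
        intro h4
        linarith
      ext
      · simp only [Prod.fst_add, Prod.smul_fst, smul_eq_mul]
        push_cast
        ring
      · simp only [Prod.snd_add, Prod.smul_snd, smul_eq_mul]
        push_cast
        field_simp
        ring

theorem mem_sg (a b a' b' : ℕ) (t x y : ℝ) (h0 : 0 ≤ t) (h1 : t ≤ 1)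
    (hx : x = (1 - t) * a + t * a') (hy : y = (1 - t) * b + t * b') :
    ((x, y) : ℝ × ℝ) ∈ (sg a b a' b').pts := by
  simp only [Seg.pts, sg, if_true, toR]
  rw [segment_eq_image]
  refine ⟨t, ⟨h0, h1⟩, ?_⟩
  ext
  · simp [hx]
  · simp [hy]

/-! ### Bounds -/

variable {I : NF} {y : ℕ → ℝ}

theorem row_pos (hy : ∀ i, 0 < y i ∧ y i < 1) (r : ℕ) : 0 < rowVal y r := by
  unfold rowVal
  split_ifs
  · exact (hy _).1
  · linarith [(hy (r / 2)).2]

theorem row_lt (hy : ∀ i, 0 < y i ∧ y i < 1) (r : ℕ) : rowVal y r < 1 := by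
  unfold rowVal
  split_ifs
  · exact (hy _).2
  · linarith [(hy (r / 2)).1]

theorem bus_ge (hy : ∀ i, 0 < y i ∧ y i < 1) (c r : ℕ) : -1 ≤ busVal I y c r := by
  unfold busVal
  have h1 : 0 ≤ ∑ r' ∈ Finset.range r, if isAdd I r' c then rowVal y r' else 0 := by
    apply Finset.sum_nonneg
    intro i _
    split_ifs
    · exact (row_pos hy i).le
    · exact le_rfl
  split_ifs <;> linarith

theorem bus_lt (hI : NFok I) (hy : ∀ i, 0 < y i ∧ y i < 1) (c r : ℕ) : busVal I y c r < 3 := by
  unfold busVal
  have h1 : (∑ r' ∈ Finset.range r, if isAdd I r' c then rowVal y r' else 0) < 3 := by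
    rw [← Finset.sum_filter]
    have hc : ((Finset.range r).filter fun r' => isAdd I r' c = true).card ≤ 3 := by
      refine le_trans (Finset.card_le_card (t := (busOf I c).2.toFinset) ?_)
        ((List.toFinset_card_le _).trans (hI.2.2 c))
      intro a ha
      rw [Finset.mem_filter] at ha
      have := ha.2
      simp only [isAdd, decide_eq_true_eq] at this
      simpa using this
    rcases Finset.eq_empty_or_nonempty ((Finset.range r).filter fun r' => isAdd I r' c = true)
      with h | h
    · rw [h]
      simp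
    · calc (∑ a ∈ (Finset.range r).filter (fun r' => isAdd I r' c = true), rowVal y a)
          < ∑ a ∈ (Finset.range r).filter (fun r' => isAdd I r' c = true), (1 : ℝ) :=
            Finset.sum_lt_sum_of_nonempty h fun i _ => row_lt hy i
        _ = (((Finset.range r).filter fun r' => isAdd I r' c = true).card : ℝ) := by simp
        _ ≤ 3 := by exact_mod_cast hc
  split_ifs <;> linarith

theorem bus_succ (c r : ℕ) : busVal I y c (r + 1) =
    busVal I y c r + if isAdd I r c then rowVal y r else 0 := by
  unfold busVal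
  rw [Finset.sum_range_succ]
  ring

/-! ### The parameters -/

/-- The slope of the height of `X (r, c)`. -/
def kx (c : ℕ) : ℝ := 1 + 8 * c

/-- The slope of the height of `Y (r, c)`. -/
def ky (I : NF) (c r : ℕ) : ℝ :=
  ∑ r' ∈ Finset.range r, ((if isAdd I r' c then kx c else 0) + 8)

theorem ky_succ (c r : ℕ) : ky I c (r + 1) = ky I c r + ((if isAdd I r c then kx c else 0) + 8) := by
  unfold ky
  rw [Finset.sum_range_succ]

theorem ky_nonneg (c r : ℕ) : 0 ≤ ky I c r := by
  unfold ky
  apply Finset.sum_nonneg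
  intro i _
  have : 0 ≤ kx c := by unfold kx; positivity
  split_ifs <;> linarith

/-- The value of `X`. -/
def vx (y : ℕ → ℝ) (e : ℝ) (r c : ℕ) : ℝ := rowVal y r + e * kx c

/-- The value of `Y`. -/
noncomputable def vy (I : NF) (y : ℕ → ℝ) (e : ℝ) (r c : ℕ) : ℝ := busVal I y c r + e * ky I c r

/-- The value of `S`. -/
noncomputable def vs (I : NF) (y : ℕ → ℝ) (e : ℝ) (r c : ℕ) : ℝ :=
  (vx y e r c + vy I y e r c) / 2 + e

/-- The value of `P`. -/
noncomputable def vp (I : NF) (y : ℕ → ℝ) (e : ℝ) (r c : ℕ) : ℝ :=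
  if isAdd I r c then 100 else 100 - 3 / 2 * vx y e r c + e

/-- The value of `Q`. -/
noncomputable def vq (I : NF) (y : ℕ → ℝ) (e : ℝ) (r c : ℕ) : ℝ :=
  100 - 3 / 2 * vy I y e r c + e

/-- The value of `Z1`. -/
noncomputable def vz1 (I : NF) (y : ℕ → ℝ) (e : ℝ) (r c : ℕ) : ℝ :=
  3 / 4 * vs I y e r c + vp I y e r c / 4 + e

/-- The value of `Z2`. -/
noncomputable def vz2 (I : NF) (y : ℕ → ℝ) (e : ℝ) (r c : ℕ) : ℝ :=
  3 / 4 * vs I y e r c + vq I y e r c / 4 + e

/-- The heights. -/
noncomputable def hh (I : NF) (y : ℕ → ℝ) (e : ℝ) : TV → ℝ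
  | (0, r, c) => 1 + vx y e r c
  | (1, r, c) => 1 + vy I y e r c
  | (2, r, c) => 1 + vp I y e r c
  | (3, r, c) => 1 + vs I y e r c
  | (4, r, c) => 1 + vq I y e r c
  | (5, r, c) => 1 + vz1 I y e r c
  | (6, r, c) => 1 + vz2 I y e r c
  | (7, r, c) => 172 - 2 * vz1 I y e r c - e
  | (8, r, c) => 172 - 2 * vz2 I y e r c - e
  | (k, _, _) => lo k

theorem hh_big (e : ℝ) (v : TV) (h : 9 ≤ v.1) : hh I y e v = lo v.1 := by
  obtain ⟨k, r, c⟩ := v
  rcases k with _ | _ | _ | _ | _ | _ | _ | _ | _ | k
  all_goals first | (exfalso; simp at h; done) | rfl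

/-- The conditions on the small number. -/
structure Small (I : NF) (y : ℕ → ℝ) (e : ℝ) : Prop where
  pos : 0 < e
  lt : e < 1 / 10
  x : ∀ r < nR I, ∀ c < nM I + 1, rowVal y r + e * (kx c + 3) < 1
  y : ∀ r < nR I + 1, ∀ c < nM I, busVal I y c r + e * (ky I c r + 3) < 3

theorem ev_small (hI : NFok I) (hy : ∀ i, 0 < y i ∧ y i < 1) :
    ∀ᶠ e in 𝓝[>] (0 : ℝ), Small I y e := by
  have h1 : ∀ᶠ e in 𝓝[>] (0 : ℝ), ∀ r < nR I, ∀ c < nM I + 1,
      rowVal y r + e * (kx c + 3) < 1 :=
    evfin fun r _ => evfin fun c _ => evlt _ (row_lt hy r)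
  have h2 : ∀ᶠ e in 𝓝[>] (0 : ℝ), ∀ r < nR I + 1, ∀ c < nM I,
      busVal I y c r + e * (ky I c r + 3) < 3 :=
    evfin fun r _ => evfin fun c _ => evlt _ (bus_lt hI hy c r)
  filter_upwards [evpos, evle, h1, h2] with e a b c d
  exact ⟨a, b, c, d⟩

variable {e : ℝ}

theorem vx_lt (hs : Small I y e) {r c : ℕ} (hr : r < nR I) (hc : c ≤ nM I) :
    vx y e r c + 3 * e < 1 := by
  have := hs.x r hr c (by omega)
  unfold vx
  linarith

theorem vx_pos (hs : Small I y e) (hy : ∀ i, 0 < y i ∧ y i < 1) (r c : ℕ) : 0 < vx y e r c := by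
  have h1 := row_pos hy r
  have h2 : 0 ≤ kx c := by unfold kx; positivity
  have h3 := mul_nonneg hs.pos.le h2
  unfold vx
  linarith

theorem vy_lt (hs : Small I y e) {r c : ℕ} (hr : r ≤ nR I) (hc : c < nM I) :
    vy I y e r c + 3 * e < 3 := by
  have := hs.y r (by omega) c hc
  unfold vy
  linarith

theorem vy_ge (hs : Small I y e) (hy : ∀ i, 0 < y i ∧ y i < 1) (r c : ℕ) :
    -1 ≤ vy I y e r c := by
  have h1 := bus_ge (I := I) hy c r
  have h3 := mul_nonneg hs.pos.le (ky_nonneg (I := I) c r)
  unfold vy
  linarith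

theorem vx_succ (r c : ℕ) : vx y e r (c + 1) = vx y e r c + 8 * e := by
  unfold vx kx
  push_cast
  ring

theorem vy_succ (r c : ℕ) : vy I y e (r + 1) c =
    vy I y e r c + (if isAdd I r c then vx y e r c else 0) + 8 * e := by
  unfold vy
  rw [bus_succ, ky_succ]
  unfold vx
  split_ifs <;> ring

/-- The range of the heights. -/
theorem range (hs : Small I y e) (hy : ∀ i, 0 < y i ∧ y i < 1) (v : TV)
    (h : v.1 ≤ 15) (hv : inV (nR I) (nM I) v) :
    (lo v.1 : ℝ) ≤ hh I y e v ∧ hh I y e v ≤ hi v.1 := by
  by_cases h9 : 9 ≤ v.1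
  · rw [hh_big e v h9]
    refine ⟨le_rfl, ?_⟩
    obtain ⟨k, r, c⟩ := v
    simp only at h h9 ⊢
    interval_cases k <;> simp [lo, hi]
  · obtain ⟨k, r, c⟩ := v
    simp only [inV] at h h9 hv ⊢
    have h9' : k < 9 := by omega
    have hp := hs.pos
    have hl := hs.lt
    have hr0 : r ≤ nR I := by omega
    have hc0 : c ≤ nM I := by omega
    have hx0 := vx_pos hs hy r c
    have hy0 := vy_ge hs hy r c
    interval_cases k
    · have hx1 := vx_lt hs (r := r) (c := c) (by omega) hc0
      simp only [lo, hi, hh]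
      push_cast
      constructor <;> linarith
    · have hy1 := vy_lt hs (r := r) (c := c) hr0 (by omega)
      simp only [lo, hi, hh]
      push_cast
      constructor <;> linarith
    all_goals
      have hx1 := vx_lt hs (r := r) (c := c) (by omega) hc0
      have hy1 := vy_lt hs (r := r) (c := c) hr0 (by omega)
      simp only [lo, hi, hh, vz1, vz2, vp, vq, vs]
      push_cast
      try split_ifs
      all_goals constructor <;> linarith

end ParAux

open ParAux in
theorem par : SPar := by
  intro I hI y hy ω hω ht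
  choose! X X' hX0 hX'1 ht using ht
  have hXX : ∀ j < I.2.1, X j < X' j := fun j hj => (ht j hj).1
  -- the test conditions
  have hA : ∀ᶠ e in 𝓝[>] (0 : ℝ), ∀ j < I.2.1,
      (1 - X j) * vy I y e (nR I) (4 * j) + X j * vy I y e (nR I) (4 * j + 1) < ω := by
    apply evfin
    intro j hj
    have h1 := (ht j hj).2.1
    refine (evlt ((1 - X j) * ky I (4 * j) (nR I) + X j * ky I (4 * j + 1) (nR I)) h1).mono ?_
    intro e he
    unfold vy
    linarith
  have hC : ∀ᶠ e in 𝓝[>] (0 : ℝ), ∀ j < I.2.1,
      (1 - X' j) * vy I y e (nR I) (4 * j + 2) + X' j * vy I y e (nR I) (4 * j + 3) < ω := by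
    apply evfin
    intro j hj
    have h1 := (ht j hj).2.2
    refine (evlt ((1 - X' j) * ky I (4 * j + 2) (nR I) + X' j * ky I (4 * j + 3) (nR I)) h1).mono ?_
    intro e he
    unfold vy
    linarith
  obtain ⟨e, hs, hA, hC⟩ := ((ev_small hI hy).and (hA.and hC)).exists
  have hp := hs.pos
  have hj4 : ∀ c, c < nM I → c % 4 = 0 → ∃ j < I.2.1, c = 4 * j := by
    intro c hc h4
    refine ⟨c / 4, ?_, by omega⟩
    unfold nM at hc
    omega
  let p : Par :=
    { h := hh I y e
      w := fun c => 80 * X (c / 4)
      w' := fun c => 160 + 80 * X' (c / 4)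
      u := fun c => 160 - 40 * (X (c / 4) + X' (c / 4))
      ω := ω }
  have hr := ParAux.range hs hy
  refine ⟨p, ?_, rfl, ?_⟩
  · constructor
    · exact hr
    · intro r c _ _
      show hh I y e (0, r, c) + hh I y e (1, r, c) < 2 * hh I y e (3, r, c)
      simp only [hh, vs]
      linarith
    · intro r c _ _
      show 205 < 2 * hh I y e (2, r, c) + 3 * hh I y e (0, r, c)
      have hx0 := vx_pos hs hy r c
      simp only [hh, vp]
      split_ifs <;> linarith
    · intro r c _ _
      show 205 < 2 * hh I y e (4, r, c) + 3 * hh I y e (1, r, c)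
      simp only [hh, vq]
      linarith
    · intro r c _ _
      show 3 * hh I y e (3, r, c) + hh I y e (2, r, c) < 4 * hh I y e (5, r, c)
      simp only [hh, vz1]
      linarith
    · intro r c _ _
      show 3 * hh I y e (3, r, c) + hh I y e (4, r, c) < 4 * hh I y e (6, r, c)
      simp only [hh, vz2]
      linarith
    · intro r c _ _
      show hh I y e (7, r, c) + 2 * hh I y e (5, r, c) < 174
      simp only [hh]
      linarith
    · intro r c _ _
      show hh I y e (8, r, c) + 2 * hh I y e (6, r, c) < 174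
      simp only [hh]
      linarith
    · intro r c _ _
      show 980 < 3 * (163 + hh I y e (1, r + 1, c)) + 4 * hh I y e (7, r, c)
      simp only [hh]
      rw [vy_succ]
      simp only [vz1, vs, vp]
      split_ifs <;> linarith
    · intro r c _ _
      show 980 < 3 * (163 + hh I y e (0, r, c + 1)) + 4 * hh I y e (8, r, c)
      simp only [hh]
      rw [vx_succ]
      simp only [vz2, vs, vq]
      linarith
    · intro r _ h2
      show 3 < hh I y e (0, r, 0) + hh I y e (0, r + 1, 0)
      simp only [hh, vx, kx, rowVal]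
      rw [if_pos h2, if_neg (by omega), show (r + 1) / 2 = r / 2 by omega]
      push_cast
      linarith
    · exact hω
    · intro c hc h4
      obtain ⟨j, hj, rfl⟩ := hj4 c hc h4
      show 0 < 80 * X (4 * j / 4) ∧ 80 * X (4 * j / 4) < 80
      rw [Nat.mul_div_cancel_left j (by norm_num)]
      have h0 := hX0 j hj
      have h1 := hX'1 j hj
      have h2 := hXX j hj
      constructor <;> linarith
    · intro c hc h4
      obtain ⟨j, hj, rfl⟩ := hj4 c hc h4
      show 160 < 160 + 80 * X' (4 * j / 4) ∧ 160 + 80 * X' (4 * j / 4) < 240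
      rw [Nat.mul_div_cancel_left j (by norm_num)]
      have h0 := hX0 j hj
      have h1 := hX'1 j hj
      have h2 := hXX j hj
      constructor <;> linarith
    · intro c hc h4
      obtain ⟨j, hj, rfl⟩ := hj4 c hc h4
      show 80 < 160 - 40 * (X (4 * j / 4) + X' (4 * j / 4)) ∧
        160 - 40 * (X (4 * j / 4) + X' (4 * j / 4)) < 160
      rw [Nat.mul_div_cancel_left j (by norm_num)]
      have h0 := hX0 j hj
      have h1 := hX'1 j hj
      have h2 := hXX j hj
      constructor <;> linarith
    · intro c hc h4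
      obtain ⟨j, hj, rfl⟩ := hj4 c hc h4
      show 80 * X (4 * j / 4) + (160 - 40 * (X (4 * j / 4) + X' (4 * j / 4))) < 160
      rw [Nat.mul_div_cancel_left j (by norm_num)]
      have h2 := hXX j hj
      linarith
    · intro c hc h4
      obtain ⟨j, hj, rfl⟩ := hj4 c hc h4
      show 320 < (160 - 40 * (X (4 * j / 4) + X' (4 * j / 4))) + (160 + 80 * X' (4 * j / 4))
      rw [Nat.mul_div_cancel_left j (by norm_num)]
      have h2 := hXX j hj
      linarith
    · intro c hc h4
      obtain ⟨j, hj, rfl⟩ := hj4 c hc h4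
      show (80 - 80 * X (4 * j / 4)) * (hh I y e (1, nR I, 4 * j) - 1) +
        80 * X (4 * j / 4) * (hh I y e (1, nR I, 4 * j + 1) - 1) < 80 * ω
      rw [Nat.mul_div_cancel_left j (by norm_num)]
      have h1 := hA j hj
      simp only [hh]
      linarith
    · intro c hc h4
      obtain ⟨j, hj, rfl⟩ := hj4 c hc h4
      show (240 - (160 + 80 * X' (4 * j / 4))) * (hh I y e (1, nR I, 4 * j + 2) - 1) +
        (160 + 80 * X' (4 * j / 4) - 160) * (hh I y e (1, nR I, 4 * j + 3) - 1) < 80 * ω
      rw [Nat.mul_div_cancel_left j (by norm_num)]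
      have h1 := hC j hj
      simp only [hh]
      linarith
  · intro v hv hw
    have hrR : v.2.1 ≤ nR I := by
      unfold inV at hv
      omega
    by_cases h15 : v.1 ≤ 15
    · have hpos : posT (nR I) p v = (80 * (v.2.2 : ℝ) + 80 * ((nR I : ℝ) - v.2.1) + cx v.1,
          163 * ((v.2.2 : ℝ) + v.2.1) + hh I y e v) := by
        unfold posT
        rw [if_pos h15]
      have hgen : ∀ l u : ℕ, (l : ℝ) ≤ hh I y e v → hh I y e v ≤ u →
          posT (nR I) p v ∈ (vseg (nR I) v l u).pts := by
        intro l u h1 h2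
        rw [hpos]
        unfold vseg
        apply mem_vert
        · push_cast [Nat.cast_sub hrR]
          ring
        · push_cast
          linarith
        · push_cast
          linarith
      unfold segOf
      by_cases ha : v.1 = 1 ∧ v.2.1 = 0
      · rw [if_pos ha]
        have hval : hh I y e v = ((if (busOf I v.2.2).1 then 0 else 1 : ℕ) : ℝ) := by
          obtain ⟨k, r, c⟩ := v
          obtain ⟨h1, h2⟩ := ha
          simp only at h1 h2
          subst h1 h2
          simp only [hh, vy, busVal, ky, Finset.range_zero, Finset.sum_empty]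
          split_ifs <;> simp
        apply hgen <;> rw [hval]
      · rw [if_neg ha]
        by_cases hb : v.1 = 2
        · rw [if_pos hb]
          obtain ⟨k, r, c⟩ := v
          simp only at hb
          subst hb
          have h2 := hr (2, r, c) (by norm_num) hv
          by_cases hadd : isAdd I r c = true
          · have hval : hh I y e (2, r, c) = 101 := by
              simp only [hh, vp, if_pos hadd]
              norm_num
            apply hgen
            · rw [hval]
              simp [hadd]
            · rw [hval]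
              simp [hadd]
          · apply hgen
            · simpa [hadd, lo] using h2.1
            · simpa [hadd, hi] using h2.2
        · rw [if_neg hb, if_pos h15]
          exact hgen _ _ (hr v h15 hv).1 (hr v h15 hv).2
    · have hv' : 16 ≤ v.1 ∧ v.1 ≤ 20 ∧ v.2.1 = nR I ∧ v.2.2 < nM I ∧ v.2.2 % 4 = 0 := by
        unfold inV at hv
        omega
      obtain ⟨k, r, c⟩ := v
      simp only at hv' hw h15
      obtain ⟨hk1, hk2, hrr, hc, hc4⟩ := hv'
      obtain ⟨j, hj, rfl⟩ := hj4 c hc hc4
      have hdiv : 4 * j / 4 = j := Nat.mul_div_cancel_left j (by norm_num)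
      have h0 := hX0 j hj
      have h1 := hX'1 j hj
      have h2 := hXX j hj
      interval_cases k
      · have hw1 : ω = 1 := hw (Or.inl rfl)
        simp only [posT, segOf]
        norm_num
        apply mem_sg _ _ _ _ (X j)
        · linarith
        · linarith
        · show _ + 80 * X (4 * j / 4) = _
          rw [hdiv]
          push_cast
          ring
        · show _ + 163 / 80 * (80 * X (4 * j / 4)) + ω = _
          rw [hdiv, hw1]
          push_cast
          ring
      · have hw1 : ω = 1 := hw (Or.inr rfl)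
        simp only [posT, segOf]
        norm_num
        apply mem_sg _ _ _ _ (X' j)
        · linarith
        · linarith
        · show _ + (160 + 80 * X' (4 * j / 4)) = _
          rw [hdiv]
          push_cast
          ring
        · show _ + 163 / 80 * (160 + 80 * X' (4 * j / 4)) + ω = _
          rw [hdiv, hw1]
          push_cast
          ring
      · simp only [posT, segOf]
        norm_num
        apply mem_sg _ _ _ _ (1 - (X j + X' j) / 2)
        · linarith
        · linarith
        · show _ + (160 - 40 * (X (4 * j / 4) + X' (4 * j / 4))) = _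
          rw [hdiv]
          push_cast
          ring
        · show _ + 163 / 80 * (160 - 40 * (X (4 * j / 4) + X' (4 * j / 4))) + 9 = _
          rw [hdiv]
          push_cast
          ring
      · simp only [posT, segOf]
        norm_num
        apply mem_sg _ _ _ _ 0
        · linarith
        · linarith
        · push_cast
          ring
        · push_cast
          ring
      · simp only [posT, segOf]
        norm_num
        apply mem_sg _ _ _ _ 0
        · linarith
        · linarith
        · push_cast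
          ring
        · push_cast
          ring

end Pool.Agent.SegDraw
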