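import Pool.Agent.Lib_helper69.Seg.Stmts
import Pool.Agent.Lib_helper79.Poly.Basic
import Pool.Agent.Lib_helper79.Seg.PolyRed

/-!
# Drawing a plane graph on assigned segments: the construction is computable in polynomial time
-/

set_option autoImplicit false

namespace Pool.Agent.SegDraw

open Pool.Agent.Poly

variable {α β γ : Type} [Rep α] [Rep β] [Rep γ]

/-! ### Auxiliary functions -/

@[fun_prop]
lemma pt_cast {f : α → ℕ} (hf : PolyTime f) : PolyTime (fun x => ((f x : ℕ) : ℚ)) := by
  obtain ⟨F, hF, hF'⟩ := PolyTime.pair (PolyTime.pair hf (PolyTime.const (0 : ℕ)))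
    (PolyTime.const (1 : ℕ))
  refine ⟨F, hF, fun a => ?_⟩
  rw [hF']
  show rep ((f a, 0), 1) = rep (((f a : ℕ) : ℚ).num, ((f a : ℕ) : ℚ).den)
  rw [Rat.num_natCast, Rat.den_natCast]
  rw [rep_pair, rep_pair]
  congr 1
  show rep (f a, 0) = rep (((f a : ℕ) : ℤ).toNat, (-((f a : ℕ) : ℤ)).toNat)
  congr 2
  simp

@[fun_prop]
lemma pt_natPair {f g : α → ℕ} (hf : PolyTime f) (hg : PolyTime g) :
    PolyTime (fun x => Nat.pair (f x) (g x)) := by
  unfold Nat.pair
  apply PolyTime.ite (PolyTime.lt hf hg)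
  · fun_prop
  · fun_prop

lemma pt_mem {f : α → ℕ} {l : α → List ℕ} (hf : PolyTime f) (hl : PolyTime l) :
    PolyTime (fun x => decide (f x ∈ l x)) := by
  have : (fun x => decide (f x ∈ l x)) = fun x =>
      decide (0 < ((l x).filter fun i => decide (i = f x)).length) := by
    funext x
    rw [decide_eq_decide, List.length_pos_iff_exists_mem]
    constructor
    · intro h
      exact ⟨f x, by simp [h]⟩
    · rintro ⟨a, ha⟩
      rw [List.mem_filter] at ha
      have := of_decide_eq_true ha.2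
      rw [← this]
      exact ha.1
  rw [this]
  apply PolyTime.isPos
  apply PolyTime.length
  apply PolyTime.filter hl
  exact PolyTime.natEq (by fun_prop) (by fun_prop)

/-! ### The instance -/

lemma pt_busOf {I : α → NF} {c : α → ℕ} (hI : PolyTime I) (hc : PolyTime c) :
    PolyTime (fun x => busOf (I x) (c x)) := by
  unfold busOf
  fun_prop

lemma pt_isAdd {I : α → NF} {r c : α → ℕ} (hI : PolyTime I) (hr : PolyTime r) (hc : PolyTime c) :
    PolyTime (fun x => isAdd (I x) (r x) (c x)) := by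
  unfold isAdd
  exact pt_mem hr (PolyTime.snd (pt_busOf hI hc))

@[fun_prop]
lemma pt_nR {I : α → NF} (hI : PolyTime I) : PolyTime (fun x => nR (I x)) := by
  unfold nR
  fun_prop

@[fun_prop]
lemma pt_nM {I : α → NF} (hI : PolyTime I) : PolyTime (fun x => nM (I x)) := by
  unfold nM
  fun_prop

@[fun_prop]
lemma pt_nm {v : α → TV} (hv : PolyTime v) : PolyTime (fun x => nm (v x)) := by
  unfold nm
  fun_prop

/-- The neighbour lists of the vertices of all types. -/
def nbrs (R M r c : ℕ) : List (List TV) :=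
  [if c = 0 then
      if r % 2 = 0 then [(1, r, 0), (2, r, 0), (9, r, 0), (0, r + 1, 0), (15, r, 0)]
      else [(0, r - 1, 0), (1, r, 0), (2, r, 0), (9, r, 0)]
    else if c = M then [(8, r, c - 1)]
    else [(8, r, c - 1), (1, r, c), (2, r, c), (9, r, c)],
    if r = R then
      if c % 4 = 0 then [(1, r, c + 1), (7, r - 1, c)]
      else if c % 4 = 1 then [(1, r, c - 1), (7, r - 1, c)]
      else if c % 4 = 2 then [(1, r, c + 1), (19, r, c - 2), (7, r - 1, c)]
      else [(1, r, c - 1), (7, r - 1, c)]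
    else if r = 0 then [(10, r, c), (4, r, c), (0, r, c)]
    else [(10, r, c), (4, r, c), (0, r, c), (7, r - 1, c)],
    [(0, r, c), (3, r, c)],
    [(4, r, c), (6, r, c), (5, r, c), (2, r, c)],
    [(1, r, c), (3, r, c)],
    [(3, r, c), (7, r, c)],
    [(3, r, c), (8, r, c)],
    [(5, r, c), (11, r, c), (12, r, c), (1, r + 1, c)],
    [(0, r, c + 1), (14, r, c), (13, r, c), (6, r, c)],
    [(0, r, c)],
    [(1, r, c)],
    [(7, r, c)],
    [(7, r, c)],
    [(8, r, c)],
    [(8, r, c)],
    [(0, r, 0)],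
    [(18, r, c)],
    [(18, r, c)],
    [(16, r, c), (20, r, c), (17, r, c)],
    [(20, r, c), (1, r, c + 2)],
    [(19, r, c), (18, r, c)]]

lemma nbr_eq (R M : ℕ) (v : TV) : nbr R M v = (nbrs R M v.2.1 v.2.2).getD v.1 [] := by
  obtain ⟨k, r, c⟩ := v
  match k with
  | 0 => rfl
  | 1 => rfl
  | 2 => rfl
  | 3 => rfl
  | 4 => rfl
  | 5 => rfl
  | 6 => rfl
  | 7 => rfl
  | 8 => rfl
  | 9 => rfl
  | 10 => rfl
  | 11 => rfl
  | 12 => rfl
  | 13 => rfl
  | 14 => rfl
  | 15 => rfl
  | 16 => rfl
  | 17 => rfl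
  | 18 => rfl
  | 19 => rfl
  | 20 => rfl
  | k + 21 => rfl

lemma pt_nbrs {R M r c : α → ℕ} (hR : PolyTime R) (hM : PolyTime M) (hr : PolyTime r)
    (hc : PolyTime c) : PolyTime (fun x => nbrs (R x) (M x) (r x) (c x)) := by
  unfold nbrs
  apply PolyTime.lcons
  · apply PolyTime.ite (PolyTime.natEq (by fun_prop) (by fun_prop))
    · apply PolyTime.ite (PolyTime.natEq (by fun_prop) (by fun_prop))
      · fun_prop
      · fun_prop
    · apply PolyTime.ite (PolyTime.natEq (by fun_prop) (by fun_prop))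
      · fun_prop
      · fun_prop
  · apply PolyTime.lcons
    · apply PolyTime.ite (PolyTime.natEq (by fun_prop) (by fun_prop))
      · apply PolyTime.ite (PolyTime.natEq (by fun_prop) (by fun_prop))
        · fun_prop
        · apply PolyTime.ite (PolyTime.natEq (by fun_prop) (by fun_prop))
          · fun_prop
          · apply PolyTime.ite (PolyTime.natEq (by fun_prop) (by fun_prop))
            · fun_prop
            · fun_prop
      · apply PolyTime.ite (PolyTime.natEq (by fun_prop) (by fun_prop))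
        · fun_prop
        · fun_prop
    · fun_prop

@[fun_prop]
lemma pt_nbr {R M : α → ℕ} {v : α → TV} (hR : PolyTime R) (hM : PolyTime M) (hv : PolyTime v) :
    PolyTime (fun x => nbr (R x) (M x) (v x)) := by
  simp only [nbr_eq]
  exact PolyTime.getD (pt_nbrs hR hM (by fun_prop) (by fun_prop)) (by fun_prop) (by fun_prop)

lemma cx_eq (k : ℕ) : cx k =
    [80, 160, 60, 120, 180, 105, 135, 66, 174, 72, 168, 92, 72, 148, 168].getD k 40 := by
  match k with
  | 0 => rfl
  | 1 => rfl
  | 2 => rfl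
  | 3 => rfl
  | 4 => rfl
  | 5 => rfl
  | 6 => rfl
  | 7 => rfl
  | 8 => rfl
  | 9 => rfl
  | 10 => rfl
  | 11 => rfl
  | 12 => rfl
  | 13 => rfl
  | 14 => rfl
  | k + 15 => rfl

lemma lo_eq (k : ℕ) : lo k =
    [1, 0, 99, 0, 96, 25, 25, 119, 119, 41, 41, 58, 140, 58, 140].getD k 83 := by
  match k with
  | 0 => rfl
  | 1 => rfl
  | 2 => rfl
  | 3 => rfl
  | 4 => rfl
  | 5 => rfl
  | 6 => rfl
  | 7 => rfl
  | 8 => rfl
  | 9 => rfl
  | 10 => rfl
  | 11 => rfl
  | 12 => rfl
  | 13 => rfl
  | 14 => rfl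
  | k + 15 => rfl

lemma hi_eq (k : ℕ) : hi k =
    [2, 4, 102, 4, 103, 28, 28, 123, 123, 41, 41, 58, 140, 58, 140].getD k 83 := by
  match k with
  | 0 => rfl
  | 1 => rfl
  | 2 => rfl
  | 3 => rfl
  | 4 => rfl
  | 5 => rfl
  | 6 => rfl
  | 7 => rfl
  | 8 => rfl
  | 9 => rfl
  | 10 => rfl
  | 11 => rfl
  | 12 => rfl
  | 13 => rfl
  | 14 => rfl
  | k + 15 => rfl

@[fun_prop]
lemma pt_cx {k : α → ℕ} (hk : PolyTime k) : PolyTime (fun x => cx (k x)) := by
  simp only [cx_eq]
  fun_prop

@[fun_prop]
lemma pt_lo {k : α → ℕ} (hk : PolyTime k) : PolyTime (fun x => lo (k x)) := by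
  simp only [lo_eq]
  fun_prop

@[fun_prop]
lemma pt_hi {k : α → ℕ} (hk : PolyTime k) : PolyTime (fun x => hi (k x)) := by
  simp only [hi_eq]
  fun_prop

@[fun_prop]
lemma pt_sg {a b a' b' : α → ℕ} (ha : PolyTime a) (hb : PolyTime b) (ha' : PolyTime a')
    (hb' : PolyTime b') : PolyTime (fun x => sg (a x) (b x) (a' x) (b' x)) := by
  unfold sg
  fun_prop

@[fun_prop]
lemma pt_vseg {R l u : α → ℕ} {v : α → TV} (hR : PolyTime R) (hv : PolyTime v) (hl : PolyTime l)
    (hu : PolyTime u) : PolyTime (fun x => vseg (R x) (v x) (l x) (u x)) := by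
  unfold vseg
  fun_prop

lemma pt_segOf {I : α → NF} {v : α → TV} (hI : PolyTime I) (hv : PolyTime v) :
    PolyTime (fun x => segOf (I x) (v x)) := by
  have hb : PolyTime (fun x => if (busOf (I x) (v x).2.2).1 = true then (0 : ℕ) else 1) := by
    apply PolyTime.ite (PolyTime.dEqTrue (PolyTime.fst (pt_busOf hI (by fun_prop))))
    · fun_prop
    · fun_prop
  have ha : ∀ a b : ℕ, PolyTime (fun x => if isAdd (I x) (v x).2.1 (v x).2.2 = true then a else b) := by
    intro a b
    apply PolyTime.ite (PolyTime.dEqTrue (pt_isAdd hI (by fun_prop) (by fun_prop)))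
    · fun_prop
    · fun_prop
  have ha1 := ha 101 99
  have ha2 := ha 101 102
  unfold segOf
  apply PolyTime.ite
  · exact PolyTime.dAnd (PolyTime.natEq (by fun_prop) (by fun_prop))
      (PolyTime.natEq (by fun_prop) (by fun_prop))
  · fun_prop
  apply PolyTime.ite (PolyTime.natEq (by fun_prop) (by fun_prop))
  · fun_prop
  apply PolyTime.ite (PolyTime.le (by fun_prop) (by fun_prop))
  · fun_prop
  apply PolyTime.ite (PolyTime.natEq (by fun_prop) (by fun_prop))
  · fun_prop
  apply PolyTime.ite (PolyTime.natEq (by fun_prop) (by fun_prop))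
  · fun_prop
  apply PolyTime.ite (PolyTime.natEq (by fun_prop) (by fun_prop))
  · fun_prop
  apply PolyTime.ite (PolyTime.natEq (by fun_prop) (by fun_prop))
  · fun_prop
  · fun_prop

lemma pt_recOf {I : α → NF} {v : α → TV} (hI : PolyTime I) (hv : PolyTime v) :
    PolyTime (fun x => recOf (I x) (v x)) := by
  unfold recOf
  apply PolyTime.pair (by fun_prop)
  apply PolyTime.pair (pt_segOf hI hv)
  apply PolyTime.map (by fun_prop)
  fun_prop

lemma pt_vlist {I : α → NF} (hI : PolyTime I) : PolyTime (fun x => vlist (I x)) := by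
  unfold vlist
  apply PolyTime.append
  · apply PolyTime.flatMap (by fun_prop)
    fun_prop
  · apply PolyTime.append
    · apply PolyTime.flatMap (by fun_prop)
      apply PolyTime.flatMap (by fun_prop)
      fun_prop
    · apply PolyTime.flatMap (by fun_prop)
      fun_prop

theorem poly : SPoly := by
  unfold SPoly toInst
  apply PolyTime.pair
  · apply PolyTime.map (pt_vlist PolyTime.id')
    exact pt_recOf (by fun_prop) (by fun_prop)
  · fun_prop

/-! ### From stretchability to the normal form -/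

@[fun_prop]
lemma pt_same {a b : α → ℕ} (ha : PolyTime a) (hb : PolyTime b) :
    PolyTime (fun x => same (a x) (b x)) := by
  unfold same
  fun_prop

lemma pt_entryTest {n : α → ℕ} {t : α → ℕ × ℕ × ℕ × Bool} (hn : PolyTime n) (ht : PolyTime t) :
    PolyTime (fun x => entryTest (n x) (t x)) := by
  unfold entryTest
  apply PolyTime.ite
  · exact PolyTime.dAnd (PolyTime.lt (by fun_prop) (by fun_prop))
      (PolyTime.dAnd (PolyTime.lt (by fun_prop) (by fun_prop))
        (PolyTime.lt (by fun_prop) (by fun_prop)))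
  · apply PolyTime.ite (PolyTime.dEqTrue (by fun_prop))
    · fun_prop
    · fun_prop
  · fun_prop

lemma pt_tests {I : α → StretchInst} (hI : PolyTime I) : PolyTime (fun x => tests (I x)) := by
  unfold tests
  apply PolyTime.lcons (by fun_prop)
  apply PolyTime.append
  · apply PolyTime.map (by fun_prop)
    fun_prop
  · apply PolyTime.append
    · apply PolyTime.map (by fun_prop)
      fun_prop
    · apply PolyTime.map (by fun_prop)
      exact pt_entryTest (by fun_prop) (by fun_prop)

theorem str3 : SStr3 := by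
  unfold SStr3 toNF
  have h := pt_tests (α := StretchInst) (I := fun I => I) PolyTime.id'
  apply PolyTime.pair (by fun_prop)
  apply PolyTime.pair
  · exact PolyTime.length h
  · apply PolyTime.flatMap h
    fun_prop

end Pool.Agent.SegDraw
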