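import Pool.Agent.Lib_helper79.Poly.NP

/-!
# Drawing a plane graph on assigned segments: the problem, and simple stretchability
-/

set_option autoImplicit false

namespace Pool.Agent.SegDraw

open Pool.Agent.Poly Filter Topology

/-- Integers are represented by their positive and negative parts. -/
instance instRepInt : Rep ℤ := ⟨fun z => rep (z.toNat, (-z).toNat)⟩

/-- Rational numbers are represented by numerator and denominator. -/
instance instRepRat : Rep ℚ := ⟨fun q => rep (q.num, q.den)⟩

/-- A segment: its two endpoints, and `true` for the closed, `false` for the open segment. -/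
abbrev Seg : Type := ((ℚ × ℚ) × (ℚ × ℚ)) × Bool

/-- The point of the plane with given rational coordinates. -/
def toR (p : ℚ × ℚ) : ℝ × ℝ := ((p.1 : ℝ), (p.2 : ℝ))

/-- The points of a segment. -/
def Seg.pts (s : Seg) : Set (ℝ × ℝ) :=
  if s.2 then segment ℝ (toR s.1.1) (toR s.1.2) else openSegment ℝ (toR s.1.1) (toR s.1.2)

/-- A vertex record: the name of the vertex, its segment, and the list of its neighbours in
counterclockwise order. -/
abbrev VRec : Type := ℕ × Seg × List ℕ

/-- An instance: the vertex records, and a directed edge marking the outer face. -/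
abbrev Inst : Type := List VRec × (ℕ × ℕ)

/-- `u` and `v` are adjacent: the record of `u` lists `v`. -/
def Adj (I : Inst) (u v : ℕ) : Prop := ∃ x ∈ I.1, x.1 = u ∧ v ∈ x.2.2

/-- The determinant of two vectors of the plane. -/
def det (a b : ℝ × ℝ) : ℝ := a.1 * b.2 - a.2 * b.1

/-- Turning counterclockwise from the direction of `a` one meets `b` and then `c`, before `a` again:
at least two of the three determinants are positive. -/
def Ccw (a b c : ℝ × ℝ) : Prop :=
  (0 < det a b ∧ 0 < det b c) ∨ (0 < det b c ∧ 0 < det c a) ∨ (0 < det c a ∧ 0 < det a b)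

/-- The union of the edges of a drawing. -/
def drawn (I : Inst) (pos : ℕ → ℝ × ℝ) : Set (ℝ × ℝ) :=
  {p | ∃ u v, Adj I u v ∧ p ∈ segment ℝ (pos u) (pos v)}

/-- The unbounded face lies to the right of the edge directed from `a` to `b`: some curve starts at
an inner point of the edge, leaves it to its right, avoids the drawing `D` and tends to infinity. -/
def OuterRight (D : Set (ℝ × ℝ)) (a b : ℝ × ℝ) : Prop :=
  ∃ γ : ℝ → ℝ × ℝ, Continuous γ ∧ γ 0 ∈ openSegment ℝ a b ∧
    (∀ᶠ t in 𝓝[>] (0 : ℝ), det (b - a) (γ t - a) < 0) ∧ (∀ t > 0, γ t ∉ D) ∧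
    Tendsto (fun t => ‖γ t‖) atTop atTop

/-- `pos` is a straight-line drawing of `I` realising its embedding: the vertices are at distinct
points, no vertex lies inside an edge, different edges do not cross, the neighbours of each vertex
appear in the prescribed counterclockwise order, and the marked edge has the outer face on its
right. (The segments assigned to the vertices play no role here.) -/
structure IsDrawing (I : Inst) (pos : ℕ → ℝ × ℝ) : Prop where
  inj : ∀ x ∈ I.1, ∀ y ∈ I.1, pos x.1 = pos y.1 → x.1 = y.1
  vertex : ∀ x ∈ I.1, ∀ u v, Adj I u v → pos x.1 ∉ openSegment ℝ (pos u) (pos v)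
  edge : ∀ u v u' v', Adj I u v → Adj I u' v' → s(u, v) ≠ s(u', v') →
    Disjoint (openSegment ℝ (pos u) (pos v)) (openSegment ℝ (pos u') (pos v'))
  rot : ∀ x ∈ I.1, (x.2.2.map fun v => pos v - pos x.1).Triplewise Ccw
  outer : OuterRight (drawn I pos) (pos I.2.1) (pos I.2.2)

/-- The records describe a finite connected simple graph: names and neighbours are not repeated, no
loops, adjacency is symmetric, any two vertices are joined by a path, and an edge is marked. -/
structure IsGraph (I : Inst) : Prop where
  names : (I.1.map Prod.fst).Nodup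
  nodup : ∀ x ∈ I.1, x.2.2.Nodup ∧ x.1 ∉ x.2.2
  symm : ∀ u v, Adj I u v → Adj I v u
  conn : ∀ x ∈ I.1, ∀ y ∈ I.1, Relation.ReflTransGen (Adj I) x.1 y.1
  dart : Adj I I.2.1 I.2.2

/-- The instance is a connected plane graph: its rotation system and outer face are those of some
crossing-free straight-line drawing. -/
def IsPlane (I : Inst) : Prop := IsGraph I ∧ ∃ pos, IsDrawing I pos

/-- There is a drawing with every vertex on its segment. -/
def Drawable (I : Inst) : Prop := ∃ pos, IsDrawing I pos ∧ ∀ x ∈ I.1, pos x.1 ∈ x.2.1.pts

/-- An instance of simple stretchability: the number `n` of lines and a list of entries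
`(i, j, k, s)`. -/
abbrev StretchInst : Type := ℕ × List (ℕ × ℕ × ℕ × Bool)

/-- The `x`-coordinate of the intersection point of the lines `y = a i * x + b i` and
`y = a j * x + b j`. -/
noncomputable def cross (a b : ℕ → ℝ) (i j : ℕ) : ℝ := (b i - b j) / (a j - a i)

/-- There are `n` lines `y = a i * x + b i` with `a 0 < a 1 < ... < a (n - 1)` such that for every
entry `(i, j, k, s)` of the list one has `i < j < k < n` and the lines `i` and `j` cross to the left
of the crossing of `j` and `k` if `s = true`, and to the right of it if `s = false`. -/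
def Stretchable (I : StretchInst) : Prop :=
  ∃ a b : ℕ → ℝ, (∀ i j, i < j → j < I.1 → a i < a j) ∧
    ∀ t ∈ I.2, t.1 < t.2.1 ∧ t.2.1 < t.2.2.1 ∧ t.2.2.1 < I.1 ∧
      if t.2.2.2 then cross a b t.1 t.2.1 < cross a b t.2.1 t.2.2.1
      else cross a b t.2.1 t.2.2.1 < cross a b t.1 t.2.1

end Pool.Agent.SegDraw
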