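import Pool.Agent.Lib_helper69.Seg.Stmts

/-!
# Drawing a plane graph on assigned segments: the rotation system
-/

set_option autoImplicit false

namespace Pool.Agent.SegDraw

namespace Rot

theorem trip4 {α : Type*} {q : α → α → α → Prop} {a b c d : α}
    (h1 : q a b c) (h2 : q a b d) (h3 : q a c d) (h4 : q b c d) : [a, b, c, d].Triplewise q := by
  simp only [List.triplewise_cons, List.pairwise_cons, List.mem_cons, List.not_mem_nil, or_false,
    forall_eq_or_imp, forall_eq, List.Pairwise.nil, List.Triplewise.nil, and_true,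
    false_imp_iff, implies_true]
  exact ⟨⟨⟨h1, h2⟩, h3⟩, h4⟩

theorem trip5 {α : Type*} {q : α → α → α → Prop} {a b c d e : α}
    (h1 : q a b c) (h2 : q a b d) (h3 : q a b e) (h4 : q a c d) (h5 : q a c e) (h6 : q a d e)
    (h7 : q b c d) (h8 : q b c e) (h9 : q b d e) (h10 : q c d e) :
    [a, b, c, d, e].Triplewise q := by
  simp only [List.triplewise_cons, List.pairwise_cons, List.mem_cons, List.not_mem_nil, or_false,
    forall_eq_or_imp, forall_eq, List.Pairwise.nil, List.Triplewise.nil, and_true,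
    false_imp_iff, implies_true]
  exact ⟨⟨⟨h1, h2, h3⟩, ⟨h4, h5⟩, h6⟩, ⟨⟨h7, h8⟩, h9⟩, h10⟩

theorem posLe (R : ℕ) (p : Par) (k r c : ℕ) (hk : k ≤ 15) : posT R p (k, r, c) =
    (80 * (c : ℝ) + 80 * ((R : ℝ) - r) + cx k, 163 * ((c : ℝ) + r) + p.h (k, r, c)) := by
  unfold posT
  rw [if_pos hk]

variable {R M : ℕ} {p : Par}

/-- Range of the types `2, ..., 14`. -/
theorem rg (hG : Good R M p) (k : ℕ) {r c : ℕ} (hr : r < R) (hc : c < M) (h2 : 2 ≤ k)
    (h14 : k ≤ 14) : (lo k : ℝ) ≤ p.h (k, r, c) ∧ p.h (k, r, c) ≤ hi k :=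
  hG.range (k, r, c) (by simp only; omega)
    (Or.inr (Or.inr (Or.inl ⟨h2, h14, hr, hc⟩)))

theorem rg0 (hG : Good R M p) {r c : ℕ} (hr : r < R) (hc : c ≤ M) :
    1 ≤ p.h (0, r, c) ∧ p.h (0, r, c) ≤ 2 := by
  have := hG.range (0, r, c) (by simp) (Or.inl ⟨rfl, hr, hc⟩)
  simpa [lo, hi] using this

theorem rg1 (hG : Good R M p) {r c : ℕ} (hr : r ≤ R) (hc : c < M) :
    0 ≤ p.h (1, r, c) ∧ p.h (1, r, c) ≤ 4 := by
  have := hG.range (1, r, c) (by simp) (Or.inr (Or.inl ⟨rfl, hr, hc⟩))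
  simpa [lo, hi] using this

theorem rg15 (hG : Good R M p) {r : ℕ} (hr : r < R) (h2 : r % 2 = 0) :
    83 ≤ p.h (15, r, 0) ∧ p.h (15, r, 0) ≤ 83 := by
  have := hG.range (15, r, 0) (by simp)
    (Or.inr (Or.inr (Or.inr (Or.inl ⟨rfl, hr, h2, rfl⟩))))
  simpa [lo, hi] using this

/-- Type `3`. -/
theorem rot3 (hG : Good R M p) {r c : ℕ} (hr : r < R) (hc : c < M) :
    ((nbr R M (3, r, c)).map fun u => posT R p u - posT R p (3, r, c)).Triplewise Ccw := by
  simp only [nbr, List.map_cons, List.map_nil]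
  rw [posLe R p 3 r c (by norm_num), posLe R p 4 r c (by norm_num), posLe R p 6 r c (by norm_num),
    posLe R p 5 r c (by norm_num), posLe R p 2 r c (by norm_num)]
  have h2 := rg hG 2 hr hc (by norm_num) (by norm_num)
  have h3 := rg hG 3 hr hc (by norm_num) (by norm_num)
  have h4 := rg hG 4 hr hc (by norm_num) (by norm_num)
  have h5 := rg hG 5 hr hc (by norm_num) (by norm_num)
  have h6 := rg hG 6 hr hc (by norm_num) (by norm_num)
  have hz1 := hG.rZ1 r c hr hc
  have hz2 := hG.rZ2 r c hr hc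
  simp only [lo, hi] at h2 h3 h4 h5 h6
  push_cast at h2 h3 h4 h5 h6
  obtain ⟨h2a, h2b⟩ := h2
  obtain ⟨h3a, h3b⟩ := h3
  obtain ⟨h4a, h4b⟩ := h4
  obtain ⟨h5a, h5b⟩ := h5
  obtain ⟨h6a, h6b⟩ := h6
  simp only [cx, Prod.mk_sub_mk]
  push_cast
  refine trip4 ?_ ?_ ?_ ?_ <;> unfold Ccw det <;>
    exact Or.inl ⟨by linarith, by linarith⟩

/-- Type `7`. -/
theorem rot7 (hG : Good R M p) {r c : ℕ} (hr : r < R) (hc : c < M) :
    ((nbr R M (7, r, c)).map fun u => posT R p u - posT R p (7, r, c)).Triplewise Ccw := by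
  simp only [nbr, List.map_cons, List.map_nil]
  rw [posLe R p 7 r c (by norm_num), posLe R p 5 r c (by norm_num), posLe R p 11 r c (by norm_num),
    posLe R p 12 r c (by norm_num), posLe R p 1 (r + 1) c (by norm_num)]
  have h5 := rg hG 5 hr hc (by norm_num) (by norm_num)
  have h7 := rg hG 7 hr hc (by norm_num) (by norm_num)
  have h11 := rg hG 11 hr hc (by norm_num) (by norm_num)
  have h12 := rg hG 12 hr hc (by norm_num) (by norm_num)
  have h1 := rg1 hG (show r + 1 ≤ R from hr) hc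
  have hz1 := hG.rG1 r c hr hc
  have hz2 := hG.rH1 r c hr hc
  simp only [lo, hi] at h5 h7 h11 h12
  push_cast at h5 h7 h11 h12
  obtain ⟨h1a, h1b⟩ := h1
  obtain ⟨h5a, h5b⟩ := h5
  obtain ⟨h7a, h7b⟩ := h7
  obtain ⟨h11a, h11b⟩ := h11
  obtain ⟨h12a, h12b⟩ := h12
  simp only [cx, Prod.mk_sub_mk]
  push_cast
  refine trip4 ?_ ?_ ?_ ?_ <;> unfold Ccw det <;>
    exact Or.inl ⟨by linarith, by linarith⟩

/-- Type `8`. -/
theorem rot8 (hG : Good R M p) {r c : ℕ} (hr : r < R) (hc : c < M) :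
    ((nbr R M (8, r, c)).map fun u => posT R p u - posT R p (8, r, c)).Triplewise Ccw := by
  simp only [nbr, List.map_cons, List.map_nil]
  rw [posLe R p 8 r c (by norm_num), posLe R p 0 r (c + 1) (by norm_num),
    posLe R p 14 r c (by norm_num), posLe R p 13 r c (by norm_num), posLe R p 6 r c (by norm_num)]
  have h6 := rg hG 6 hr hc (by norm_num) (by norm_num)
  have h8 := rg hG 8 hr hc (by norm_num) (by norm_num)
  have h13 := rg hG 13 hr hc (by norm_num) (by norm_num)
  have h14 := rg hG 14 hr hc (by norm_num) (by norm_num)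
  have h0 := rg0 hG hr (show c + 1 ≤ M from hc)
  have hz1 := hG.rG2 r c hr hc
  have hz2 := hG.rH2 r c hr hc
  simp only [lo, hi] at h6 h8 h13 h14
  push_cast at h6 h8 h13 h14
  obtain ⟨h0a, h0b⟩ := h0
  obtain ⟨h6a, h6b⟩ := h6
  obtain ⟨h8a, h8b⟩ := h8
  obtain ⟨h13a, h13b⟩ := h13
  obtain ⟨h14a, h14b⟩ := h14
  simp only [cx, Prod.mk_sub_mk]
  push_cast
  refine trip4 ?_ ?_ ?_ ?_ <;> unfold Ccw det <;>
    exact Or.inl ⟨by linarith, by linarith⟩

/-- Type `1`, inner row. -/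
theorem rot1 (hG : Good R M p) {r c : ℕ} (hr : r + 1 < R) (hc : c < M) :
    ((nbr R M (1, r + 1, c)).map fun u => posT R p u - posT R p (1, r + 1, c)).Triplewise Ccw := by
  have e1 : nbr R M (1, r + 1, c) = [(10, r + 1, c), (4, r + 1, c), (0, r + 1, c), (7, r, c)] := by
    simp only [nbr]
    rw [if_neg (by omega), if_neg (by omega), Nat.add_sub_cancel]
  rw [e1]
  simp only [List.map_cons, List.map_nil]
  rw [posLe R p 1 (r + 1) c (by norm_num), posLe R p 10 (r + 1) c (by norm_num),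
    posLe R p 4 (r + 1) c (by norm_num), posLe R p 0 (r + 1) c (by norm_num),
    posLe R p 7 r c (by norm_num)]
  have h1 := rg1 hG hr.le hc
  have h10 := rg hG 10 hr hc (by norm_num) (by norm_num)
  have h4 := rg hG 4 hr hc (by norm_num) (by norm_num)
  have h7 := rg hG 7 (show r < R by omega) hc (by norm_num) (by norm_num)
  have h0 := rg0 hG hr hc.le
  have hz1 := hG.rQ (r + 1) c hr hc
  simp only [lo, hi] at h4 h7 h10
  push_cast at h4 h7 h10
  obtain ⟨h0a, h0b⟩ := h0
  obtain ⟨h1a, h1b⟩ := h1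
  obtain ⟨h4a, h4b⟩ := h4
  obtain ⟨h7a, h7b⟩ := h7
  obtain ⟨h10a, h10b⟩ := h10
  simp only [cx, Prod.mk_sub_mk]
  push_cast
  refine trip4 ?_ ?_ ?_ ?_ <;> unfold Ccw det <;>
    exact Or.inl ⟨by linarith, by linarith⟩

/-- Type `1`, row zero. -/
theorem rot10 (hG : Good R M p) {c : ℕ} (hr : 0 < R) (hc : c < M) :
    ((nbr R M (1, 0, c)).map fun u => posT R p u - posT R p (1, 0, c)).Triplewise Ccw := by
  have e1 : nbr R M (1, 0, c) = [(10, 0, c), (4, 0, c), (0, 0, c)] := by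
    simp only [nbr]
    rw [if_neg (by omega), if_pos trivial]
  rw [e1]
  simp only [List.map_cons, List.map_nil]
  rw [posLe R p 1 0 c (by norm_num), posLe R p 10 0 c (by norm_num),
    posLe R p 4 0 c (by norm_num), posLe R p 0 0 c (by norm_num)]
  have h1 := rg1 hG hr.le hc
  have h10 := rg hG 10 hr hc (by norm_num) (by norm_num)
  have h4 := rg hG 4 hr hc (by norm_num) (by norm_num)
  have h0 := rg0 hG hr hc.le
  have hz1 := hG.rQ 0 c hr hc
  simp only [lo, hi] at h4 h10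
  push_cast at h4 h10
  obtain ⟨h0a, h0b⟩ := h0
  obtain ⟨h1a, h1b⟩ := h1
  obtain ⟨h4a, h4b⟩ := h4
  obtain ⟨h10a, h10b⟩ := h10
  simp only [cx, Prod.mk_sub_mk]
  push_cast
  rw [List.triplewise_triple]
  unfold Ccw det
  exact Or.inl ⟨by linarith, by linarith⟩

/-- Type `1`, last row, third port. -/
theorem rot1R (hG : Good (R + 1) M p) {c : ℕ} (hc : c + 3 < M) (h4c : c % 4 = 0) :
    ((nbr (R + 1) M (1, R + 1, c + 2)).map fun u =>
      posT (R + 1) p u - posT (R + 1) p (1, R + 1, c + 2)).Triplewise Ccw := by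
  have e1 : nbr (R + 1) M (1, R + 1, c + 2) =
      [(1, R + 1, c + 3), (19, R + 1, c), (7, R, c + 2)] := by
    simp only [nbr]
    rw [if_pos trivial, if_neg (by omega), if_neg (by omega), if_pos (by omega), Nat.add_sub_cancel,
      Nat.add_sub_cancel]
  rw [e1]
  simp only [List.map_cons, List.map_nil]
  rw [posLe (R + 1) p 1 (R + 1) (c + 2) (by norm_num),
    posLe (R + 1) p 1 (R + 1) (c + 3) (by norm_num),
    posLe (R + 1) p 7 R (c + 2) (by norm_num)]
  have e2 : posT (R + 1) p (19, R + 1, c) = (80 * (c : ℝ) + 160 + 80,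
    163 * ((c : ℝ) + ((R + 1 : ℕ) : ℝ)) + 1 + 163 + 5) := by
    unfold posT
    norm_num
  rw [e2]
  have h1 := rg1 hG (show R + 1 ≤ R + 1 from le_rfl) (show c + 2 < M by omega)
  have h1' := rg1 hG (show R + 1 ≤ R + 1 from le_rfl) (show c + 3 < M by omega)
  have h7 := rg hG 7 (show R < R + 1 by omega) (show c + 2 < M by omega) (by norm_num) (by norm_num)
  simp only [lo, hi] at h7
  push_cast at h7
  obtain ⟨h1a, h1b⟩ := h1
  obtain ⟨h1c, h1d⟩ := h1'
  obtain ⟨h7a, h7b⟩ := h7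
  simp only [cx, Prod.mk_sub_mk]
  push_cast
  rw [List.triplewise_triple]
  unfold Ccw det
  exact Or.inr (Or.inl ⟨by linarith, by linarith⟩)

/-- Type `0`, bus zero, even row. -/
theorem rot00 (hG : Good R M p) {r : ℕ} (hr : r + 1 < R) (h2r : r % 2 = 0) (hM : 0 < M) :
    ((nbr R M (0, r, 0)).map fun u => posT R p u - posT R p (0, r, 0)).Triplewise Ccw := by
  have e1 : nbr R M (0, r, 0) = [(1, r, 0), (2, r, 0), (9, r, 0), (0, r + 1, 0), (15, r, 0)] := by
    simp only [nbr]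
    rw [if_pos trivial, if_pos h2r]
  rw [e1]
  simp only [List.map_cons, List.map_nil]
  rw [posLe R p 0 r 0 (by norm_num), posLe R p 1 r 0 (by norm_num), posLe R p 2 r 0 (by norm_num),
    posLe R p 9 r 0 (by norm_num), posLe R p 0 (r + 1) 0 (by norm_num),
    posLe R p 15 r 0 (by norm_num)]
  have hr' : r < R := by omega
  have h0 := rg0 hG hr' hM.le
  have h0' := rg0 hG hr hM.le
  have h1 := rg1 hG hr'.le hM
  have h2 := rg hG 2 hr' hM (by norm_num) (by norm_num)
  have h9 := rg hG 9 hr' hM (by norm_num) (by norm_num)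
  have h15 := rg15 hG hr' h2r
  have hz1 := hG.rP r 0 hr' hM
  have hz2 := hG.rE r hr' h2r
  simp only [lo, hi] at h2 h9
  push_cast at h2 h9
  obtain ⟨h0a, h0b⟩ := h0
  obtain ⟨h0c, h0d⟩ := h0'
  obtain ⟨h1a, h1b⟩ := h1
  obtain ⟨h2a, h2b⟩ := h2
  obtain ⟨h9a, h9b⟩ := h9
  obtain ⟨h15a, h15b⟩ := h15
  simp only [cx, Prod.mk_sub_mk]
  push_cast
  refine trip5 ?_ ?_ ?_ ?_ ?_ ?_ ?_ ?_ ?_ ?_ <;> unfold Ccw det <;>
    exact Or.inl ⟨by linarith, by linarith⟩

/-- Type `0`, bus zero, odd row. -/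
theorem rot01 (hG : Good R M p) {r : ℕ} (hr : r + 1 < R) (h2r : r % 2 = 0) (hM : 0 < M) :
    ((nbr R M (0, r + 1, 0)).map fun u =>
      posT R p u - posT R p (0, r + 1, 0)).Triplewise Ccw := by
  have e1 : nbr R M (0, r + 1, 0) = [(0, r, 0), (1, r + 1, 0), (2, r + 1, 0), (9, r + 1, 0)] := by
    simp only [nbr]
    rw [if_pos trivial, if_neg (by omega), Nat.add_sub_cancel]
  rw [e1]
  simp only [List.map_cons, List.map_nil]
  rw [posLe R p 0 r 0 (by norm_num), posLe R p 1 (r + 1) 0 (by norm_num),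
    posLe R p 2 (r + 1) 0 (by norm_num), posLe R p 9 (r + 1) 0 (by norm_num),
    posLe R p 0 (r + 1) 0 (by norm_num)]
  have hr' : r < R := by omega
  have h0 := rg0 hG hr' hM.le
  have h0' := rg0 hG hr hM.le
  have h1 := rg1 hG hr.le hM
  have h2 := rg hG 2 hr hM (by norm_num) (by norm_num)
  have h9 := rg hG 9 hr hM (by norm_num) (by norm_num)
  have hz1 := hG.rP (r + 1) 0 hr hM
  simp only [lo, hi] at h2 h9
  push_cast at h2 h9
  obtain ⟨h0a, h0b⟩ := h0
  obtain ⟨h0c, h0d⟩ := h0'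
  obtain ⟨h1a, h1b⟩ := h1
  obtain ⟨h2a, h2b⟩ := h2
  obtain ⟨h9a, h9b⟩ := h9
  simp only [cx, Prod.mk_sub_mk]
  push_cast
  refine trip4 ?_ ?_ ?_ ?_ <;> unfold Ccw det <;>
    exact Or.inl ⟨by linarith, by linarith⟩

/-- Type `0`, inner bus. -/
theorem rot0 (hG : Good R M p) {r c : ℕ} (hr : r < R) (hc : c + 1 < M) :
    ((nbr R M (0, r, c + 1)).map fun u =>
      posT R p u - posT R p (0, r, c + 1)).Triplewise Ccw := by
  have e1 : nbr R M (0, r, c + 1) = [(8, r, c), (1, r, c + 1), (2, r, c + 1), (9, r, c + 1)] := by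
    simp only [nbr]
    rw [if_neg (by omega), if_neg (by omega), Nat.add_sub_cancel]
  rw [e1]
  simp only [List.map_cons, List.map_nil]
  rw [posLe R p 0 r (c + 1) (by norm_num), posLe R p 8 r c (by norm_num),
    posLe R p 1 r (c + 1) (by norm_num), posLe R p 2 r (c + 1) (by norm_num),
    posLe R p 9 r (c + 1) (by norm_num)]
  have hc' : c < M := by omega
  have h0 := rg0 hG hr hc.le
  have h1 := rg1 hG hr.le hc
  have h2 := rg hG 2 hr hc (by norm_num) (by norm_num)
  have h8 := rg hG 8 hr hc' (by norm_num) (by norm_num)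
  have h9 := rg hG 9 hr hc (by norm_num) (by norm_num)
  have hz1 := hG.rP r (c + 1) hr hc
  simp only [lo, hi] at h2 h8 h9
  push_cast at h2 h8 h9
  obtain ⟨h0a, h0b⟩ := h0
  obtain ⟨h1a, h1b⟩ := h1
  obtain ⟨h2a, h2b⟩ := h2
  obtain ⟨h8a, h8b⟩ := h8
  obtain ⟨h9a, h9b⟩ := h9
  simp only [cx, Prod.mk_sub_mk]
  push_cast
  refine trip4 ?_ ?_ ?_ ?_ <;> unfold Ccw det <;>
    exact Or.inl ⟨by linarith, by linarith⟩

/-- Type `18`. -/
theorem rot18 (hG : Good R M p) {c : ℕ} (hc : c < M) (h4c : c % 4 = 0) :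
    ((nbr R M (18, R, c)).map fun u =>
      posT R p u - posT R p (18, R, c)).Triplewise Ccw := by
  simp only [nbr, List.map_cons, List.map_nil]
  have e16 : posT R p (16, R, c) = (80 * (c : ℝ) + 160 + p.w c,
      163 * ((c : ℝ) + R) + 1 + 163 / 80 * p.w c + p.ω) := by
    unfold posT
    simp
  have e17 : posT R p (17, R, c) = (80 * (c : ℝ) + 160 + p.w' c,
      163 * ((c : ℝ) + R) + 1 + 163 / 80 * p.w' c + p.ω) := by
    unfold posT
    simp
  have e18 : posT R p (18, R, c) = (80 * (c : ℝ) + 160 + p.u c,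
      163 * ((c : ℝ) + R) + 1 + 163 / 80 * p.u c + 9) := by
    unfold posT
    simp
  have e20 : posT R p (20, R, c) = (80 * (c : ℝ) + 160 + 160,
      163 * ((c : ℝ) + R) + 1 + 326 + 5) := by
    unfold posT
    simp
  rw [e16, e17, e18, e20, List.triplewise_triple]
  obtain ⟨ho1, ho2⟩ := hG.om
  obtain ⟨hw1, hw2⟩ := hG.rw c hc h4c
  obtain ⟨hw3, hw4⟩ := hG.rw' c hc h4c
  obtain ⟨hu1, hu2⟩ := hG.ru c hc h4c
  have hwu := hG.wu c hc h4c
  have huw := hG.uw c hc h4c
  unfold Ccw det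
  simp only [Prod.mk_sub_mk]
  have k1 : 0 < (9 - p.ω) * (160 - p.u c) := mul_pos (by linarith) (by linarith)
  have k2 : 0 ≤ (p.ω - 1) * (160 - p.u c) := mul_nonneg (by linarith) (by linarith)
  exact Or.inl ⟨by linarith, by linarith⟩

end Rot

open Rot in
/-- The rotation system. -/
theorem rot : SRot := by
  intro R M hOK p hG v hv
  obtain ⟨hR2, hR, hM4, hM⟩ := hOK
  obtain ⟨k, r, c⟩ := v
  rcases hv with h | h | h | h | h
  · simp only at h
    obtain ⟨rfl, hr, hc⟩ := h
    rcases Nat.eq_zero_or_pos c with rfl | hc0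
    · rcases Nat.mod_two_eq_zero_or_one r with h2 | h2
      · exact rot00 hG (by omega) h2 hM
      · obtain ⟨r, rfl⟩ : ∃ r', r = r' + 1 := ⟨r - 1, by omega⟩
        exact rot01 hG (by omega) (by omega) hM
    · obtain ⟨c, rfl⟩ : ∃ c', c = c' + 1 := ⟨c - 1, by omega⟩
      rcases Nat.lt_or_ge (c + 1) M with hcM | hcM
      · exact rot0 hG hr hcM
      · have e1 : nbr R M (0, r, c + 1) = [(8, r, c)] := by
          simp only [nbr]
          rw [if_neg (by omega), if_pos (by omega), Nat.add_sub_cancel]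
        rw [e1]
        exact List.triplewise_singleton _ _
  · simp only at h
    obtain ⟨rfl, hr, hc⟩ := h
    rcases Nat.eq_zero_or_pos r with rfl | hr0
    · exact rot10 hG hR hc
    · rcases Nat.lt_or_ge r R with hrR | hrR
      · obtain ⟨r, rfl⟩ : ∃ r', r = r' + 1 := ⟨r - 1, by omega⟩
        exact rot1 hG hrR hc
      · obtain rfl : r = R := le_antisymm hr hrR
        by_cases h2 : c % 4 = 2
        · obtain ⟨c, rfl⟩ : ∃ c', c = c' + 2 := ⟨c - 2, by omega⟩
          obtain ⟨r, rfl⟩ : ∃ r', r = r' + 1 := ⟨r - 1, by omega⟩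
          exact rot1R hG (by omega) (by omega)
        · simp only [nbr]
          rw [if_pos trivial]
          split_ifs
          · exact List.triplewise_pair _ _ _
          · exact List.triplewise_pair _ _ _
          · exact List.triplewise_pair _ _ _
  · simp only at h
    obtain ⟨hk2, hk14, hr, hc⟩ := h
    interval_cases k
    · exact List.triplewise_pair _ _ _
    · exact rot3 hG hr hc
    · exact List.triplewise_pair _ _ _
    · exact List.triplewise_pair _ _ _
    · exact List.triplewise_pair _ _ _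
    · exact rot7 hG hr hc
    · exact rot8 hG hr hc
    · exact List.triplewise_singleton _ _
    · exact List.triplewise_singleton _ _
    · exact List.triplewise_singleton _ _
    · exact List.triplewise_singleton _ _
    · exact List.triplewise_singleton _ _
    · exact List.triplewise_singleton _ _
  · simp only at h
    obtain ⟨rfl, hr, h2, rfl⟩ := h
    exact List.triplewise_singleton _ _
  · simp only at h
    obtain ⟨hk16, hk20, rfl, hc, h4⟩ := h
    interval_cases k
    · exact List.triplewise_singleton _ _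
    · exact List.triplewise_singleton _ _
    · exact rot18 hG hc h4
    · exact List.triplewise_pair _ _ _
    · exact List.triplewise_pair _ _ _

end Pool.Agent.SegDraw
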