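import Pool.Agent.Lib_helper69.Seg.Stmts

/-!
# Drawing a plane graph on assigned segments: soundness (module SEG_Sound)
-/

set_option autoImplicit false

namespace Pool.Agent.SegDraw

open Pool.Agent.Poly

/-! ### General lemmas -/

/-- A sublist of a triplewise list. -/
lemma snd_tri {α : Type} {p : α → α → α → Prop} {l l' : List α} (hs : l.Sublist l')
    (h : l'.Triplewise p) : l.Triplewise p := by
  induction hs with
  | slnil => exact h
  | cons a _ ih => exact ih (List.triplewise_cons.1 h).2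
  | cons_cons a hs ih =>
    rw [List.triplewise_cons] at h ⊢
    exact ⟨h.1.sublist hs, ih h.2⟩

lemma snd_nm {u v : TV} (h : nm u = nm v) : u = v := by
  obtain ⟨a, b, c⟩ := u
  obtain ⟨a', b', c'⟩ := v
  simp only [nm, Nat.pair_eq_pair] at h
  obtain ⟨rfl, rfl, rfl⟩ := h
  rfl

lemma snd_seg {a b a' b' : ℕ} {z : ℝ × ℝ} (h : z ∈ (sg a b a' b').pts) :
    ∃ t : ℝ, 0 ≤ t ∧ t ≤ 1 ∧ z = ((a : ℝ) + t * (a' - a), (b : ℝ) + t * (b' - b)) := by
  simp only [sg, Seg.pts, if_true, toR] at h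
  rw [segment_eq_image] at h
  obtain ⟨t, ⟨h0, h1⟩, rfl⟩ := h
  refine ⟨t, h0, h1, ?_⟩
  ext
  · simp
    ring
  · simp
    ring

lemma snd_vseg {R : ℕ} {v : TV} {l u : ℕ} (hr : v.2.1 ≤ R) (hlu : l ≤ u) {z : ℝ × ℝ}
    (h : z ∈ (vseg R v l u).pts) :
    ∃ t : ℝ, (l : ℝ) ≤ t ∧ t ≤ u ∧ z = (80 * (v.2.2 : ℝ) + 80 * ((R : ℝ) - v.2.1) + cx v.1,
      163 * ((v.2.2 : ℝ) + v.2.1) + t) := by
  obtain ⟨t, h0, h1, rfl⟩ := snd_seg h
  have hlu' : (l : ℝ) ≤ u := by exact_mod_cast hlu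
  refine ⟨l + t * (u - l), ?_, ?_, ?_⟩
  · nlinarith
  · nlinarith
  · ext
    · push_cast [Nat.cast_sub hr]
      ring
    · push_cast
      ring

/-- What is used of a drawing on the segments. -/
structure Snd (I : NF) (q : TV → ℝ × ℝ) : Prop where
  seg : ∀ v, inV (nR I) (nM I) v → q v ∈ (segOf I v).pts
  inj : ∀ u v, inV (nR I) (nM I) u → inV (nR I) (nM I) v → q u = q v → u = v
  vertex : ∀ x u v, inV (nR I) (nM I) x → inV (nR I) (nM I) u → v ∈ nbr (nR I) (nM I) u →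
    q x ∉ openSegment ℝ (q u) (q v)
  edge : ∀ u v u' v', inV (nR I) (nM I) u → inV (nR I) (nM I) u' → v ∈ nbr (nR I) (nM I) u →
    v' ∈ nbr (nR I) (nM I) u' → ¬ (u = u' ∧ v = v' ∨ u = v' ∧ v = u') →
    Disjoint (openSegment ℝ (q u) (q v)) (openSegment ℝ (q u') (q v'))
  rot : ∀ v, inV (nR I) (nM I) v →
    ((nbr (nR I) (nM I) v).map fun u => q u - q v).Triplewise Ccw

lemma snd_of {I : NF} (hI : NFok I) (hM : SMem) {pos : ℕ → ℝ × ℝ} (hd : IsDrawing (toInst I) pos)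
    (hp : ∀ x ∈ (toInst I).1, pos x.1 ∈ x.2.1.pts) : Snd I (fun v => pos (nm v)) := by
  have hmem : ∀ v, inV (nR I) (nM I) v → recOf I v ∈ (toInst I).1 := fun v hv =>
    List.mem_map_of_mem (((hM I hI).1 v).2 hv)
  have hadj : ∀ u v, inV (nR I) (nM I) u → v ∈ nbr (nR I) (nM I) u →
      Adj (toInst I) (nm u) (nm v) := fun u v hu hv =>
    ⟨recOf I u, hmem u hu, rfl, List.mem_map_of_mem hv⟩
  refine ⟨fun v hv => hp _ (hmem v hv), fun u v hu hv h => ?_, fun x u v hx hu hv => ?_,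
    fun u v u' v' hu hu' hv hv' h => ?_, fun v hv => ?_⟩
  · exact snd_nm (hd.inj _ (hmem u hu) _ (hmem v hv) h)
  · exact hd.vertex _ (hmem x hx) _ _ (hadj u v hu hv)
  · refine hd.edge _ _ _ _ (hadj u v hu hv) (hadj u' v' hu' hv') fun h' => h ?_
    rw [Sym2.eq_iff] at h'
    rcases h' with ⟨h1, h2⟩ | ⟨h1, h2⟩
    · exact Or.inl ⟨snd_nm h1, snd_nm h2⟩
    · exact Or.inr ⟨snd_nm h1, snd_nm h2⟩
  · have := hd.rot _ (hmem v hv)
    simp only [recOf, List.map_map] at this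
    exact this

/-- The crossing lemma. -/
lemma snd_cross {I : NF} {q : TV → ℝ × ℝ} (S : Snd I q) {u v u' v' : TV}
    (hu : inV (nR I) (nM I) u) (hu' : inV (nR I) (nM I) u') (hv : v ∈ nbr (nR I) (nM I) u)
    (hv' : v' ∈ nbr (nR I) (nM I) u') (hne : ¬ (u = u' ∧ v = v' ∨ u = v' ∧ v = u'))
    (h1 : 0 ≤ det (q v - q u) (q u' - q u)) (h2 : det (q v - q u) (q v' - q u) < 0)
    (h3 : det (q v' - q u') (q u - q u') < 0) (h4 : 0 < det (q v' - q u') (q v - q u')) :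
    False := by
  set a := q u with ha
  set b := q v with hb
  set c := q u' with hc
  set d := q v' with hd
  obtain ⟨a1, a2⟩ := a
  obtain ⟨b1, b2⟩ := b
  obtain ⟨c1, c2⟩ := c
  obtain ⟨d1, d2⟩ := d
  simp only [det, Prod.mk_sub_mk] at h1 h2 h3 h4
  set o1 := (b1 - a1) * (c2 - a2) - (b2 - a2) * (c1 - a1) with ho1
  set o2 := (b1 - a1) * (d2 - a2) - (b2 - a2) * (d1 - a1) with ho2
  set o3 := (d1 - c1) * (a2 - c2) - (d2 - c2) * (a1 - c1) with ho3
  set o4 := (d1 - c1) * (b2 - c2) - (d2 - c2) * (b1 - c1) with ho4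
  have hD : 0 < o1 - o2 := by linarith
  have hD' : o4 - o3 = o1 - o2 := by rw [ho1, ho2, ho3, ho4]; ring
  have hD0 : o1 - o2 ≠ 0 := hD.ne'
  have hs0 : 0 < -o3 / (o1 - o2) := div_pos (by linarith) hD
  have hs1 : 0 < o4 / (o1 - o2) := div_pos h4 hD
  have hs2 : o4 / (o1 - o2) + -o3 / (o1 - o2) = 1 := by
    rw [← add_div, div_eq_one_iff_eq hD0]; linarith
  have ht1 : 0 < -o2 / (o1 - o2) := div_pos (by linarith) hD
  have ht2 : -o2 / (o1 - o2) + o1 / (o1 - o2) = 1 := by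
    rw [← add_div, div_eq_one_iff_eq hD0]; ring
  have hz1 : o4 / (o1 - o2) * a1 + -o3 / (o1 - o2) * b1
      = -o2 / (o1 - o2) * c1 + o1 / (o1 - o2) * d1 := by
    field_simp
    rw [ho1, ho2, ho3, ho4]; ring
  have hz2 : o4 / (o1 - o2) * a2 + -o3 / (o1 - o2) * b2
      = -o2 / (o1 - o2) * c2 + o1 / (o1 - o2) * d2 := by
    field_simp
    rw [ho1, ho2, ho3, ho4]; ring
  rcases h1.eq_or_lt with h0 | h0
  · refine S.vertex u' u v hu' hu hv ?_
    rw [← ha, ← hb, ← hc]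
    refine ⟨_, _, hs1, hs0, hs2, ?_⟩
    have e1 : -o2 / (o1 - o2) = 1 := by
      rw [div_eq_one_iff_eq hD0, ← h0]; ring
    have e2 : o1 / (o1 - o2) = 0 := by rw [← h0]; simp
    rw [e1, e2] at hz1 hz2
    ext
    · simp only [Prod.smul_mk, Prod.mk_add_mk, smul_eq_mul]
      linarith
    · simp only [Prod.smul_mk, Prod.mk_add_mk, smul_eq_mul]
      linarith
  · have ht0 : 0 < o1 / (o1 - o2) := div_pos h0 hD
    have hdis := S.edge u v u' v' hu hu' hv hv' hne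
    rw [← ha, ← hb, ← hc, ← hd] at hdis
    refine Set.disjoint_left.1 hdis ⟨_, _, hs1, hs0, hs2, rfl⟩ ⟨_, _, ht1, ht0, ht2, ?_⟩
    ext
    · simp only [Prod.smul_mk, Prod.mk_add_mk, smul_eq_mul]
      linarith
    · simp only [Prod.smul_mk, Prod.mk_add_mk, smul_eq_mul]
      linarith

/-! ### The positions -/

/-- The relative height of a vertex. -/
noncomputable def ht (q : TV → ℝ × ℝ) (v : TV) : ℝ := (q v).2 - 163 * ((v.2.2 : ℝ) + v.2.1)

lemma snd_ht {q : TV → ℝ × ℝ} {v : TV} {x t : ℝ}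
    (h : q v = (x, 163 * ((v.2.2 : ℝ) + v.2.1) + t)) : ht q v = t := by
  rw [ht, h]; ring

lemma snd_inV {R M k r c : ℕ} : inV R M (k, r, c) ↔
    (k = 0 ∧ r < R ∧ c ≤ M) ∨ (k = 1 ∧ r ≤ R ∧ c < M) ∨ (2 ≤ k ∧ k ≤ 14 ∧ r < R ∧ c < M) ∨
    (k = 15 ∧ r < R ∧ r % 2 = 0 ∧ c = 0) ∨ (16 ≤ k ∧ k ≤ 20 ∧ r = R ∧ c < M ∧ c % 4 = 0) :=
  Iff.rfl

lemma snd_r {R M : ℕ} {v : TV} (h15 : v.1 ≤ 15) (hv : inV R M v) : v.2.1 ≤ R := by
  unfold inV at hv
  omega

lemma snd_pos {I : NF} {q : TV → ℝ × ℝ} (S : Snd I q) {k r c : ℕ} (h15 : k ≤ 15)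
    (hv : inV (nR I) (nM I) (k, r, c)) :
    q (k, r, c) = (80 * (c : ℝ) + 80 * ((nR I : ℝ) - r) + cx k, 163 * ((c : ℝ) + r) +
      ht q (k, r, c)) ∧ (lo k : ℝ) ≤ ht q (k, r, c) ∧ ht q (k, r, c) ≤ hi k := by
  have hr := snd_r h15 hv
  have hs := S.seg _ hv
  unfold segOf at hs
  split_ifs at hs with h1 h2 h3 h4
  · obtain ⟨t, h0, h1', he⟩ := snd_vseg hr le_rfl hs
    rw [snd_ht he]
    refine ⟨he, ?_, ?_⟩
    · have : k = 1 := h1.1
      subst this
      simpa [lo] using h0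
    · have : k = 1 := h1.1
      subst this
      refine h1'.trans ?_
      simp [hi]
  · obtain ⟨t, h0, h1', he⟩ := snd_vseg hr le_rfl hs
    rw [snd_ht he]
    refine ⟨he, ?_, ?_⟩
    · have : k = 1 := h1.1
      subst this
      refine le_trans ?_ h0
      simp [lo]
    · have : k = 1 := h1.1
      subst this
      refine h1'.trans ?_
      simp [hi]
  · obtain ⟨t, h0, h1', he⟩ := snd_vseg hr le_rfl hs
    rw [snd_ht he]
    have : k = 2 := h3
    subst this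
    refine ⟨he, le_trans ?_ h0, h1'.trans ?_⟩
    · simp only [lo]; norm_num
    · simp only [hi]; norm_num
  · obtain ⟨t, h0, h1', he⟩ := snd_vseg hr (by norm_num) hs
    rw [snd_ht he]
    have : k = 2 := h3
    subst this
    refine ⟨he, le_trans ?_ h0, h1'.trans ?_⟩
    · simp only [lo]; norm_num
    · simp only [hi]; norm_num
  · have hlh : lo k ≤ hi k := by
      have : k = 0 ∨ k = 1 ∨ k = 2 ∨ k = 3 ∨ k = 4 ∨ k = 5 ∨ k = 6 ∨ k = 7 ∨ k = 8 ∨ k = 9 ∨
        k = 10 ∨ k = 11 ∨ k = 12 ∨ k = 13 ∨ k = 14 ∨ k = 15 := by omega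
      rcases this with rfl | rfl | rfl | rfl | rfl | rfl | rfl | rfl | rfl | rfl | rfl | rfl |
        rfl | rfl | rfl | rfl <;> simp [lo, hi]
    obtain ⟨t, h0, h1', he⟩ := snd_vseg hr hlh hs
    rw [snd_ht he]
    exact ⟨he, h0, h1'⟩

lemma snd_Y0 {I : NF} {q : TV → ℝ × ℝ} (S : Snd I q) {c : ℕ} (hc : c < nM I) :
    ht q (1, 0, c) = if (busOf I c).1 then 0 else 1 := by
  have hs := S.seg (1, 0, c) (by unfold inV; simp [hc])
  unfold segOf at hs
  simp only [and_self, if_true] at hs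
  obtain ⟨t, h0, h1, he⟩ := snd_vseg (Nat.zero_le _) le_rfl hs
  rw [snd_ht he]
  refine le_antisymm ?_ ?_
  · refine h1.trans (le_of_eq ?_)
    split_ifs <;> simp
  · refine le_trans (le_of_eq ?_) h0
    split_ifs <;> simp

lemma snd_Padd {I : NF} {q : TV → ℝ × ℝ} (S : Snd I q) {r c : ℕ} (hr : r < nR I) (hc : c < nM I)
    (ha : isAdd I r c = true) : ht q (2, r, c) = 101 := by
  have hs := S.seg (2, r, c) (by unfold inV; simp [hr, hc])
  unfold segOf at hs
  simp only [show ¬ (2 = 1 ∧ r = 0) by omega, if_false, if_true, ha] at hs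
  obtain ⟨t, h0, h1, he⟩ := snd_vseg (v := (2, r, c)) hr.le le_rfl hs
  rw [snd_ht he]
  exact le_antisymm (by exact_mod_cast h1) (by exact_mod_cast h0)

/-! ### The relations in a cell -/

section cell

variable {I : NF} {q : TV → ℝ × ℝ}

lemma snd_rot (S : Snd I q) {v a b c : TV} (hv : inV (nR I) (nM I) v)
    (hs : [a, b, c].Sublist (nbr (nR I) (nM I) v)) : Ccw (q a - q v) (q b - q v) (q c - q v) := by
  have h := snd_tri (hs.map fun u => q u - q v) (S.rot v hv)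
  simpa using h

lemma snd_subX {R M r c : ℕ} (hc : c < M) :
    [(1, r, c), (2, r, c), (9, r, c)].Sublist (nbr R M (0, r, c)) := by
  simp only [nbr]
  split_ifs with h1 h2 h3
  · subst h1
    simp
  · subst h1
    exact List.sublist_cons_self _ _
  · omega
  · exact List.sublist_cons_self _ _

lemma snd_subY {R M r c : ℕ} (hr : r < R) :
    [(10, r, c), (4, r, c), (0, r, c)].Sublist (nbr R M (1, r, c)) := by
  simp only [nbr]
  split_ifs with h1 h2 h3
  all_goals first | omega | skip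
  · exact List.Sublist.refl _
  · simp

lemma snd_rP (S : Snd I q) {r c : ℕ} (hr : r < nR I) (hc : c < nM I) :
    205 < 2 * ht q (2, r, c) + 3 * ht q (0, r, c) := by
  have v0 : inV (nR I) (nM I) (0, r, c) := by rw [snd_inV]; omega
  have h := snd_rot S v0 (snd_subX hc)
  obtain ⟨e0, l0, u0⟩ := snd_pos S (k := 0) (r := r) (c := c) (by norm_num)
    (by rw [snd_inV]; omega)
  obtain ⟨e1, l1, u1⟩ := snd_pos S (k := 1) (r := r) (c := c) (by norm_num)
    (by rw [snd_inV]; omega)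
  obtain ⟨e2, l2, u2⟩ := snd_pos S (k := 2) (r := r) (c := c) (by norm_num)
    (by rw [snd_inV]; omega)
  obtain ⟨e3, l3, u3⟩ := snd_pos S (k := 9) (r := r) (c := c) (by norm_num)
    (by rw [snd_inV]; omega)
  rw [e0, e1, e2, e3] at h
  simp only [Ccw, det, Prod.mk_sub_mk, cx, lo, hi] at h l0 u0 l1 u1 l2 u2 l3 u3
  push_cast at h l0 u0 l1 u1 l2 u2 l3 u3
  rcases h with ⟨h1, h2⟩ | ⟨h1, h2⟩ | ⟨h1, h2⟩ <;> linarith

lemma snd_rQ (S : Snd I q) {r c : ℕ} (hr : r < nR I) (hc : c < nM I) :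
    205 < 2 * ht q (4, r, c) + 3 * ht q (1, r, c) := by
  have v0 : inV (nR I) (nM I) (1, r, c) := by rw [snd_inV]; omega
  have h := snd_rot S v0 (snd_subY hr)
  obtain ⟨e0, l0, u0⟩ := snd_pos S (k := 1) (r := r) (c := c) (by norm_num)
    (by rw [snd_inV]; omega)
  obtain ⟨e1, l1, u1⟩ := snd_pos S (k := 10) (r := r) (c := c) (by norm_num)
    (by rw [snd_inV]; omega)
  obtain ⟨e2, l2, u2⟩ := snd_pos S (k := 4) (r := r) (c := c) (by norm_num)
    (by rw [snd_inV]; omega)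
  obtain ⟨e3, l3, u3⟩ := snd_pos S (k := 0) (r := r) (c := c) (by norm_num)
    (by rw [snd_inV]; omega)
  rw [e0, e1, e2, e3] at h
  simp only [Ccw, det, Prod.mk_sub_mk, cx, lo, hi] at h l0 u0 l1 u1 l2 u2 l3 u3
  push_cast at h l0 u0 l1 u1 l2 u2 l3 u3
  rcases h with ⟨h1, h2⟩ | ⟨h1, h2⟩ | ⟨h1, h2⟩ <;> linarith

lemma snd_rZ1 (S : Snd I q) {r c : ℕ} (hr : r < nR I) (hc : c < nM I) :
    3 * ht q (3, r, c) + ht q (2, r, c) < 4 * ht q (5, r, c) := by
  have v0 : inV (nR I) (nM I) (3, r, c) := by rw [snd_inV]; omega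
  have h := snd_rot S v0 (((List.Sublist.refl _).cons _).cons_cons _)
  obtain ⟨e0, l0, u0⟩ := snd_pos S (k := 3) (r := r) (c := c) (by norm_num)
    (by rw [snd_inV]; omega)
  obtain ⟨e1, l1, u1⟩ := snd_pos S (k := 4) (r := r) (c := c) (by norm_num)
    (by rw [snd_inV]; omega)
  obtain ⟨e2, l2, u2⟩ := snd_pos S (k := 5) (r := r) (c := c) (by norm_num)
    (by rw [snd_inV]; omega)
  obtain ⟨e3, l3, u3⟩ := snd_pos S (k := 2) (r := r) (c := c) (by norm_num)
    (by rw [snd_inV]; omega)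
  rw [e0, e1, e2, e3] at h
  simp only [Ccw, det, Prod.mk_sub_mk, cx, lo, hi] at h l0 u0 l1 u1 l2 u2 l3 u3
  push_cast at h l0 u0 l1 u1 l2 u2 l3 u3
  rcases h with ⟨h1, h2⟩ | ⟨h1, h2⟩ | ⟨h1, h2⟩ <;> linarith

lemma snd_rZ2 (S : Snd I q) {r c : ℕ} (hr : r < nR I) (hc : c < nM I) :
    3 * ht q (3, r, c) + ht q (4, r, c) < 4 * ht q (6, r, c) := by
  have v0 : inV (nR I) (nM I) (3, r, c) := by rw [snd_inV]; omega
  have h := snd_rot S v0 ((((List.Sublist.refl _).cons _).cons_cons _).cons_cons _)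
  obtain ⟨e0, l0, u0⟩ := snd_pos S (k := 3) (r := r) (c := c) (by norm_num)
    (by rw [snd_inV]; omega)
  obtain ⟨e1, l1, u1⟩ := snd_pos S (k := 4) (r := r) (c := c) (by norm_num)
    (by rw [snd_inV]; omega)
  obtain ⟨e2, l2, u2⟩ := snd_pos S (k := 6) (r := r) (c := c) (by norm_num)
    (by rw [snd_inV]; omega)
  obtain ⟨e3, l3, u3⟩ := snd_pos S (k := 2) (r := r) (c := c) (by norm_num)
    (by rw [snd_inV]; omega)
  rw [e0, e1, e2, e3] at h
  simp only [Ccw, det, Prod.mk_sub_mk, cx, lo, hi] at h l0 u0 l1 u1 l2 u2 l3 u3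
  push_cast at h l0 u0 l1 u1 l2 u2 l3 u3
  rcases h with ⟨h1, h2⟩ | ⟨h1, h2⟩ | ⟨h1, h2⟩ <;> linarith

lemma snd_rG1 (S : Snd I q) {r c : ℕ} (hr : r < nR I) (hc : c < nM I) :
    ht q (7, r, c) + 2 * ht q (5, r, c) < 174 := by
  have v0 : inV (nR I) (nM I) (7, r, c) := by rw [snd_inV]; omega
  have h := snd_rot S v0 ((((List.Sublist.refl _).cons _).cons_cons _).cons_cons _)
  obtain ⟨e0, l0, u0⟩ := snd_pos S (k := 7) (r := r) (c := c) (by norm_num)
    (by rw [snd_inV]; omega)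
  obtain ⟨e1, l1, u1⟩ := snd_pos S (k := 5) (r := r) (c := c) (by norm_num)
    (by rw [snd_inV]; omega)
  obtain ⟨e2, l2, u2⟩ := snd_pos S (k := 11) (r := r) (c := c) (by norm_num)
    (by rw [snd_inV]; omega)
  obtain ⟨e3, l3, u3⟩ := snd_pos S (k := 1) (r := r + 1) (c := c) (by norm_num)
    (by rw [snd_inV]; omega)
  rw [e0, e1, e2, e3] at h
  simp only [Ccw, det, Prod.mk_sub_mk, cx, lo, hi] at h l0 u0 l1 u1 l2 u2 l3 u3
  push_cast at h l0 u0 l1 u1 l2 u2 l3 u3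
  rcases h with ⟨h1, h2⟩ | ⟨h1, h2⟩ | ⟨h1, h2⟩ <;> linarith

lemma snd_rH1 (S : Snd I q) {r c : ℕ} (hr : r < nR I) (hc : c < nM I) :
    980 < 3 * (163 + ht q (1, r + 1, c)) + 4 * ht q (7, r, c) := by
  have v0 : inV (nR I) (nM I) (7, r, c) := by rw [snd_inV]; omega
  have h := snd_rot S v0 (((List.Sublist.refl _).cons _).cons_cons _)
  obtain ⟨e0, l0, u0⟩ := snd_pos S (k := 7) (r := r) (c := c) (by norm_num)
    (by rw [snd_inV]; omega)
  obtain ⟨e1, l1, u1⟩ := snd_pos S (k := 5) (r := r) (c := c) (by norm_num)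
    (by rw [snd_inV]; omega)
  obtain ⟨e2, l2, u2⟩ := snd_pos S (k := 12) (r := r) (c := c) (by norm_num)
    (by rw [snd_inV]; omega)
  obtain ⟨e3, l3, u3⟩ := snd_pos S (k := 1) (r := r + 1) (c := c) (by norm_num)
    (by rw [snd_inV]; omega)
  rw [e0, e1, e2, e3] at h
  simp only [Ccw, det, Prod.mk_sub_mk, cx, lo, hi] at h l0 u0 l1 u1 l2 u2 l3 u3
  push_cast at h l0 u0 l1 u1 l2 u2 l3 u3
  rcases h with ⟨h1, h2⟩ | ⟨h1, h2⟩ | ⟨h1, h2⟩ <;> linarith

lemma snd_rG2 (S : Snd I q) {r c : ℕ} (hr : r < nR I) (hc : c < nM I) :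
    ht q (8, r, c) + 2 * ht q (6, r, c) < 174 := by
  have v0 : inV (nR I) (nM I) (8, r, c) := by rw [snd_inV]; omega
  have h := snd_rot S v0 (((List.Sublist.refl _).cons _).cons_cons _)
  obtain ⟨e0, l0, u0⟩ := snd_pos S (k := 8) (r := r) (c := c) (by norm_num)
    (by rw [snd_inV]; omega)
  obtain ⟨e1, l1, u1⟩ := snd_pos S (k := 0) (r := r) (c := c + 1) (by norm_num)
    (by rw [snd_inV]; omega)
  obtain ⟨e2, l2, u2⟩ := snd_pos S (k := 13) (r := r) (c := c) (by norm_num)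
    (by rw [snd_inV]; omega)
  obtain ⟨e3, l3, u3⟩ := snd_pos S (k := 6) (r := r) (c := c) (by norm_num)
    (by rw [snd_inV]; omega)
  rw [e0, e1, e2, e3] at h
  simp only [Ccw, det, Prod.mk_sub_mk, cx, lo, hi] at h l0 u0 l1 u1 l2 u2 l3 u3
  push_cast at h l0 u0 l1 u1 l2 u2 l3 u3
  rcases h with ⟨h1, h2⟩ | ⟨h1, h2⟩ | ⟨h1, h2⟩ <;> linarith

lemma snd_rH2 (S : Snd I q) {r c : ℕ} (hr : r < nR I) (hc : c < nM I) :
    980 < 3 * (163 + ht q (0, r, c + 1)) + 4 * ht q (8, r, c) := by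
  have v0 : inV (nR I) (nM I) (8, r, c) := by rw [snd_inV]; omega
  have h := snd_rot S v0 ((((List.Sublist.refl _).cons _).cons_cons _).cons_cons _)
  obtain ⟨e0, l0, u0⟩ := snd_pos S (k := 8) (r := r) (c := c) (by norm_num)
    (by rw [snd_inV]; omega)
  obtain ⟨e1, l1, u1⟩ := snd_pos S (k := 0) (r := r) (c := c + 1) (by norm_num)
    (by rw [snd_inV]; omega)
  obtain ⟨e2, l2, u2⟩ := snd_pos S (k := 14) (r := r) (c := c) (by norm_num)
    (by rw [snd_inV]; omega)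
  obtain ⟨e3, l3, u3⟩ := snd_pos S (k := 6) (r := r) (c := c) (by norm_num)
    (by rw [snd_inV]; omega)
  rw [e0, e1, e2, e3] at h
  simp only [Ccw, det, Prod.mk_sub_mk, cx, lo, hi] at h l0 u0 l1 u1 l2 u2 l3 u3
  push_cast at h l0 u0 l1 u1 l2 u2 l3 u3
  rcases h with ⟨h1, h2⟩ | ⟨h1, h2⟩ | ⟨h1, h2⟩ <;> linarith

lemma snd_subE {R M r : ℕ} (hr : r % 2 = 0) :
    [(2, r, 0), (0, r + 1, 0), (15, r, 0)].Sublist (nbr R M (0, r, 0)) := by
  simp only [nbr, if_true, if_pos hr]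
  exact (((List.Sublist.refl _).cons _).cons_cons _).cons _

lemma snd_rE (S : Snd I q) {r : ℕ} (hr : r + 1 < nR I) (h2 : r % 2 = 0)
    (hM : 0 < nM I) :
    3 < ht q (0, r, 0) + ht q (0, r + 1, 0) := by
  have v0 : inV (nR I) (nM I) (0, r, 0) := by rw [snd_inV]; omega
  have h := snd_rot S v0 (snd_subE h2)
  obtain ⟨e0, l0, u0⟩ := snd_pos S (k := 0) (r := r) (c := 0) (by norm_num)
    (by rw [snd_inV]; omega)
  obtain ⟨e1, l1, u1⟩ := snd_pos S (k := 2) (r := r) (c := 0) (by norm_num)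
    (by rw [snd_inV]; omega)
  obtain ⟨e2, l2, u2⟩ := snd_pos S (k := 0) (r := r + 1) (c := 0) (by norm_num)
    (by rw [snd_inV]; omega)
  obtain ⟨e3, l3, u3⟩ := snd_pos S (k := 15) (r := r) (c := 0) (by norm_num)
    (by rw [snd_inV]; omega)
  rw [e0, e1, e2, e3] at h
  simp only [Ccw, det, Prod.mk_sub_mk, cx, lo, hi] at h l0 u0 l1 u1 l2 u2 l3 u3
  push_cast at h l0 u0 l1 u1 l2 u2 l3 u3
  rcases h with ⟨h1, h2⟩ | ⟨h1, h2⟩ | ⟨h1, h2⟩ <;> linarith

lemma snd_rS (S : Snd I q) {r c : ℕ} (hr : r < nR I) (hc : c < nM I) :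
    ht q (0, r, c) + ht q (1, r, c) < 2 * ht q (3, r, c) := by
  by_contra hlt
  obtain ⟨e0, l0, u0⟩ := snd_pos S (k := 1) (r := r) (c := c) (by norm_num)
    (by rw [snd_inV]; omega)
  obtain ⟨e1, l1, u1⟩ := snd_pos S (k := 0) (r := r) (c := c) (by norm_num)
    (by rw [snd_inV]; omega)
  obtain ⟨e2, l2, u2⟩ := snd_pos S (k := 3) (r := r) (c := c) (by norm_num)
    (by rw [snd_inV]; omega)
  obtain ⟨e3, l3, u3⟩ := snd_pos S (k := 2) (r := r) (c := c) (by norm_num)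
    (by rw [snd_inV]; omega)
  simp only [cx, lo, hi] at e0 e1 e2 e3 l0 u0 l1 u1 l2 u2 l3 u3
  push_cast at e0 e1 e2 e3 l0 u0 l1 u1 l2 u2 l3 u3
  refine snd_cross S (u := (1, r, c)) (v := (0, r, c)) (u' := (3, r, c)) (v' := (2, r, c))
    (by rw [snd_inV]; omega) (by rw [snd_inV]; omega) ((snd_subY hr).subset (by simp))
    (by simp [nbr]) (by simp) ?_ ?_ ?_ ?_
  all_goals
    simp only [e0, e1, e2, e3, det, Prod.mk_sub_mk]
    linarith

/-- In every cell the row signal grows. -/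
lemma snd_growX (S : Snd I q) {r c : ℕ} (hr : r < nR I) (hc : c < nM I) :
    ht q (0, r, c) < ht q (0, r, c + 1) := by
  have h1 := snd_rS S hr hc
  have h2 := snd_rQ S hr hc
  have h3 := snd_rZ2 S hr hc
  have h4 := snd_rG2 S hr hc
  have h5 := snd_rH2 S hr hc
  linarith

/-- In a crossing cell the bus signal grows. -/
lemma snd_growY (S : Snd I q) {r c : ℕ} (hr : r < nR I) (hc : c < nM I) :
    ht q (1, r, c) < ht q (1, r + 1, c) := by
  have h1 := snd_rS S hr hc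
  have h2 := snd_rP S hr hc
  have h3 := snd_rZ1 S hr hc
  have h4 := snd_rG1 S hr hc
  have h5 := snd_rH1 S hr hc
  linarith

/-- In an adding cell the row signal is added to the bus signal. -/
lemma snd_add (S : Snd I q) {r c : ℕ} (hr : r < nR I) (hc : c < nM I)
    (ha : isAdd I r c = true) :
    ht q (1, r, c) - 1 + (ht q (0, r, c) - 1) < ht q (1, r + 1, c) - 1 := by
  have h1 := snd_rS S hr hc
  have h2 := snd_Padd S hr hc ha
  have h3 := snd_rZ1 S hr hc
  have h4 := snd_rG1 S hr hc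
  have h5 := snd_rH1 S hr hc
  linarith

end cell

/-! ### The values -/

section vals

variable {I : NF} {q : TV → ℝ × ℝ}

/-- The solution read off from the drawing. -/
noncomputable def yOf (q : TV → ℝ × ℝ) (i : ℕ) : ℝ := ht q (0, 2 * i, 0) - 1

lemma snd_row (S : Snd I q) (hM : 0 < nM I) {r : ℕ} (hr : r < nR I) :
    ∀ c ≤ nM I, rowVal (yOf q) r ≤ ht q (0, r, c) - 1 := by
  intro c
  induction c with
  | zero =>
    intro _
    unfold rowVal yOf
    split_ifs with h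
    · have : 2 * (r / 2) = r := by omega
      rw [this]
    · have h1 : 2 * (r / 2) + 1 = r := by omega
      have h2 := snd_rE S (r := 2 * (r / 2)) (by omega) (by omega) hM
      rw [h1] at h2
      linarith
  | succ c ih =>
    intro hc
    have h1 := ih (by omega)
    have h2 := snd_growX S hr (c := c) (by omega)
    linarith

lemma snd_bus (S : Snd I q) {c : ℕ} (hc : c < nM I) :
    ∀ r ≤ nR I, busVal I (yOf q) c r ≤ ht q (1, r, c) - 1 := by
  intro r
  induction r with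
  | zero =>
    intro _
    rw [snd_Y0 S hc]
    unfold busVal
    split_ifs <;> simp
  | succ r ih =>
    intro hr
    have h1 := ih (by omega)
    have hr' : r < nR I := by omega
    have h2 : busVal I (yOf q) c (r + 1)
        = busVal I (yOf q) c r + if isAdd I r c then rowVal (yOf q) r else 0 := by
      unfold busVal
      rw [Finset.sum_range_succ]
      ring
    rw [h2]
    split_ifs with ha
    · have h3 := snd_add S hr' hc ha
      have h4 := snd_row S (by omega) hr' c hc.le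
      linarith
    · have h3 := snd_growY S hr' hc
      linarith

end vals

/-! ### The tests -/

section test

variable {I : NF} {q : TV → ℝ × ℝ}

lemma snd_num {a b X v : ℝ} (hX0 : 0 ≤ X) (hv0 : 0 ≤ v) (hXv : X + v < 1)
    (ha : -1 ≤ a) (hb : b ≤ 3) (h : 1 ≤ (1 - X) * a + X * b)
    (hne : ¬ (X = 0 ∧ a = 1)) :
    0 < 9 - b + (a - b) * v ∧ (1 + v - X) * (b - 1) < 8 * (1 - X) ∧
      0 < (1 + v - X) * (a - 1) + 8 * X := by
  refine ⟨?_, ?_, ?_⟩
  · nlinarith [mul_nonneg hv0 (by linarith : 0 ≤ a - b + 4)]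
  · nlinarith [mul_nonneg (by linarith : 0 ≤ 1 + v - X) (by linarith : 0 ≤ 3 - b)]
  · rcases hX0.eq_or_lt with h0 | h0
    · subst h0
      have ha1 : 1 ≤ a := by linarith
      have ha2 : 1 < a := lt_of_le_of_ne ha1 fun h' => hne ⟨rfl, h'.symm⟩
      nlinarith [mul_pos (by linarith : 0 < 1 + v) (by linarith : 0 < a - 1)]
    · rcases le_or_gt 1 a with h1 | h1
      · nlinarith [mul_nonneg (by linarith : 0 ≤ 1 + v - X) (by linarith : 0 ≤ a - 1)]
      · nlinarith [mul_nonneg (by linarith : 0 ≤ 1 - X - v) (by linarith : 0 ≤ 1 - a),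
          mul_nonneg hX0 (by linarith : 0 ≤ 3 - b)]

/-- The condition of a test. -/
lemma snd_test (S : Snd I q) {c : ℕ} (hc : c < nM I) (h4 : c % 4 = 0) :
    ∃ X X' : ℝ, 0 ≤ X ∧ X ≤ 1 ∧ 0 ≤ X' ∧ X' ≤ 1 ∧
      testAt (ht q (1, nR I, c) - 1) (ht q (1, nR I, c + 1) - 1) (ht q (1, nR I, c + 2) - 1)
        (ht q (1, nR I, c + 3) - 1) X X' 1 := by
  have hM : nM I % 4 = 0 := by unfold nM; omega
  have vW : inV (nR I) (nM I) (16, nR I, c) := by rw [snd_inV]; omega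
  have vW' : inV (nR I) (nM I) (17, nR I, c) := by rw [snd_inV]; omega
  have vV : inV (nR I) (nM I) (18, nR I, c) := by rw [snd_inV]; omega
  have vG : inV (nR I) (nM I) (19, nR I, c) := by rw [snd_inV]; omega
  have vG' : inV (nR I) (nM I) (20, nR I, c) := by rw [snd_inV]; omega
  have vA : inV (nR I) (nM I) (1, nR I, c) := by rw [snd_inV]; omega
  have vB : inV (nR I) (nM I) (1, nR I, c + 1) := by rw [snd_inV]; omega
  have vC : inV (nR I) (nM I) (1, nR I, c + 2) := by rw [snd_inV]; omega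
  have vD : inV (nR I) (nM I) (1, nR I, c + 3) := by rw [snd_inV]; omega
  obtain ⟨eA, lA, uA⟩ := snd_pos S (by norm_num) vA
  obtain ⟨eB, lB, uB⟩ := snd_pos S (by norm_num) vB
  obtain ⟨eC, lC, uC⟩ := snd_pos S (by norm_num) vC
  obtain ⟨eD, lD, uD⟩ := snd_pos S (by norm_num) vD
  obtain ⟨X, hX0, hX1, eW⟩ := snd_seg (S.seg _ vW)
  obtain ⟨X', hX0', hX1', eW'⟩ := snd_seg (S.seg _ vW')
  obtain ⟨v, hv0, hv1, eV⟩ := snd_seg (S.seg _ vV)
  obtain ⟨g, -, -, eG⟩ := snd_seg (S.seg _ vG)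
  obtain ⟨g', -, -, eG'⟩ := snd_seg (S.seg _ vG')
  simp only [cx, lo, hi] at eA lA uA eB lB uB eC lC uC eD lD uD
  push_cast at eA lA uA eB lB uB eC lC uC eD lD uD eW eW' eV eG eG'
  set a := ht q (1, nR I, c) with ha
  set b := ht q (1, nR I, c + 1) with hb
  set a' := ht q (1, nR I, c + 2) with ha'
  set b' := ht q (1, nR I, c + 3) with hb'
  have h1 : X + v < 1 := by
    by_contra hlt
    refine snd_cross S (u := (16, nR I, c)) (v := (18, nR I, c)) (u' := (19, nR I, c))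
      (v' := (20, nR I, c)) vW vG (by simp [nbr]) (by simp [nbr]) (by simp) ?_ ?_ ?_ ?_
    all_goals
      simp only [eW, eV, eG, eG', det, Prod.mk_sub_mk]
      nlinarith
  have h2 : 1 < X' + v := by
    by_contra hlt
    refine snd_cross S (u := (18, nR I, c)) (v := (17, nR I, c)) (u' := (20, nR I, c))
      (v' := (19, nR I, c)) vV vG' (by simp [nbr]) (by simp [nbr]) (by simp) ?_ ?_ ?_ ?_
    all_goals
      simp only [eW', eV, eG, eG', det, Prod.mk_sub_mk]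
      nlinarith
  refine ⟨X, X', hX0, hX1, hX0', hX1', by linarith, ?_, ?_⟩
  · by_contra hlt
    have hne : ¬ (X = 0 ∧ a - 1 = 1) := fun h => by
      have := S.inj _ _ vA vW (by rw [eA, eW, h.1, show a = 2 by linarith [h.2]]; ext <;> ring)
      simp at this
    obtain ⟨n1, n2, n3⟩ := snd_num hX0 hv0 h1 (by linarith) (by linarith) (not_lt.1 hlt) hne
    refine snd_cross S (u := (1, nR I, c + 1)) (v := (1, nR I, c)) (u' := (16, nR I, c))
      (v' := (18, nR I, c)) vB vW ?_ (by simp [nbr]) (by simp) ?_ ?_ ?_ ?_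
    · simp only [nbr, if_true]
      rw [if_neg (by omega), if_pos (by omega)]
      simp
    all_goals
      simp only [eA, eB, eW, eV, det, Prod.mk_sub_mk]
      nlinarith
  · by_contra hlt
    have hne : ¬ (1 - X' = 0 ∧ b' - 1 = 1) := fun h => by
      have := S.inj _ _ vD vW' (by
        rw [eD, eW', show X' = 1 by linarith [h.1], show b' = 2 by linarith [h.2]]; ext <;> ring)
      simp at this
    obtain ⟨n1, n2, n3⟩ := snd_num (X := 1 - X') (v := 1 - v) (a := b' - 1) (b := a' - 1)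
      (by linarith) (by linarith) (by linarith) (by linarith) (by linarith)
      (by linarith [not_lt.1 hlt]) hne
    refine snd_cross S (u := (1, nR I, c + 3)) (v := (1, nR I, c + 2)) (u' := (17, nR I, c))
      (v' := (18, nR I, c)) vD vW' ?_ (by simp [nbr]) (by simp) ?_ ?_ ?_ ?_
    · simp only [nbr, if_true]
      rw [if_neg (by omega), if_neg (by omega), if_neg (by omega)]
      simp
    all_goals
      simp only [eC, eD, eW', eV, det, Prod.mk_sub_mk]
      nlinarith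

end test

/-- A drawing on the segments gives a solution. -/
theorem sound : (SMem) → SSound := by
  intro hM I hI ⟨pos, hd, hp⟩
  have S := snd_of hI hM hd hp
  set q : TV → ℝ × ℝ := fun v => pos (nm v) with hq
  refine ⟨yOf q, fun j hj => ?_⟩
  have hc : 4 * j + 3 < nM I := by unfold nM; omega
  obtain ⟨X, X', h0, h1, h0', h1', hlt, t1, t2⟩ := snd_test S (c := 4 * j) (by omega)
    (by omega)
  refine ⟨X, X', h0, h1', hlt, ?_, ?_⟩
  · have b1 := snd_bus S (c := 4 * j) (by omega) _ le_rfl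
    have b2 := snd_bus S (c := 4 * j + 1) (by omega) _ le_rfl
    refine lt_of_le_of_lt ?_ t1
    exact add_le_add (mul_le_mul_of_nonneg_left b1 (by linarith))
      (mul_le_mul_of_nonneg_left b2 h0)
  · have b1 := snd_bus S (c := 4 * j + 2) (by omega) _ le_rfl
    have b2 := snd_bus S (c := 4 * j + 3) (by omega) _ le_rfl
    refine lt_of_le_of_lt ?_ t2
    exact add_le_add (mul_le_mul_of_nonneg_left b1 (by linarith))
      (mul_le_mul_of_nonneg_left b2 h0')

end Pool.Agent.SegDraw
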