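import Pool.Agent.Lib_helper69.Seg.Constr

/-!
# Drawing a plane graph on assigned segments: statements of the modules
-/

set_option autoImplicit false

namespace Pool.Agent.SegDraw

open Pool.Agent.Poly

/-- Each open segment misses the other closed segment. -/
def NC (p q p' q' : ℝ × ℝ) : Prop :=
  Disjoint (openSegment ℝ p q) (segment ℝ p' q') ∧ Disjoint (openSegment ℝ p' q') (segment ℝ p q)

/-! ### Canonical edges: number, row, bus; first the left endpoint, then the right one -/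

/-- Left endpoint. -/
def eL : ℕ → ℕ → ℕ → TV
  | 0, r, c => (0, r, c) | 1, r, c => (2, r, c) | 2, r, c => (1, r, c) | 3, r, c => (2, r, c)
  | 4, r, c => (3, r, c) | 5, r, c => (5, r, c) | 6, r, c => (3, r, c) | 7, r, c => (7, r, c)
  | 8, r, c => (6, r, c) | 9, r, c => (7, r, c) | 10, r, c => (0, r, c + 1)
  | 11, r, c => (9, r, c) | 12, r, c => (1, r, c) | 13, r, c => (7, r, c) | 14, r, c => (7, r, c)
  | 15, r, c => (13, r, c) | 16, r, c => (14, r, c) | 17, r, c => (0, r + 1, c)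
  | 18, r, c => (15, r, c) | 19, r, c => (1, r, c) | 20, r, c => (1, r, c + 2)
  | 21, r, c => (19, r, c) | 22, r, c => (19, r, c) | 23, r, c => (16, r, c)
  | 24, r, c => (18, r, c) | _, r, c => (18, r, c)

/-- Right endpoint. -/
def eR : ℕ → ℕ → ℕ → TV
  | 0, r, c => (1, r, c) | 1, r, c => (0, r, c) | 2, r, c => (4, r, c) | 3, r, c => (3, r, c)
  | 4, r, c => (4, r, c) | 5, r, c => (3, r, c) | 6, r, c => (6, r, c) | 7, r, c => (5, r, c)
  | 8, r, c => (8, r, c) | 9, r, c => (1, r + 1, c) | 10, r, c => (8, r, c)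
  | 11, r, c => (0, r, c) | 12, r, c => (10, r, c) | 13, r, c => (11, r, c)
  | 14, r, c => (12, r, c) | 15, r, c => (8, r, c) | 16, r, c => (8, r, c)
  | 17, r, c => (0, r, c) | 18, r, c => (0, r, c) | 19, r, c => (1, r, c + 1)
  | 20, r, c => (1, r, c + 3) | 21, r, c => (20, r, c) | 22, r, c => (1, r, c + 2)
  | 23, r, c => (18, r, c) | 24, r, c => (17, r, c) | _, r, c => (20, r, c)

/-- The canonical edges of the graph. -/
def vE (R M i r c : ℕ) : Prop :=
  (i ≤ 16 ∧ r < R ∧ c < M) ∨ ((i = 17 ∨ i = 18) ∧ r < R ∧ r % 2 = 0 ∧ c = 0) ∨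
  (19 ≤ i ∧ i ≤ 25 ∧ r = R ∧ c < M ∧ c % 4 = 0)

/-- The union of the canonical edges. -/
def drawnT (R M : ℕ) (p : Par) : Set (ℝ × ℝ) :=
  {z | ∃ i r c, vE R M i r c ∧ z ∈ segment ℝ (posT R p (eL i r c)) (posT R p (eR i r c))}

/-- `R` rows and `M` buses. -/
def OK (R M : ℕ) : Prop := R % 2 = 0 ∧ 0 < R ∧ M % 4 = 0 ∧ 0 < M

/-! ### Combinatorics -/

/-- CANON: every adjacency is a canonical edge. -/
def SCanon : Prop := ∀ R M, OK R M → ∀ u v, inV R M u → v ∈ nbr R M u →
  inV R M v ∧ u ∈ nbr R M v ∧ ∃ i r c, vE R M i r c ∧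
    ((u = eL i r c ∧ v = eR i r c) ∨ (u = eR i r c ∧ v = eL i r c))

/-- CANON: and conversely. -/
def SCanon' : Prop := ∀ R M, OK R M → ∀ i r c, vE R M i r c →
  inV R M (eL i r c) ∧ inV R M (eR i r c) ∧ eR i r c ∈ nbr R M (eL i r c)

/-- CANON: a canonical edge is determined by its endpoints. -/
def SCanonInj : Prop := ∀ R M, OK R M → ∀ i r c i' r' c', vE R M i r c → vE R M i' r' c' →
  (eL i r c = eL i' r' c' ∧ eR i r c = eR i' r' c') ∨
  (eL i r c = eR i' r' c' ∧ eR i r c = eL i' r' c') → i = i' ∧ r = r' ∧ c = c'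

/-- MEM: the typed vertices in the list, each once. -/
def SMem : Prop := ∀ I : NF, NFok I → (∀ v, v ∈ vlist I ↔ inV (nR I) (nM I) v) ∧ (vlist I).Nodup

/-- CONN: the typed graph is connected. -/
def SConn : Prop := ∀ R M, OK R M → ∀ u, inV R M u →
  Relation.ReflTransGen (fun a b => inV R M a ∧ b ∈ nbr R M a) (0, 0, 0) u

/-- NBR: neighbour lists have no repetitions and no loops. -/
def SNbr : Prop := ∀ R M, OK R M → ∀ u, inV R M u → (nbr R M u).Nodup ∧ u ∉ nbr R M u

/-! ### Geometry of the drawing of good parameters -/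

/-- INJ: different vertices are at different points. -/
def SInj : Prop := ∀ R M, OK R M → ∀ p, Good R M p → ∀ u v, inV R M u → inV R M v →
  posT R p u = posT R p v → u = v

/-- ROT: the rotation system. -/
def SRot : Prop := ∀ R M, OK R M → ∀ p, Good R M p → ∀ v, inV R M v →
  ((nbr R M v).map fun u => posT R p u - posT R p v).Triplewise Ccw

/-- OUT: the outer face. -/
def SOut : Prop := ∀ R M, OK R M → ∀ p, Good R M p →
  OuterRight (drawnT R M p) (posT R p (0, 0, 0)) (posT R p (1, 0, 0))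

/-- NCF: two edges of cells do not cross. -/
def SNcf : Prop := ∀ R M, OK R M → ∀ p, Good R M p → ∀ i r c i' r' c',
  vE R M i r c → vE R M i' r' c' → i ≤ 18 → i' ≤ 18 → ¬ (i = i' ∧ r = r' ∧ c = c') →
  NC (posT R p (eL i r c)) (posT R p (eR i r c)) (posT R p (eL i' r' c')) (posT R p (eR i' r' c'))

/-- NCFT: an edge of a cell and an edge of a test do not cross. -/
def SNcft : Prop := ∀ R M, OK R M → ∀ p, Good R M p → ∀ i r c i' r' c',
  vE R M i r c → vE R M i' r' c' → i ≤ 18 → 19 ≤ i' →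
  NC (posT R p (eL i r c)) (posT R p (eR i r c)) (posT R p (eL i' r' c')) (posT R p (eR i' r' c'))

/-- NCT: two edges of tests do not cross. -/
def SNct : Prop := ∀ R M, OK R M → ∀ p, Good R M p → ∀ i r c i' r' c',
  vE R M i r c → vE R M i' r' c' → 19 ≤ i → 19 ≤ i' → ¬ (i = i' ∧ r = r' ∧ c = c') →
  NC (posT R p (eL i r c)) (posT R p (eR i r c)) (posT R p (eL i' r' c')) (posT R p (eR i' r' c'))

/-! ### The two directions -/

/-- PAR: values of the variables and tests give good parameters, with all vertices on their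
segments (except `W` and `W'` if `ω ≠ 1`). -/
def SPar : Prop := ∀ I : NF, NFok I → ∀ y : ℕ → ℝ, (∀ i, 0 < y i ∧ y i < 1) → ∀ ω : ℝ,
  (1 ≤ ω ∧ ω ≤ 4) → (∀ j < I.2.1, ∃ X X' : ℝ, 0 < X ∧ X' < 1 ∧
    testAt (busVal I y (4 * j) (nR I)) (busVal I y (4 * j + 1) (nR I))
      (busVal I y (4 * j + 2) (nR I)) (busVal I y (4 * j + 3) (nR I)) X X' ω) →
  ∃ p, Good (nR I) (nM I) p ∧ p.ω = ω ∧ ∀ v, inV (nR I) (nM I) v →
    (v.1 = 16 ∨ v.1 = 17 → ω = 1) → posT (nR I) p v ∈ (segOf I v).pts

/-- DRAW: good parameters give a drawing. -/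
def SDraw : Prop := ∀ I : NF, NFok I → ∀ p, Good (nR I) (nM I) p →
  IsDrawing (toInst I) (posOf (nR I) p)

/-- GRAPH: the instance is a connected graph. -/
def SGraph : Prop := ∀ I : NF, NFok I → IsGraph (toInst I)

/-- SOUND: a drawing on the segments gives a solution. -/
def SSound : Prop := ∀ I : NF, NFok I → Drawable (toInst I) → NFweak I

/-- POLY: the construction is a polynomial time one. -/
def SPoly : Prop := PolyTime toInst

/-! ### From stretchability to the normal form -/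

/-- Four buses. -/
abbrev Quad : Type := Bus × Bus × Bus × Bus

/-- Four times the same bus, collecting the rows `a` and `b`. -/
def same (a b : ℕ) : Quad := ((false, [a, b]), (false, [a, b]), (false, [a, b]), (false, [a, b]))

/-- The test of an entry. -/
def entryTest (n : ℕ) (t : ℕ × ℕ × ℕ × Bool) : Quad :=
  if t.1 < t.2.1 ∧ t.2.1 < t.2.2.1 ∧ t.2.2.1 < n then
    if t.2.2.2 = true then
      ((false, [4 * t.1, 4 * t.2.1 + 1]), (false, [4 * t.1 + 2, 4 * t.2.1 + 3]),
        (false, [4 * t.2.2.1, 4 * t.2.1 + 1]), (false, [4 * t.2.2.1 + 2, 4 * t.2.1 + 3]))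
    else
      ((false, [4 * t.2.1, 4 * t.2.2.1 + 1]), (false, [4 * t.2.1 + 2, 4 * t.2.2.1 + 3]),
        (false, [4 * t.2.1, 4 * t.1 + 1]), (false, [4 * t.2.1 + 2, 4 * t.1 + 3]))
  else same 0 1

/-- All tests. -/
def tests (I : StretchInst) : List Quad :=
  ((false, [4 * I.1]), (false, [4 * I.1]), (false, [4 * I.1]), (false, [4 * I.1])) ::
    (((List.range (I.1 - 1)).map fun i => same (4 * (i + 1)) (4 * i + 1)) ++
    (((List.range (I.1 - 1)).map fun i => same (4 * i + 2) (4 * (i + 1) + 3)) ++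
    I.2.map (entryTest I.1)))

/-- The normal form of a stretchability instance. -/
def toNF (I : StretchInst) : NF :=
  (2 * I.1 + 1, (tests I).length, (tests I).flatMap fun t => [t.1, t.2.1, t.2.2.1, t.2.2.2])

/-- STR1. -/
def SStr1 : Prop := ∀ I, NFok (toNF I) ∧ (Stretchable I → NFsat (toNF I))

/-- STR2. -/
def SStr2 : Prop := ∀ I, NFweak (toNF I) → Stretchable I

/-- STR3. -/
def SStr3 : Prop := PolyTime toNF

/-- FINAL: simple stretchability reduces in polynomial time to drawing a plane graph on closed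
segments, without obstacles. -/
def SFinal : Prop := ∃ f : StretchInst → Inst, PolyTime f ∧
  ∀ a, (IsPlane (f a) ∧ ∀ x ∈ (f a).1, x.2.1.2 = true) ∧ (Stretchable a ↔ Drawable (f a))

end Pool.Agent.SegDraw
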