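import Pool.Agent.Lib_helper69.Seg.Stmts

/-!
# Drawing a plane graph on assigned segments: stretchability and its normal form

The modules STR1 and STR2: a stretchability instance `I` and its normal form `toNF I` are
equivalent.
-/

set_option autoImplicit false

namespace Pool.Agent.SegDraw

open Pool.Agent.Poly

namespace Str

/-- The final value of a bus, `R` being the number of rows. -/
noncomputable def bval (R : ℕ) (y : ℕ → ℝ) (b : Bus) : ℝ :=
  (if b.1 then -1 else 0) + ∑ r' ∈ Finset.range R, if decide (r' ∈ b.2) then rowVal y r' else 0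

theorem busVal_eq (I : NF) (y : ℕ → ℝ) (c R : ℕ) : busVal I y c R = bval R y (busOf I c) := rfl

theorem getD_flat (d : Bus) : ∀ (l : List Quad) (j : ℕ) (hj : j < l.length),
    (l.flatMap fun t => [t.1, t.2.1, t.2.2.1, t.2.2.2]).getD (4 * j) d = l[j].1 ∧
    (l.flatMap fun t => [t.1, t.2.1, t.2.2.1, t.2.2.2]).getD (4 * j + 1) d = l[j].2.1 ∧
    (l.flatMap fun t => [t.1, t.2.1, t.2.2.1, t.2.2.2]).getD (4 * j + 2) d = l[j].2.2.1 ∧
    (l.flatMap fun t => [t.1, t.2.1, t.2.2.1, t.2.2.2]).getD (4 * j + 3) d = l[j].2.2.2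
  | [], j, hj => by simp at hj
  | t :: l, 0, hj => by simp
  | t :: l, j + 1, hj => by
    have ih := getD_flat d l j (by simpa using hj)
    have e : 4 * (j + 1) = 4 * j + 1 + 1 + 1 + 1 := by ring
    simp only [List.flatMap_cons, List.cons_append, List.nil_append, e,
      List.getElem_cons_succ]
    simpa only [List.getD_cons_succ] using ih

theorem toNF_R (I : StretchInst) : nR (toNF I) = 4 * I.1 + 2 := by
  simp only [nR, toNF]; ring

/-- The conditions on the buses in terms of the list of tests. -/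
theorem forall_tests (I : StretchInst) (y : ℕ → ℝ) (P : ℝ → ℝ → ℝ → ℝ → Prop) :
    (∀ j < (toNF I).2.1, P (busVal (toNF I) y (4 * j) (nR (toNF I)))
      (busVal (toNF I) y (4 * j + 1) (nR (toNF I)))
      (busVal (toNF I) y (4 * j + 2) (nR (toNF I)))
      (busVal (toNF I) y (4 * j + 3) (nR (toNF I)))) ↔
    ∀ t ∈ tests I, P (bval (4 * I.1 + 2) y t.1) (bval (4 * I.1 + 2) y t.2.1)
      (bval (4 * I.1 + 2) y t.2.2.1) (bval (4 * I.1 + 2) y t.2.2.2) := by
  have hb : ∀ j (hj : j < (tests I).length),
      busOf (toNF I) (4 * j) = (tests I)[j].1 ∧ busOf (toNF I) (4 * j + 1) = (tests I)[j].2.1 ∧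
      busOf (toNF I) (4 * j + 2) = (tests I)[j].2.2.1 ∧
      busOf (toNF I) (4 * j + 3) = (tests I)[j].2.2.2 := fun j hj =>
    getD_flat (false, []) (tests I) j hj
  simp only [busVal_eq, toNF_R]
  constructor
  · intro h t ht
    obtain ⟨j, hj, rfl⟩ := List.getElem_of_mem ht
    have := h j hj
    obtain ⟨h0, h1, h2, h3⟩ := hb j hj
    rwa [h0, h1, h2, h3] at this
  · intro h j hj
    obtain ⟨h0, h1, h2, h3⟩ := hb j hj
    rw [h0, h1, h2, h3]
    exact h _ (List.getElem_mem _)

theorem bval_one {R : ℕ} (y : ℕ → ℝ) {a : ℕ} (ha : a < R) :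
    bval R y (false, [a]) = rowVal y a := by
  simp [bval, ha]

theorem bval_two {R : ℕ} (y : ℕ → ℝ) {a b : ℕ} (ha : a < R) (hb : b < R) (hab : a ≠ b) :
    bval R y (false, [a, b]) = rowVal y a + rowVal y b := by
  have : ∀ r' ∈ Finset.range R, (if decide (r' ∈ [a, b]) then rowVal y r' else 0) =
      (if r' = a then rowVal y r' else 0) + (if r' = b then rowVal y r' else 0) := by
    intro r' _
    by_cases h1 : r' = a
    · subst h1
      simp [hab]
    · by_cases h2 : r' = b
      · subst h2
        simp [h1]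
      · simp [h1, h2]
  simp only [bval]
  rw [Finset.sum_congr rfl this, Finset.sum_add_distrib]
  simp [ha, hb]

theorem rowVal0 (y : ℕ → ℝ) (i : ℕ) : rowVal y (4 * i) = y (2 * i) := by
  have h1 : 4 * i % 2 = 0 := by omega
  have h2 : 4 * i / 2 = 2 * i := by omega
  simp [rowVal, h1, h2]

theorem rowVal1 (y : ℕ → ℝ) (i : ℕ) : rowVal y (4 * i + 1) = 1 - y (2 * i) := by
  have h1 : ¬ (4 * i + 1) % 2 = 0 := by omega
  have h2 : (4 * i + 1) / 2 = 2 * i := by omega
  rw [rowVal, if_neg h1, h2]

theorem rowVal2 (y : ℕ → ℝ) (i : ℕ) : rowVal y (4 * i + 2) = y (2 * i + 1) := by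
  have h1 : (4 * i + 2) % 2 = 0 := by omega
  have h2 : (4 * i + 2) / 2 = 2 * i + 1 := by omega
  rw [rowVal, if_pos h1, h2]

theorem rowVal3 (y : ℕ → ℝ) (i : ℕ) : rowVal y (4 * i + 3) = 1 - y (2 * i + 1) := by
  have h1 : ¬ (4 * i + 3) % 2 = 0 := by omega
  have h2 : (4 * i + 3) / 2 = 2 * i + 1 := by omega
  rw [rowVal, if_neg h1, h2]

/-- The bus `l_i + (1 - l_j)`. -/
theorem bval_l (n : ℕ) (y : ℕ → ℝ) {i j : ℕ} (hi : i < n) (hj : j < n) :
    bval (4 * n + 2) y (false, [4 * i, 4 * j + 1]) = y (2 * i) + (1 - y (2 * j)) := by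
  rw [bval_two y (by omega) (by omega) (by omega), rowVal0, rowVal1]

/-- The bus `r_i + (1 - r_j)`. -/
theorem bval_r (n : ℕ) (y : ℕ → ℝ) {i j : ℕ} (hi : i < n) (hj : j < n) :
    bval (4 * n + 2) y (false, [4 * i + 2, 4 * j + 3]) =
      y (2 * i + 1) + (1 - y (2 * j + 1)) := by
  rw [bval_two y (by omega) (by omega) (by omega), rowVal2, rowVal3]

theorem ok (I : StretchInst) : NFok (toNF I) := by
  refine ⟨?_, ?_, ?_⟩
  · simp [toNF]
  · simp [toNF, tests]
  · intro c
    have key : ∀ t ∈ tests I, t.1.2.length ≤ 3 ∧ t.2.1.2.length ≤ 3 ∧ t.2.2.1.2.length ≤ 3 ∧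
        t.2.2.2.2.length ≤ 3 := by
      intro t ht
      simp only [tests, List.mem_cons, List.mem_append, List.mem_map] at ht
      rcases ht with rfl | ⟨i, _, rfl⟩ | ⟨i, _, rfl⟩ | ⟨e, _, rfl⟩
      · simp
      · simp [same]
      · simp [same]
      · simp only [entryTest]
        split_ifs <;> simp [same]
    simp only [busOf, toNF]
    by_cases hc : c < ((tests I).flatMap fun t => [t.1, t.2.1, t.2.2.1, t.2.2.2]).length
    · rw [List.getD_eq_getElem _ _ hc]
      have hm := List.getElem_mem hc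
      rw [List.mem_flatMap] at hm
      obtain ⟨t, ht, hm⟩ := hm
      obtain ⟨k1, k2, k3, k4⟩ := key t ht
      simp only [List.mem_cons, List.not_mem_nil, or_false] at hm
      rcases hm with h | h | h | h <;> rw [h] <;> assumption
    · rw [List.getD_eq_default _ _ (by omega)]
      simp

end Str

open Str

/-- STR2. -/
theorem str2 : SStr2 := by
  intro I hI
  obtain ⟨y, hy⟩ := hI
  have hy' := (forall_tests I y (fun A B C D => ∃ X X' : ℝ, 0 ≤ X ∧ X' ≤ 1 ∧
    testAt A B C D X X' 1)).1 hy
  set n := I.1 with hn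
  -- the order tests
  have hl : ∀ i, i + 1 < n → y (2 * (i + 1)) < y (2 * i) := by
    intro i hi
    have hm : same (4 * (i + 1)) (4 * i + 1) ∈ tests I := by
      simp only [tests, List.mem_cons, List.mem_append, List.mem_map, List.mem_range]
      exact Or.inr (Or.inl ⟨i, by omega, rfl⟩)
    obtain ⟨X, X', -, -, -, h, -⟩ := hy' _ hm
    simp only [same] at h
    rw [bval_l n y hi (by omega)] at h
    nlinarith
  have hr : ∀ i, i + 1 < n → y (2 * i + 1) < y (2 * (i + 1) + 1) := by
    intro i hi
    have hm : same (4 * i + 2) (4 * (i + 1) + 3) ∈ tests I := by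
      simp only [tests, List.mem_cons, List.mem_append, List.mem_map, List.mem_range]
      exact Or.inr (Or.inr (Or.inl ⟨i, by omega, rfl⟩))
    obtain ⟨X, X', -, -, -, h, -⟩ := hy' _ hm
    simp only [same] at h
    rw [bval_r n y (by omega) hi] at h
    nlinarith
  have hmono : ∀ i j, i < j → j < n →
      y (2 * i + 1) - y (2 * i) < y (2 * j + 1) - y (2 * j) := by
    intro i j hij
    induction j, hij using Nat.le_induction with
    | base =>
      intro h
      have := hl i h
      have := hr i h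
      linarith
    | succ j hij ih =>
      intro h
      have := hl j h
      have := hr j h
      have := ih (by omega)
      linarith
  refine ⟨fun i => y (2 * i + 1) - y (2 * i), fun i => y (2 * i), hmono, ?_⟩
  intro t ht
  have hm : entryTest n t ∈ tests I := by
    simp only [tests, List.mem_cons, List.mem_append, List.mem_map]
    exact Or.inr (Or.inr (Or.inr ⟨t, ht, rfl⟩))
  obtain ⟨X, X', -, -, hXX, h1, h2⟩ := hy' _ hm
  by_cases hv : t.1 < t.2.1 ∧ t.2.1 < t.2.2.1 ∧ t.2.2.1 < n
  · obtain ⟨hij, hjk, hk⟩ := hv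
    refine ⟨hij, hjk, hk, ?_⟩
    have hsij := hmono _ _ hij (by omega)
    have hsjk := hmono _ _ hjk hk
    simp only [entryTest] at h1 h2
    rw [if_pos ⟨hij, hjk, hk⟩] at h1 h2
    by_cases hs : t.2.2.2 = true
    · rw [if_pos hs] at h1 h2 ⊢
      rw [bval_l n y (by omega) (by omega), bval_r n y (by omega) (by omega)] at h1
      rw [bval_l n y (by omega) (by omega), bval_r n y (by omega) (by omega)] at h2
      have e1 : cross (fun i => y (2 * i + 1) - y (2 * i)) (fun i => y (2 * i)) t.1 t.2.1 < X := by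
        rw [cross, div_lt_iff₀ (by linarith)]
        nlinarith
      have e2 : X' < cross (fun i => y (2 * i + 1) - y (2 * i)) (fun i => y (2 * i))
          t.2.1 t.2.2.1 := by
        rw [cross, lt_div_iff₀ (by linarith)]
        nlinarith
      linarith
    · rw [if_neg hs] at h1 h2 ⊢
      rw [bval_l n y (by omega) (by omega), bval_r n y (by omega) (by omega)] at h1
      rw [bval_l n y (by omega) (by omega), bval_r n y (by omega) (by omega)] at h2
      have e1 : cross (fun i => y (2 * i + 1) - y (2 * i)) (fun i => y (2 * i))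
          t.2.1 t.2.2.1 < X := by
        rw [cross, div_lt_iff₀ (by linarith)]
        nlinarith
      have e2 : X' < cross (fun i => y (2 * i + 1) - y (2 * i)) (fun i => y (2 * i))
          t.1 t.2.1 := by
        rw [cross, lt_div_iff₀ (by linarith)]
        nlinarith
      linarith
  · exfalso
    simp only [entryTest] at h1
    rw [if_neg hv] at h1
    simp only [same] at h1
    rw [bval_two y (by omega) (by omega) (by omega), rowVal0 y 0, rowVal1 y 0] at h1
    nlinarith

namespace Str

/-- Two numbers around finitely many. -/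
theorem exists_bound (n : ℕ) (f : ℕ → ℕ → ℝ) : ∃ K : ℝ, 0 < K ∧ ∀ i < n, ∀ j < n, |f i j| < K := by
  refine ⟨1 + ∑ i ∈ Finset.range n, ∑ j ∈ Finset.range n, |f i j|, ?_, ?_⟩
  · have : 0 ≤ ∑ i ∈ Finset.range n, ∑ j ∈ Finset.range n, |f i j| :=
      Finset.sum_nonneg fun i _ => Finset.sum_nonneg fun j _ => abs_nonneg _
    linarith
  · intro i hi j hj
    have h1 : |f i j| ≤ ∑ j ∈ Finset.range n, |f i j| :=
      Finset.single_le_sum (f := fun j => |f i j|) (fun j _ => abs_nonneg _)
        (Finset.mem_range.2 hj)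
    have h2 : ∑ j ∈ Finset.range n, |f i j| ≤
        ∑ i ∈ Finset.range n, ∑ j ∈ Finset.range n, |f i j| :=
      Finset.single_le_sum (f := fun i => ∑ j ∈ Finset.range n, |f i j|)
        (fun i _ => Finset.sum_nonneg fun j _ => abs_nonneg _) (Finset.mem_range.2 hi)
    linarith

/-- The key computation: `(1 - X) L_i + X R_i` is the height of line `i` at `x`. -/
theorem key_lt {ai aj bi bj x0 x1 x B : ℝ} (hx : x0 < x1) (hB : 0 < B)
    (h : ai * x + bi < aj * x + bj) :
    (1 - (x - x0) / (x1 - x0)) *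
        ((ai * x0 + bi + B) / (2 * B) + (1 - (aj * x0 + bj + B) / (2 * B))) +
      (x - x0) / (x1 - x0) *
        ((ai * x1 + bi + B) / (2 * B) + (1 - (aj * x1 + bj + B) / (2 * B))) < 1 := by
  have hd : 0 < x1 - x0 := by linarith
  have e : (1 - (x - x0) / (x1 - x0)) *
        ((ai * x0 + bi + B) / (2 * B) + (1 - (aj * x0 + bj + B) / (2 * B))) +
      (x - x0) / (x1 - x0) *
        ((ai * x1 + bi + B) / (2 * B) + (1 - (aj * x1 + bj + B) / (2 * B))) =
      1 + ((ai * x + bi) - (aj * x + bj)) / (2 * B) := by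
    field_simp
    ring
  rw [e]
  have : ((ai * x + bi) - (aj * x + bj)) / (2 * B) < 0 := div_neg_of_neg_of_pos (by linarith)
    (by linarith)
  linarith

end Str

/-- STR1. -/
theorem str1 : SStr1 := by
  intro I
  refine ⟨Str.ok I, ?_⟩
  rintro ⟨a, b, ha, hI⟩
  set n := I.1 with hn
  obtain ⟨K, hK, hcr⟩ := exists_bound n (cross a b)
  have hx : -K < K := by linarith
  obtain ⟨B, hB, hLR⟩ := exists_bound (n + 2) fun i e => if e = 0 then a i * (-K) + b i
    else a i * K + b i
  have hL : ∀ i < n, |a i * (-K) + b i| < B := fun i hi => by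
    simpa using hLR i (by omega) 0 (by omega)
  have hR : ∀ i < n, |a i * K + b i| < B := fun i hi => by
    simpa using hLR i (by omega) 1 (by omega)
  let y : ℕ → ℝ := fun v => if v / 2 < n then
    (if v % 2 = 0 then (a (v / 2) * (-K) + b (v / 2) + B) / (2 * B)
      else (a (v / 2) * K + b (v / 2) + B) / (2 * B)) else 1 / 2
  have hy0 : ∀ i < n, y (2 * i) = (a i * (-K) + b i + B) / (2 * B) := by
    intro i hi
    have h1 : 2 * i / 2 = i := by omega
    have h2 : 2 * i % 2 = 0 := by omega
    simp only [y, h1, h2, if_pos hi, if_true]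
  have hy1 : ∀ i < n, y (2 * i + 1) = (a i * K + b i + B) / (2 * B) := by
    intro i hi
    have h1 : (2 * i + 1) / 2 = i := by omega
    have h2 : ¬ (2 * i + 1) % 2 = 0 := by omega
    simp only [y, h1, if_neg h2, if_pos hi]
  have hy : ∀ v, 0 < y v ∧ y v < 1 := by
    intro v
    simp only [y]
    split_ifs with h1 h2
    · have := abs_lt.1 (hL _ h1)
      exact ⟨div_pos (by linarith) (by linarith), by rw [div_lt_one (by linarith)]; linarith⟩
    · have := abs_lt.1 (hR _ h1)
      exact ⟨div_pos (by linarith) (by linarith), by rw [div_lt_one (by linarith)]; linarith⟩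
    · norm_num
  -- a line below another one at `x`
  have hlt : ∀ i < n, ∀ j < n, ∀ x, a i * x + b i < a j * x + b j →
      (1 - (x - -K) / (K - -K)) * bval (4 * n + 2) y (false, [4 * i, 4 * j + 1]) +
        (x - -K) / (K - -K) * bval (4 * n + 2) y (false, [4 * i + 2, 4 * j + 3]) < 1 := by
    intro i hi j hj x h
    rw [bval_l n y hi hj, bval_r n y hi hj, hy0 i hi, hy0 j hj, hy1 i hi, hy1 j hj]
    exact key_lt hx hB h
  have hcell : ∀ x x' : ℝ, -K < x → x < x' → x' < K → 0 < (x - -K) / (K - -K) ∧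
      (x' - -K) / (K - -K) < 1 ∧ (x - -K) / (K - -K) < (x' - -K) / (K - -K) := by
    intro x x' h1 h2 h3
    refine ⟨div_pos (by linarith) (by linarith), ?_, ?_⟩
    · rw [div_lt_one (by linarith)]; linarith
    · exact div_lt_div_of_pos_right (by linarith) (by linarith)
  -- the crossings lie between `-K` and `K`
  have hc : ∀ i < n, ∀ j < n, -K < cross a b i j ∧ cross a b i j < K := fun i hi j hj =>
    abs_lt.1 (hcr i hi j hj)
  have hcL : ∀ i j x, a i < a j → x < cross a b i j → a j * x + b j < a i * x + b i := by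
    intro i j x h1 h2
    rw [cross, lt_div_iff₀ (by linarith)] at h2
    nlinarith
  have hcR : ∀ i j x, a i < a j → cross a b i j < x → a i * x + b i < a j * x + b j := by
    intro i j x h1 h2
    rw [cross, div_lt_iff₀ (by linarith)] at h2
    nlinarith
  refine ⟨y, hy, (forall_tests I y (fun A B C D => ∃ X X' : ℝ, 0 < X ∧ X' < 1 ∧
    testAt A B C D X X' 1)).2 ?_⟩
  intro t ht
  simp only [tests, List.mem_cons, List.mem_append, List.mem_map, List.mem_range] at ht
  rcases ht with rfl | ⟨i, hi, rfl⟩ | ⟨i, hi, rfl⟩ | ⟨e, he, rfl⟩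
  · refine ⟨1 / 3, 2 / 3, by norm_num, by norm_num, by norm_num, ?_, ?_⟩
    · simp only
      rw [bval_one y (by omega), rowVal0]
      have := (hy (2 * I.1)).2
      linarith
    · simp only
      rw [bval_one y (by omega), rowVal0]
      have := (hy (2 * I.1)).2
      linarith
  · have hs : bval (4 * n + 2) y (false, [4 * (i + 1), 4 * i + 1]) < 1 := by
      have h := hcL i (i + 1) (-K) (ha _ _ (by omega) (by omega))
        (hc i (by omega) (i + 1) (by omega)).1
      rw [bval_l n y (by omega) (by omega), hy0 _ (by omega), hy0 _ (by omega)]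
      have : (a (i + 1) * -K + b (i + 1) + B) / (2 * B) < (a i * -K + b i + B) / (2 * B) :=
        div_lt_div_of_pos_right (by linarith) (by linarith)
      linarith
    refine ⟨1 / 3, 2 / 3, by norm_num, by norm_num, by norm_num, ?_, ?_⟩ <;>
    · simp only [same]
      linarith
  · have hs : bval (4 * n + 2) y (false, [4 * i + 2, 4 * (i + 1) + 3]) < 1 := by
      have h := hcR i (i + 1) K (ha _ _ (by omega) (by omega))
        (hc i (by omega) (i + 1) (by omega)).2
      rw [bval_r n y (by omega) (by omega), hy1 _ (by omega), hy1 _ (by omega)]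
      have : (a i * K + b i + B) / (2 * B) < (a (i + 1) * K + b (i + 1) + B) / (2 * B) :=
        div_lt_div_of_pos_right (by linarith) (by linarith)
      linarith
    refine ⟨1 / 3, 2 / 3, by norm_num, by norm_num, by norm_num, ?_, ?_⟩ <;>
    · simp only [same]
      linarith
  · obtain ⟨h1, h2, h3, h4⟩ := hI e he
    have haij := ha _ _ h1 (by omega)
    have hajk := ha _ _ h2 h3
    have hij := hc e.1 (by omega) e.2.1 (by omega)
    have hjk := hc e.2.1 (by omega) e.2.2.1 (by omega)
    simp only [entryTest]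
    rw [if_pos ⟨h1, h2, h3⟩]
    by_cases hs : e.2.2.2 = true
    · rw [if_pos hs] at h4 ⊢
      obtain ⟨k1, k2, k3⟩ := hcell ((2 * cross a b e.1 e.2.1 + cross a b e.2.1 e.2.2.1) / 3)
        ((cross a b e.1 e.2.1 + 2 * cross a b e.2.1 e.2.2.1) / 3) (by linarith) (by linarith)
        (by linarith)
      refine ⟨_, _, k1, k2, k3, ?_, ?_⟩
      · exact hlt _ (by omega) _ (by omega) _ (hcR _ _ _ haij (by linarith))
      · exact hlt _ (by omega) _ (by omega) _ (hcL _ _ _ hajk (by linarith))
    · rw [if_neg hs] at h4 ⊢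
      obtain ⟨k1, k2, k3⟩ := hcell ((2 * cross a b e.2.1 e.2.2.1 + cross a b e.1 e.2.1) / 3)
        ((cross a b e.2.1 e.2.2.1 + 2 * cross a b e.1 e.2.1) / 3) (by linarith) (by linarith)
        (by linarith)
      refine ⟨_, _, k1, k2, k3, ?_, ?_⟩
      · exact hlt _ (by omega) _ (by omega) _ (hcR _ _ _ hajk (by linarith))
      · exact hlt _ (by omega) _ (by omega) _ (hcL _ _ _ haij (by linarith))

end Pool.Agent.SegDraw
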